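import Pool.Agent.helper51.NF2.NF

/-! The normal form theorem with at most `|RevSet| + 49` forms. -/

namespace Pool.Agent.helper36.WE

set_option linter.unusedSectionVars false

open Equiv Equiv.Perm List

variable {X : Type} [DecidableEq X]

/-- there are at most `K` normal forms. -/
def NFB (T : Finset X) (ρ : Perm X) (K : ℕ) : Prop :=
  ∃ N : Set (Perm X), N.Finite ∧ N.ncard ≤ K ∧ ∀ a b, St T ρ a b →
    ∃ n ≤ T.card * (T.card + 6), ∃ a' b', Walk CM n (a, b) (a', b') ∧ formPerm a' ∈ N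

theorem NFB.mono {T : Finset X} {ρ : Perm X} {K K' : ℕ} (h : NFB T ρ K) (hK : K ≤ K') : NFB T ρ K' := by
  obtain ⟨N, h1, h2, h3⟩ := h
  exact ⟨N, h1, h2.trans hK, h3⟩

theorem nfb_no {T : Finset X} {ρ : Perm X} (h : ¬ ∃ a b, St T ρ a b) (K : ℕ) : NFB T ρ K :=
  ⟨∅, Set.finite_empty, by simp, fun a b h' => absurd ⟨a, b, h'⟩ h⟩

theorem nfb_small (T : Finset X) (ρ : Perm X) : NFB T ρ ((T.card + 1) ^ 2) := by
  obtain ⟨N, h1, h2, h3⟩ := normal_form T.card T ρ rfl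
  exact ⟨N, h1, h2, h3⟩

theorem nfb_fix {T : Finset X} {ρ : Perm X} {f : X} {K : ℕ} (hf : f ∈ T) (hρ : ρ f = f) (h2 : 2 ≤ T.card)
    (h : NFB (T.erase f) ρ K) : NFB T ρ K := by
  obtain ⟨g, hg, hgf⟩ : ∃ g ∈ T, g ≠ f := by
    obtain ⟨x, hx, y, hy, hxy⟩ := Finset.one_lt_card.mp h2
    by_cases h : x = f
    · exact ⟨y, hy, fun h2 => hxy (h.trans h2.symm)⟩
    · exact ⟨x, hx, h⟩
  obtain ⟨m, hm⟩ : ∃ m, T.card = m + 1 := ⟨T.card - 1, by omega⟩
  obtain ⟨N, hN, hNc, hNw⟩ := h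
  rw [Finset.card_erase_of_mem hf, hm, Nat.add_sub_cancel] at hNw
  refine ⟨(fun σ : Perm X => swap f g * σ) '' N, hN.image _, (Set.ncard_image_le hN).trans hNc, ?_⟩
  rw [hm]
  exact NF2_fix hf hg hgf hρ hNw

theorem nfb_nofix {T : Finset X} {ρ : Perm X} {p z : X} {K : ℕ} (hF : ∀ f ∈ T, ρ f ≠ f) (hp : p ∈ T) (hz : z ∈ T)
    (hzp : z ≠ p) (hzr : z ≠ ρ p) (h : NFB (T.erase z) (swap (ρ p) z * ρ * swap p z) K) :
    NFB T ρ ((RevSet T ρ).ncard + K) := by
  obtain ⟨m, hm⟩ : ∃ m, T.card = m + 1 := ⟨T.card - 1, by have := Finset.card_pos.mpr ⟨p, hp⟩; omega⟩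
  obtain ⟨N, hN, hNc, hNw⟩ := h
  rw [Finset.card_erase_of_mem hz, hm, Nat.add_sub_cancel] at hNw
  obtain ⟨hRf, -⟩ := revSet_card T ρ hp
  refine ⟨RevSet T ρ ∪ (fun σ : Perm X => σ * swap p z) '' N, hRf.union (hN.image _), ?_, ?_⟩
  · refine (Set.ncard_union_le _ _).trans ?_
    have h1 := (Set.ncard_image_le hN (f := fun σ : Perm X => σ * swap p z)).trans hNc
    omega
  · rw [hm]
    exact NF2_nofix hm hF hp hz hzp hzr hNw

/-- an element of `T` which is fixed by `σ ^ j`. -/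
theorem revSet_pow {T : Finset X} {σ : Perm X} {l : List X} (hl : l.Nodup) (hT : l.toFinset = T) (hs : σ = formPerm l)
    {u : X} (hu : u ∈ T) {j : ℕ} (hj : (σ ^ j) u = u) : T.card ∣ j := by
  have hul : u ∈ l := by rw [← List.mem_toFinset, hT]; exact hu
  obtain ⟨l', hl'⟩ := exists_rot_cons hul
  have h2 := hl'.nodup_iff.mp hl
  have hc : (u :: l').length = T.card := by
    rw [← hT, List.toFinset_card_of_nodup hl, hl'.perm.length_eq]
  rw [hs, formPerm_eq_of_isRotated hl hl', formPerm_pow_apply_head u l' h2 j] at hj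
  have h3 : (u :: l')[j % (u :: l').length]'(Nat.mod_lt _ (by simp)) = (u :: l')[0] := hj
  have h4 := (h2.getElem_inj_iff).mp h3
  rw [hc] at h4
  exact Nat.dvd_of_mod_eq_zero h4

theorem perm_sq_pow {σ ρ : Perm X} (h : σ * σ = ρ) (j : ℕ) : ρ ^ j = σ ^ (2 * j) := by
  rw [← h, ← pow_two, ← pow_mul]

/-- no reversed states with a cycle of length 2. -/
theorem revSet_two {T : Finset X} {ρ : Perm X} (h5 : 5 ≤ T.card) {u : X} (hu : u ∈ T) (h : ρ (ρ u) = u) :
    RevSet T ρ = ∅ := by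
  rw [Set.eq_empty_iff_forall_notMem]
  rintro σ ⟨l, hl, hT, hs, hr⟩
  have h1 : (σ ^ 4) u = u := by
    rw [show (4 : ℕ) = 2 * 2 from rfl, ← perm_sq_pow hr, pow_two, Perm.mul_apply, h]
  have h2 := Nat.le_of_dvd (by norm_num) (revSet_pow hl hT hs hu h1)
  omega

/-- **Lemma A**: with a cycle of length 2. -/
theorem nfb_two : ∀ (m : ℕ) (T : Finset X) (ρ : Perm X) (u v : X), T.card = m → u ∈ T → v ∈ T → u ≠ v → ρ u = v →
    ρ v = u → NFB T ρ 25 := by
  intro m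
  induction m with
  | zero =>
    intro T ρ u v hT hu
    rw [Finset.card_eq_zero.mp hT] at hu
    simp at hu
  | succ m ih =>
    intro T ρ u v hT hu hv huv h1 h2
    by_cases hm : m + 1 ≤ 4
    · refine (nfb_small T ρ).mono ?_
      rw [hT]
      calc (m + 1 + 1) ^ 2 ≤ 5 ^ 2 := Nat.pow_le_pow_left (by omega) 2
        _ = 25 := by norm_num
    by_cases hF : ∃ f ∈ T, ρ f = f
    · obtain ⟨f, hf, hρ⟩ := hF
      have hfu : u ≠ f := by rintro rfl; exact huv (hρ.symm.trans h1)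
      have hfv : v ≠ f := by rintro rfl; exact huv (h2.symm.trans hρ)
      exact nfb_fix hf hρ (by omega) (ih (T.erase f) ρ u v (by rw [Finset.card_erase_of_mem hf, hT]; rfl)
        (Finset.mem_erase.mpr ⟨hfu, hu⟩) (Finset.mem_erase.mpr ⟨hfv, hv⟩) huv h1 h2)
    · push Not at hF
      by_cases hS : ∃ a b, St T ρ a b
      swap
      · exact nfb_no hS _
      obtain ⟨a0, b0, h0⟩ := hS
      obtain ⟨p, hp, hpn⟩ : ∃ p ∈ T, p ∉ ({u, v} : Finset X) := by
        by_contra hcon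
        push Not at hcon
        have := Finset.card_le_card (show T ⊆ {u, v} from hcon)
        have := Finset.card_le_two (a := u) (b := v)
        omega
      simp only [Finset.mem_insert, Finset.mem_singleton, not_or] at hpn
      have hr := h0.rho_mem hp
      have hru : ρ p ≠ u := fun h => hpn.2 (ρ.injective (h.trans h2.symm))
      have hrv : ρ p ≠ v := fun h => hpn.1 (ρ.injective (h.trans h1.symm))
      obtain ⟨z, hz, hzn⟩ : ∃ z ∈ T, z ∉ ({u, v, p, ρ p} : Finset X) := by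
        by_contra hcon
        push Not at hcon
        have := Finset.card_le_card (show T ⊆ {u, v, p, ρ p} from hcon)
        have := Finset.card_le_four (a := u) (b := v) (c := p) (d := ρ p)
        omega
      simp only [Finset.mem_insert, Finset.mem_singleton, not_or] at hzn
      obtain ⟨hzu, hzv, hzp, hzr⟩ := hzn
      have h3 : NFB (T.erase z) (swap (ρ p) z * ρ * swap p z) 25 := by
        refine ih _ _ u v (by rw [Finset.card_erase_of_mem hz, hT]; rfl)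
          (Finset.mem_erase.mpr ⟨Ne.symm hzu, hu⟩) (Finset.mem_erase.mpr ⟨Ne.symm hzv, hv⟩) huv ?_ ?_
        · rw [Perm.mul_apply, Perm.mul_apply, swap_apply_of_ne_of_ne (Ne.symm hpn.1) (Ne.symm hzu), h1,
            swap_apply_of_ne_of_ne (Ne.symm hrv) (Ne.symm hzv)]
        · rw [Perm.mul_apply, Perm.mul_apply, swap_apply_of_ne_of_ne (Ne.symm hpn.2) (Ne.symm hzv), h2,
            swap_apply_of_ne_of_ne (Ne.symm hru) (Ne.symm hzu)]
      have h4 := nfb_nofix hF hp hz hzp hzr h3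
      rw [revSet_two (by omega) hu (by rw [h1, h2]), Set.ncard_empty] at h4
      exact h4.mono (by omega)

/-- **Lemma B**: with a cycle of length at least 4. -/
theorem nfb_four {T : Finset X} {ρ : Perm X} (hF : ∀ f ∈ T, ρ f ≠ f) {p : X} (hp : p ∈ T) (h2 : ρ (ρ p) ≠ p)
    (h3 : ρ (ρ (ρ p)) ≠ p) : NFB T ρ ((RevSet T ρ).ncard + 25) := by
  by_cases hS : ∃ a b, St T ρ a b
  swap
  · exact nfb_no hS _
  obtain ⟨a0, b0, h0⟩ := hS
  have hr := h0.rho_mem hp
  have hw := h0.rho_mem hr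
  have hz := h0.rho_mem hw
  have hpr : ρ p ≠ p := hF p hp
  have hrw : ρ (ρ p) ≠ ρ p := fun h => hpr (ρ.injective h)
  have hwz : ρ (ρ (ρ p)) ≠ ρ (ρ p) := fun h => hrw (ρ.injective h)
  have hrz : ρ (ρ (ρ p)) ≠ ρ p := fun h => h2 (ρ.injective h)
  refine nfb_nofix hF hp hz h3 hrz ?_
  refine nfb_two _ _ _ (ρ p) (ρ (ρ p)) rfl (Finset.mem_erase.mpr ⟨Ne.symm hrz, hr⟩)
    (Finset.mem_erase.mpr ⟨Ne.symm hwz, hw⟩) (Ne.symm hrw) ?_ ?_
  · rw [Perm.mul_apply, Perm.mul_apply, swap_apply_of_ne_of_ne hpr (Ne.symm hrz),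
      swap_apply_of_ne_of_ne hrw (Ne.symm hwz)]
  · rw [Perm.mul_apply, Perm.mul_apply, swap_apply_of_ne_of_ne h2 (Ne.symm hwz), swap_apply_right]

/-- all cycles have length 3. -/
theorem nfb_three' {T : Finset X} {ρ : Perm X} (hF : ∀ f ∈ T, ρ f ≠ f) (h3 : ∀ t ∈ T, ρ (ρ (ρ t)) = t)
    (hc : 6 < T.card) {a0 b0 : List X} (h0 : St T ρ a0 b0) :
    ∃ p z : X, p ∈ T ∧ z ∈ T ∧ z ≠ p ∧ z ≠ ρ p ∧ NFB (T.erase z) (swap (ρ p) z * ρ * swap p z) 25 := by
  have hmem : ∀ t ∈ T, ρ t ∈ T := fun t ht => h0.rho_mem ht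
  obtain ⟨p, hp⟩ : T.Nonempty := Finset.card_pos.mp (by omega)
  obtain ⟨z, hz, hzn⟩ : ∃ z ∈ T, z ∉ ({p, ρ p, ρ (ρ p)} : Finset X) := by
    by_contra hcon
    push Not at hcon
    have := Finset.card_le_card (show T ⊆ {p, ρ p, ρ (ρ p)} from hcon)
    have := Finset.card_le_three (a := p) (b := ρ p) (c := ρ (ρ p))
    omega
  simp only [Finset.mem_insert, Finset.mem_singleton, not_or] at hzn
  obtain ⟨hzp, hzr, hzw⟩ := hzn
  obtain ⟨x, hx, hxn⟩ : ∃ x ∈ T, x ∉ ({p, ρ p, ρ (ρ p), z, ρ z, ρ (ρ z)} : Finset X) := by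
    by_contra hcon
    push Not at hcon
    have := Finset.card_le_card (show T ⊆ {p, ρ p, ρ (ρ p), z, ρ z, ρ (ρ z)} from hcon)
    have := Finset.card_le_six (a := p) (b := ρ p) (c := ρ (ρ p)) (d := z) (e := ρ z) (f := ρ (ρ z))
    omega
  simp only [Finset.mem_insert, Finset.mem_singleton, not_or] at hxn
  obtain ⟨x1, x2, x3, x4, x5, x6⟩ := hxn
  -- names
  obtain ⟨r, hr⟩ : ∃ r, r = ρ p := ⟨_, rfl⟩
  obtain ⟨w, hw⟩ : ∃ w, w = ρ r := ⟨_, rfl⟩
  obtain ⟨v, hv⟩ : ∃ v, v = ρ z := ⟨_, rfl⟩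
  obtain ⟨q, hq⟩ : ∃ q, q = ρ v := ⟨_, rfl⟩
  obtain ⟨y, hy⟩ : ∃ y, y = ρ x := ⟨_, rfl⟩
  obtain ⟨s, hs⟩ : ∃ s, s = ρ y := ⟨_, rfl⟩
  have hρw : ρ w = p := by rw [hw, hr]; exact h3 p hp
  have hρq : ρ q = z := by rw [hq, hv]; exact h3 z hz
  have hρs : ρ s = x := by rw [hs, hy]; exact h3 x hx
  rw [← hr, ← hw] at hzw
  rw [← hr] at hzr
  rw [← hr, ← hw] at x3
  rw [← hr] at x2
  rw [← hv, ← hq] at x6
  rw [← hv] at x5
  have inj : ∀ {a b : X}, ρ a = ρ b → a = b := fun h => ρ.injective h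
  have hrT : r ∈ T := hr ▸ hmem p hp
  have hwT : w ∈ T := hw ▸ hmem r hrT
  have hvT : v ∈ T := hv ▸ hmem z hz
  have hqT : q ∈ T := hq ▸ hmem v hvT
  have e_rp : r ≠ p := hr ▸ hF p hp
  have e_wr : w ≠ r := hw ▸ hF r hrT
  have e_wp : w ≠ p := fun h => hF w hwT (by rw [hρw, h])
  have e_vz : v ≠ z := hv ▸ hF z hz
  have e_qv : q ≠ v := hq ▸ hF v hvT
  have e_qz : q ≠ z := fun h => hF q hqT (by rw [hρq, h])
  have e_vr : v ≠ r := fun h => hzp (inj (by rw [← hv, ← hr, h]))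
  have e_vw : v ≠ w := fun h => hzr (inj (by rw [← hv, ← hw, h]))
  have e_vp : v ≠ p := fun h => hzw (inj (by rw [← hv, hρw, h]))
  have e_qr : q ≠ r := fun h => e_vp (inj (by rw [← hq, ← hr, h]))
  have e_qw : q ≠ w := fun h => e_vr (inj (by rw [← hq, ← hw, h]))
  have e_qp : q ≠ p := fun h => e_vw (inj (by rw [← hq, hρw, h]))
  have y_p : y ≠ p := fun h => x3 (inj (by rw [← hy, hρw, h]))
  have y_r : y ≠ r := fun h => x1 (inj (by rw [← hy, ← hr, h]))
  have y_w : y ≠ w := fun h => x2 (inj (by rw [← hy, ← hw, h]))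
  have y_z : y ≠ z := fun h => x6 (inj (by rw [← hy, hρq, h]))
  have y_v : y ≠ v := fun h => x4 (inj (by rw [← hy, ← hv, h]))
  have y_q : y ≠ q := fun h => x5 (inj (by rw [← hy, ← hq, h]))
  have s_p : s ≠ p := fun h => y_w (inj (by rw [← hs, hρw, h]))
  have s_r : s ≠ r := fun h => y_p (inj (by rw [← hs, ← hr, h]))
  have s_z : s ≠ z := fun h => y_q (inj (by rw [← hs, hρq, h]))
  have s_q : s ≠ q := fun h => y_v (inj (by rw [← hs, ← hq, h]))
  refine ⟨p, z, hp, hz, hzp, by rw [← hr]; exact hzr, ?_⟩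
  · rw [← hr]
    obtain ⟨ρ1, hρ1⟩ : ∃ ρ1, ρ1 = swap r z * ρ * swap p z := ⟨_, rfl⟩
    rw [← hρ1]
    have a1 : ∀ t, t ≠ p → t ≠ z → t ≠ q → ρ1 t = ρ t := by
      intro t t1 t2 t3
      rw [hρ1, Perm.mul_apply, Perm.mul_apply, swap_apply_of_ne_of_ne t1 t2]
      refine swap_apply_of_ne_of_ne ?_ ?_
      · exact fun h => t1 (inj (h.trans hr))
      · exact fun h => t3 (inj (h.trans hρq.symm))
    have a2 : ρ1 p = v := by
      rw [hρ1, Perm.mul_apply, Perm.mul_apply, swap_apply_left, ← hv, swap_apply_of_ne_of_ne e_vr e_vz]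
    have a3 : ρ1 q = r := by
      rw [hρ1, Perm.mul_apply, Perm.mul_apply, swap_apply_of_ne_of_ne e_qp e_qz, hρq, swap_apply_right]
    have a4 : ρ1 v = q := by rw [a1 v e_vp e_vz (Ne.symm e_qv), hq]
    have a5 : ρ1 r = w := by rw [a1 r e_rp (Ne.symm hzr) (Ne.symm e_qr), hw]
    have a6 : ρ1 w = p := by rw [a1 w e_wp (Ne.symm hzw) (Ne.symm e_qw), hρw]
    have a7 : ρ1 x = y := by rw [a1 x x1 x4 x6, hy]
    have a8 : ρ1 y = s := by rw [a1 y y_p y_z y_q, hs]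
    have a9 : ρ1 s = x := by rw [a1 s s_p s_z s_q, hρs]
    have hF1 : ∀ f ∈ T.erase z, ρ1 f ≠ f := by
      intro f hf
      obtain ⟨f1, f2⟩ := Finset.mem_erase.mp hf
      by_cases g1 : f = p
      · rw [g1, a2]; exact e_vp
      by_cases g2 : f = q
      · rw [g2, a3]; exact Ne.symm e_qr
      rw [a1 f g1 f1 g2]
      exact hF f f2
    have h4 := nfb_four hF1 (Finset.mem_erase.mpr ⟨Ne.symm hzp, hp⟩) (by rw [a2, a4]; exact e_qp)
      (by rw [a2, a4, a3]; exact e_rp)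
    have h5 : RevSet (T.erase z) ρ1 = ∅ := by
      rw [Set.eq_empty_iff_forall_notMem]
      rintro σ ⟨l, hl, hT, hs', hr'⟩
      have hcard : 6 ≤ (T.erase z).card := by rw [Finset.card_erase_of_mem hz]; omega
      have b1 : (σ ^ 6) x = x := by
        rw [show (6 : ℕ) = 2 * 3 from rfl, ← perm_sq_pow hr', pow_succ, pow_two, Perm.mul_apply, Perm.mul_apply,
          a7, a8, a9]
      have b2 : (σ ^ 10) p = p := by
        rw [show (10 : ℕ) = 2 * 5 from rfl, ← perm_sq_pow hr', pow_succ, pow_succ, pow_succ, pow_two,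
          Perm.mul_apply, Perm.mul_apply, Perm.mul_apply, Perm.mul_apply, a2, a4, a3, a5, a6]
      have c1 := revSet_pow hl hT hs' (Finset.mem_erase.mpr ⟨x4, hx⟩) b1
      have c2 := revSet_pow hl hT hs' (Finset.mem_erase.mpr ⟨Ne.symm hzp, hp⟩) b2
      have c3 := Nat.le_of_dvd (by norm_num) c1
      have c4 : (T.erase z).card = 6 := le_antisymm c3 hcard
      rw [c4] at c2
      norm_num at c2
    rw [h5, Set.ncard_empty, Nat.zero_add] at h4
    exact h4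

/-- all cycles have length 3. -/
theorem nfb_three {T : Finset X} {ρ : Perm X} (hF : ∀ f ∈ T, ρ f ≠ f) (h3 : ∀ t ∈ T, ρ (ρ (ρ t)) = t) :
    NFB T ρ ((RevSet T ρ).ncard + 49) := by
  by_cases hc : T.card ≤ 6
  · refine (nfb_small T ρ).mono ?_
    have : (T.card + 1) ^ 2 ≤ 7 ^ 2 := Nat.pow_le_pow_left (by omega) 2
    omega
  by_cases hS : ∃ a b, St T ρ a b
  swap
  · exact nfb_no hS _
  obtain ⟨a0, b0, h0⟩ := hS
  obtain ⟨p, z, hp, hz, hzp, hzr, h4⟩ := nfb_three' hF h3 (by omega) h0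
  exact (nfb_nofix hF hp hz hzp hzr h4).mono (by omega)

/-- without fixed points. -/
theorem nfb_noFix {T : Finset X} {ρ : Perm X} (hF : ∀ f ∈ T, ρ f ≠ f) : NFB T ρ ((RevSet T ρ).ncard + 49) := by
  by_cases hS : ∃ a b, St T ρ a b
  swap
  · exact nfb_no hS _
  obtain ⟨a0, b0, h0⟩ := hS
  by_cases h2 : ∃ u ∈ T, ρ (ρ u) = u
  · obtain ⟨u, hu, h⟩ := h2
    exact (nfb_two _ T ρ u (ρ u) rfl hu (h0.rho_mem hu) (Ne.symm (hF u hu)) rfl h).mono (by omega)
  push Not at h2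
  by_cases h3 : ∃ p ∈ T, ρ (ρ (ρ p)) ≠ p
  · obtain ⟨p, hp, h⟩ := h3
    exact (nfb_four hF hp (h2 p hp) h).mono (by omega)
  push Not at h3
  exact nfb_three hF h3

/-- delete all fixed points. -/
theorem nfb_filter : ∀ (m : ℕ) (T : Finset X) (ρ : Perm X) (K : ℕ), T.card = m → 4 ≤ K →
    NFB (T.filter (fun t => ρ t ≠ t)) ρ K → NFB T ρ K := by
  intro m
  induction m with
  | zero =>
    intro T ρ K hT hK _
    refine (nfb_small T ρ).mono ?_
    rw [hT]
    omega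
  | succ m ih =>
    intro T ρ K hT hK h
    by_cases hF : ∃ f ∈ T, ρ f = f
    · obtain ⟨f, hf, hρ⟩ := hF
      by_cases hm : m = 0
      · refine (nfb_small T ρ).mono ?_
        rw [hT, hm]
        omega
      · refine nfb_fix hf hρ (by omega) (ih _ ρ K (by rw [Finset.card_erase_of_mem hf, hT]; rfl) hK ?_)
        have e : (T.erase f).filter (fun t => ρ t ≠ t) = T.filter (fun t => ρ t ≠ t) := by
          ext t
          simp only [Finset.mem_filter, Finset.mem_erase]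
          constructor
          · rintro ⟨⟨-, h1⟩, h2⟩
            exact ⟨h1, h2⟩
          · rintro ⟨h1, h2⟩
            refine ⟨⟨?_, h1⟩, h2⟩
            rintro rfl
            exact h2 hρ
        rw [e]
        exact h
    · push Not at hF
      have e : T.filter (fun t => ρ t ≠ t) = T := Finset.filter_true_of_mem hF
      rw [e] at h
      exact h

/-- **Normal form theorem** with `|RevSet| + 49` forms. -/
theorem normal_form3 (m : ℕ) (T : Finset X) (ρ : Perm X) (hT : T.card = m) :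
    ∃ N : Set (Perm X), N.Finite ∧ N.ncard ≤ (RevSet (T.filter (fun t => ρ t ≠ t)) ρ).ncard + 49 ∧
      ∀ a b, St T ρ a b → ∃ n ≤ m * (m + 6), ∃ a' b', Walk CM n (a, b) (a', b') ∧ formPerm a' ∈ N := by
  have h := nfb_filter T.card T ρ ((RevSet (T.filter (fun t => ρ t ≠ t)) ρ).ncard + 49) rfl (by omega)
    (nfb_noFix (fun f hf => (Finset.mem_filter.mp hf).2))
  rw [← hT]
  exact h

end Pool.Agent.helper36.WE
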