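import Pool.Agent.helper51.NF2.Cls3
import Pool.Agent.helper65.GP.Runs
import Pool.Agent.helper14.NTN.Hub

/-! The hypotheses `SegB` and `NF4_stmt`. -/

namespace Pool.Agent.helper51.UG

/-- regular segments are short. -/
theorem segB : NTH.SegB 2750 := by
  intro X A _ _ D s t hc h
  exact seg_bound3 hc h

/-- at most 49 normal forms. -/
theorem nf4 : Pool.Agent.helper36.WE.NF4_stmt := by
  intro X _ m T ρ hT
  exact Pool.Agent.helper36.WE.normal_form4 m T ρ hT

end Pool.Agent.helper51.UG
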