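import Pool.Agent.helper51.NF2.NF3
import Pool.Agent.helper32.ATT.RRinv

/-! Normal forms: 49 forms for states whose core is not reversed; one form for each reversed core. -/

namespace Pool.Agent.helper36.WE

set_option linter.unusedSectionVars false

open Equiv Equiv.Perm List Pool.Agent.helper32.ATT

variable {X : Type} [DecidableEq X]

/-- there are at most `K` normal forms of the states with a core which is not reversed. -/
def NFB4 (T : Finset X) (ρ : Perm X) (K : ℕ) : Prop :=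
  ∃ N : Set (Perm X), N.Finite ∧ N.ncard ≤ K ∧ ∀ a b, St T ρ a b → ¬ RRf ρ a b →
    ∃ n ≤ T.card * (T.card + 6), ∃ a' b', Walk CM n (a, b) (a', b') ∧ formPerm a' ∈ N

theorem NFB4.mono {T : Finset X} {ρ : Perm X} {K K' : ℕ} (h : NFB4 T ρ K) (hK : K ≤ K') : NFB4 T ρ K' := by
  obtain ⟨N, h1, h2, h3⟩ := h
  exact ⟨N, h1, h2.trans hK, h3⟩

theorem NFB.to4 {T : Finset X} {ρ : Perm X} {K : ℕ} (h : NFB T ρ K) : NFB4 T ρ K := by
  obtain ⟨N, h1, h2, h3⟩ := h
  exact ⟨N, h1, h2, fun a b h _ => h3 a b h⟩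

theorem filter_id {T : Finset X} {ρ : Perm X} (hF : ∀ f ∈ T, ρ f ≠ f) {l : List X} (hl : ∀ t ∈ l, t ∈ T) :
    l.filter (fun s => decide (ρ s ≠ s)) = l := by
  rw [List.filter_eq_self]
  intro t ht
  exact decide_eq_true (hF t (hl t ht))

theorem St.memA {T : Finset X} {ρ : Perm X} {a b : List X} (h : St T ρ a b) {t : X} (ht : t ∈ a) : t ∈ T := by
  rw [← h.supp, List.mem_toFinset]; exact ht

theorem St.memB {T : Finset X} {ρ : Perm X} {a b : List X} (h : St T ρ a b) {t : X} (ht : t ∈ b) : t ∈ T :=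
  h.memA (h.perm.symm.subset ht)

/-- a member of `RevSet` is the permutation of a reversed state. -/
theorem rev_of_revSet {T : Finset X} {ρ : Perm X} {a b : List X} (h : St T ρ a b) (hr : formPerm a ∈ RevSet T ρ)
    (hF : ∀ f ∈ T, ρ f ≠ f) : RRf ρ a b := by
  obtain ⟨l, -, -, -, h2⟩ := hr
  have h3 : formPerm b = (formPerm a)⁻¹ := by
    have h4 := h.rho
    rw [← h2] at h4
    have h5 : (formPerm b)⁻¹ = formPerm a := mul_right_cancel h4
    rw [← h5, inv_inv]
  have h6 : formPerm b = formPerm a.reverse := by rw [formPerm_reverse, h3]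
  have h7 : b ~r a.reverse := by
    rcases (formPerm_eq_formPerm_iff h.nodupB (List.nodup_reverse.mpr h.nodup)).mp h6 with h8 | ⟨h8, h9⟩
    · exact h8
    · rw [List.length_reverse] at h9
      have hp := h.perm
      match a, b, h8, h9, hp with
      | [], [], _, _, _ => exact List.IsRotated.refl _
      | [], [y], _, _, hp => simp at hp
      | [x], [], _, _, hp => simp at hp
      | [x], [y], _, _, hp =>
        have : x = y := by simpa using hp
        rw [this]
        exact List.IsRotated.refl _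
      | _ :: _ :: _, _, _, h9, _ => simp at h9
      | _, _ :: _ :: _, h8, _, _ => simp at h8
  show Rev _ _
  rw [filter_id hF (fun t ht => h.memA ht), filter_id hF (fun t ht => h.memB ht)]
  exact h7

theorem nfb4_nofix {T : Finset X} {ρ : Perm X} {p z : X} {K : ℕ} (hF : ∀ f ∈ T, ρ f ≠ f) (hp : p ∈ T) (hz : z ∈ T)
    (hzp : z ≠ p) (hzr : z ≠ ρ p) (h : NFB (T.erase z) (swap (ρ p) z * ρ * swap p z) K) : NFB4 T ρ K := by
  obtain ⟨m, hm⟩ : ∃ m, T.card = m + 1 := ⟨T.card - 1, by have := Finset.card_pos.mpr ⟨p, hp⟩; omega⟩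
  obtain ⟨N, hN, hNc, hNw⟩ := h
  rw [Finset.card_erase_of_mem hz, hm, Nat.add_sub_cancel] at hNw
  refine ⟨(fun σ : Perm X => σ * swap p z) '' N, hN.image _, (Set.ncard_image_le hN).trans hNc, ?_⟩
  intro a b hst hR
  rw [hm]
  obtain ⟨n, hn, a', b', hw, h1⟩ := NF2_nofix hm hF hp hz hzp hzr hNw a b hst
  rcases h1 with h1 | h1
  · exact absurd ((RRf.walk hst hw).mpr (rev_of_revSet (hst.walk hw) h1 hF)) hR
  · exact ⟨n, hn, a', b', hw, h1⟩

/-- a triple swap does not change a reversed core. -/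
theorem RRf_core_CM {T : Finset X} {ρ : Perm X} {a b a' b' : List X} (h : St T ρ a b)
    (hm : CM (a, b) (a', b')) (hR : RRf ρ a b) :
    a.filter (fun s => decide (ρ s ≠ s)) ~r a'.filter (fun s => decide (ρ s ≠ s)) := by
  have h' : St T ρ a' b' := h.CM hm
  obtain ⟨x, y, z, P, Q, R, P', Q', R', e1, e2, e3, e4⟩ := hm
  simp only at e1 e2 e3 e4
  set q : X → Bool := fun s => decide (ρ s ≠ s) with hq
  have hfix : ∀ s, q s = false → formPerm a s = formPerm b s := by
    intro s hs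
    have h1 : ρ s = s := by simpa [hq] using hs
    rw [← h.rho, Perm.mul_apply, Perm.inv_eq_iff_eq] at h1
    exact h1
  have key : ∀ (x y : X) (P P' Q Q' : List X), a ~r (x :: (P ++ y :: Q)) →
      b ~r (x :: (P' ++ y :: Q')) → ((x :: P).filter q = [] ∧ (x :: P').filter q = []) ∨
      ∃ t u v, (x :: P).filter q = t :: u ∧ (x :: P').filter q = t :: v := by
    intro x y P P' Q Q' ha hb
    refine chain q y Q Q' P P' x [] [] (ha.nodup_iff.mp h.nodup) (hb.nodup_iff.mp h.nodupB) ?_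
    intro s hs
    have h1 := hfix s hs
    rw [formPerm_eq_of_isRotated h.nodup ha, formPerm_eq_of_isRotated h.nodupB hb] at h1
    exact h1
  have kx := key x y P P' (Q ++ z :: R) (Q' ++ z :: R') (by simpa using e1) (by simpa using e2)
  have ky := key y z Q Q' (R ++ x :: P) (R' ++ x :: P')
    (e1.trans (rot_of_eq (u := x :: P) (v := (y :: Q) ++ (z :: R)) (by simp) (by simp)))
    (e2.trans (rot_of_eq (u := x :: P') (v := (y :: Q') ++ (z :: R')) (by simp) (by simp)))
  have kz := key z x R R' (P ++ y :: Q) (P' ++ y :: Q')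
    (e1.trans (rot_of_eq (u := (x :: P) ++ (y :: Q)) (v := z :: R) (by simp) (by simp)))
    (e2.trans (rot_of_eq (u := (x :: P') ++ (y :: Q')) (v := z :: R') (by simp) (by simp)))
  have f1 := rot_filter e1 q
  have f2 := rot_filter e2 q
  have f3 := rot_filter e3 q
  have f4 := rot_filter e4 q
  rw [List.filter_append, List.filter_append] at f1 f2 f3 f4
  have hR1 : Rev (a.filter q) (b.filter q) := hR
  show a.filter q ~r a'.filter q
  rcases kx with ⟨x1, x2⟩ | ⟨tx, ux, vx, x1, x2⟩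
  · rw [x1, List.nil_append] at f1
    rw [x2, List.nil_append] at f2
    rw [x1, List.append_nil] at f3
    rw [x2, List.append_nil] at f4
    exact f1.trans f3.symm
  rcases ky with ⟨y1, y2⟩ | ⟨ty, uy, vy, y1, y2⟩
  · rw [y1, List.append_nil] at f1
    rw [y2, List.append_nil] at f2
    rw [y1, List.nil_append] at f3
    rw [y2, List.nil_append] at f4
    exact f1.trans f3.symm
  rcases kz with ⟨z1, z2⟩ | ⟨tz, uz, vz, z1, z2⟩
  · rw [z1, List.append_nil] at f1
    rw [z2, List.append_nil] at f2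
    rw [z1, List.append_nil] at f3
    rw [z2, List.append_nil] at f4
    exact (f1.trans (rot_append _ _)).trans f3.symm
  exfalso
  rw [x1, y1, z1] at f1 f3
  rw [x2, y2, z2] at f2 f4
  have hm' : Pool.Agent.helper36.WE.CM (a.filter q, b.filter q) (a'.filter q, b'.filter q) :=
    ⟨tx, ty, tz, ux, uy, uz, vx, vy, vz, f1, f2, f3, f4⟩
  exact not_rev_of_CM (Pool.Agent.helper32.ATT.CM.symm' hm') (h.nodup.filter _) (h.nodupB.filter _) hR1

theorem RRf_core_walk {T : Finset X} {ρ : Perm X} {n : ℕ} {a b a' b' : List X} (h : St T ρ a b)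
    (hw : Walk CM n (a, b) (a', b')) (hR : RRf ρ a b) :
    a.filter (fun s => decide (ρ s ≠ s)) ~r a'.filter (fun s => decide (ρ s ≠ s)) := by
  obtain ⟨f, f0, fn, hf⟩ := hw
  have key : ∀ i ≤ n, St T ρ (f i).1 (f i).2 ∧ RRf ρ (f i).1 (f i).2 ∧
      a.filter (fun s => decide (ρ s ≠ s)) ~r (f i).1.filter (fun s => decide (ρ s ≠ s)) := by
    intro i
    induction i with
    | zero => intro _; rw [f0]; exact ⟨h, hR, List.IsRotated.refl _⟩
    | succ i ih =>
        intro hi
        obtain ⟨h1, h2, h3⟩ := ih (by omega)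
        have hm : CM ((f i).1, (f i).2) ((f (i + 1)).1, (f (i + 1)).2) := hf i (by omega)
        exact ⟨h1.CM hm, RRf.CM h1 hm h2, h3.trans (RRf_core_CM h1 hm h2)⟩
  have := key n le_rfl
  rw [fn] at this
  exact this.2.2

/-- deletion of a letter with the same successor: the common part of the induction steps. -/
theorem NF4_fix {m : ℕ} {T : Finset X} {ρ : Perm X} {f g : X} (hf : f ∈ T) (hg : g ∈ T) (hgf : g ≠ f)
    (hρ : ρ f = f) (a b : List X) (h : St T ρ a b) :
    ∃ R R' : List X, St (T.erase f) ρ (g :: R) (g :: R') ∧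
      (RRf ρ a b ↔ RRf ρ (g :: R) (g :: R')) ∧
      (RRf ρ a b → a.filter (fun s => decide (ρ s ≠ s)) ~r (g :: R).filter (fun s => decide (ρ s ≠ s)) ) ∧
      ∀ n1 ≤ m * (m + 6), ∀ a1 b1, Walk CM n1 (g :: R, g :: R') (a1, b1) →
        ∃ n ≤ (m + 1) * (m + 1 + 6), ∃ a' b', Walk CM n (a, b) (a', b') ∧
          formPerm a' = swap f g * formPerm a1 := by
  obtain ⟨n0, hn0, a', b', R, R', hw, ha', hb'⟩ := place_before h hf hg hgf.symm hρ
  have h1 : St T ρ (f :: g :: R) (f :: g :: R') := (h.walk hw).rot ha' hb'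
  have hfR : f ∉ g :: R := (List.nodup_cons.mp h1.nodup).1
  have hfR' : f ∉ g :: R' := (List.nodup_cons.mp h1.nodupB).1
  have hgR : g ∉ R := (List.nodup_cons.mp (List.nodup_cons.mp h1.nodup).2).1
  have hgR' : g ∉ R' := (List.nodup_cons.mp (List.nodup_cons.mp h1.nodupB).2).1
  have h2 : St (T.erase f) ρ (g :: R) (g :: R') := by
    refine ⟨(List.nodup_cons.mp h1.nodup).2, h1.perm.cons_inv, ?_, ?_⟩
    · rw [← h1.supp, List.toFinset_cons (a := f), Finset.erase_insert]
      rw [List.mem_toFinset]; exact hfR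
    · rw [← h1.rho, formPerm_cons_cons, formPerm_cons_cons]
      group
  have hfl : ∀ L : List X, (f :: L).filter (fun s => decide (ρ s ≠ s)) = L.filter (fun s => decide (ρ s ≠ s)) :=
    fun L => List.filter_cons_of_neg (by simp [hρ])
  have hRR : RRf ρ a b ↔ RRf ρ (g :: R) (g :: R') := by
    rw [RRf.walk h hw]
    constructor
    · intro hr
      have h3 := RRf.rot hr ha' hb'
      unfold RRf at h3 ⊢
      rw [hfl, hfl] at h3
      exact h3
    · intro hr
      refine RRf.rot (a := f :: g :: R) (b := f :: g :: R') ?_ ha'.symm hb'.symm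
      unfold RRf at hr ⊢
      rw [hfl, hfl]
      exact hr
  refine ⟨R, R', h2, hRR, ?_, ?_⟩
  · intro hr
    have h3 := RRf_core_walk h hw hr
    have h4 := rot_filter ha' (fun s => decide (ρ s ≠ s))
    rw [hfl] at h4
    exact h3.trans h4
  intro n1 hn1 a1 b1 hw1
  have h3 := h2.walk hw1
  have hw2 := walk_flatMap (φ := insBefore f g) (γ := insBefore f g) (by
    intro s
    by_cases hs : s = g
    · exact ⟨f, [g], [g], by simp [insBefore, hs], by simp [insBefore, hs]⟩
    · exact ⟨s, [], [], by simp [insBefore, hs], by simp [insBefore, hs]⟩) hw1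
  have e1 : (g :: R).flatMap (insBefore f g) = f :: g :: R := by
    rw [List.flatMap_cons, flatMap_insBefore_of_notMem hgR, insBefore, if_pos rfl]; rfl
  have e2 : (g :: R').flatMap (insBefore f g) = f :: g :: R' := by
    rw [List.flatMap_cons, flatMap_insBefore_of_notMem hgR', insBefore, if_pos rfl]; rfl
  rw [e1, e2] at hw2
  obtain ⟨a2, b2, hw3, ha2, hb2⟩ := walk_rot ha'.symm hb'.symm hw2
  refine ⟨n0 + n1, by nlinarith, a2, b2, hw.append hw3, ?_⟩
  have h4 : St T ρ a2 b2 := (h.walk hw).walk hw3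
  rw [formPerm_eq_of_isRotated h4.nodup ha2, formPerm_insBefore h3.nodup]
  · rw [← List.mem_toFinset, h3.supp, Finset.mem_erase]; exact ⟨hgf, hg⟩
  · rw [← List.mem_toFinset, h3.supp, Finset.mem_erase]; simp

theorem nfb4_fix {T : Finset X} {ρ : Perm X} {f : X} {K : ℕ} (hf : f ∈ T) (hρ : ρ f = f) (h2 : 2 ≤ T.card)
    (h : NFB4 (T.erase f) ρ K) : NFB4 T ρ K := by
  obtain ⟨g, hg, hgf⟩ : ∃ g ∈ T, g ≠ f := by
    obtain ⟨x, hx, y, hy, hxy⟩ := Finset.one_lt_card.mp h2
    by_cases h : x = f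
    · exact ⟨y, hy, fun h2 => hxy (h.trans h2.symm)⟩
    · exact ⟨x, hx, h⟩
  obtain ⟨m, hm⟩ : ∃ m, T.card = m + 1 := ⟨T.card - 1, by omega⟩
  obtain ⟨N, hN, hNc, hNw⟩ := h
  rw [Finset.card_erase_of_mem hf, hm, Nat.add_sub_cancel] at hNw
  refine ⟨(fun σ : Perm X => swap f g * σ) '' N, hN.image _, (Set.ncard_image_le hN).trans hNc, ?_⟩
  intro a b hst hR
  rw [hm]
  obtain ⟨R, R', h3, h4, -, h5⟩ := NF4_fix (m := m) hf hg hgf hρ a b hst
  obtain ⟨n1, hn1, a1, b1, hw1, ha1⟩ := hNw _ _ h3 (fun h => hR (h4.mpr h))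
  obtain ⟨n, hn, a', b', hw, he⟩ := h5 n1 hn1 a1 b1 hw1
  exact ⟨n, hn, a', b', hw, ⟨_, ha1, he.symm⟩⟩

theorem nfb4_four {T : Finset X} {ρ : Perm X} (hF : ∀ f ∈ T, ρ f ≠ f) {p : X} (hp : p ∈ T) (h2 : ρ (ρ p) ≠ p)
    (h3 : ρ (ρ (ρ p)) ≠ p) : NFB4 T ρ 25 := by
  by_cases hS : ∃ a b, St T ρ a b
  swap
  · exact (nfb_no hS _).to4
  obtain ⟨a0, b0, h0⟩ := hS
  have hr := h0.rho_mem hp
  have hw := h0.rho_mem hr
  have hz := h0.rho_mem hw
  have hpr : ρ p ≠ p := hF p hp
  have hrw : ρ (ρ p) ≠ ρ p := fun h => hpr (ρ.injective h)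
  have hwz : ρ (ρ (ρ p)) ≠ ρ (ρ p) := fun h => hrw (ρ.injective h)
  have hrz : ρ (ρ (ρ p)) ≠ ρ p := fun h => h2 (ρ.injective h)
  refine nfb4_nofix hF hp hz h3 hrz ?_
  refine nfb_two _ _ _ (ρ p) (ρ (ρ p)) rfl (Finset.mem_erase.mpr ⟨Ne.symm hrz, hr⟩)
    (Finset.mem_erase.mpr ⟨Ne.symm hwz, hw⟩) (Ne.symm hrw) ?_ ?_
  · rw [Perm.mul_apply, Perm.mul_apply, swap_apply_of_ne_of_ne hpr (Ne.symm hrz),
      swap_apply_of_ne_of_ne hrw (Ne.symm hwz)]
  · rw [Perm.mul_apply, Perm.mul_apply, swap_apply_of_ne_of_ne h2 (Ne.symm hwz), swap_apply_right]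

theorem nfb4_noFix {T : Finset X} {ρ : Perm X} (hF : ∀ f ∈ T, ρ f ≠ f) : NFB4 T ρ 49 := by
  by_cases hS : ∃ a b, St T ρ a b
  swap
  · exact (nfb_no hS _).to4
  obtain ⟨a0, b0, h0⟩ := hS
  by_cases h2 : ∃ u ∈ T, ρ (ρ u) = u
  · obtain ⟨u, hu, h⟩ := h2
    exact ((nfb_two _ T ρ u (ρ u) rfl hu (h0.rho_mem hu) (Ne.symm (hF u hu)) rfl h).mono (by omega)).to4
  push Not at h2
  by_cases h3 : ∃ p ∈ T, ρ (ρ (ρ p)) ≠ p
  · obtain ⟨p, hp, h⟩ := h3
    exact (nfb4_four hF hp (h2 p hp) h).mono (by omega)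
  push Not at h3
  by_cases hc : T.card ≤ 6
  · refine ((nfb_small T ρ).mono ?_).to4
    calc (T.card + 1) ^ 2 ≤ 7 ^ 2 := Nat.pow_le_pow_left (by omega) 2
      _ = 49 := by norm_num
  obtain ⟨p, z, hp, hz, hzp, hzr, h4⟩ := nfb_three' hF h3 (by omega) h0
  exact (nfb4_nofix hF hp hz hzp hzr h4).mono (by omega)

theorem nfb4_filter : ∀ (m : ℕ) (T : Finset X) (ρ : Perm X) (K : ℕ), T.card = m → 4 ≤ K →
    NFB4 (T.filter (fun t => ρ t ≠ t)) ρ K → NFB4 T ρ K := by
  intro m
  induction m with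
  | zero =>
    intro T ρ K hT hK _
    refine ((nfb_small T ρ).mono ?_).to4
    rw [hT]
    omega
  | succ m ih =>
    intro T ρ K hT hK h
    by_cases hF : ∃ f ∈ T, ρ f = f
    · obtain ⟨f, hf, hρ⟩ := hF
      by_cases hm : m = 0
      · refine ((nfb_small T ρ).mono ?_).to4
        rw [hT, hm]
        omega
      · refine nfb4_fix hf hρ (by omega) (ih _ ρ K (by rw [Finset.card_erase_of_mem hf, hT]; rfl) hK ?_)
        have e : (T.erase f).filter (fun t => ρ t ≠ t) = T.filter (fun t => ρ t ≠ t) := by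
          ext t
          simp only [Finset.mem_filter, Finset.mem_erase]
          constructor
          · rintro ⟨⟨-, h1⟩, h2⟩
            exact ⟨h1, h2⟩
          · rintro ⟨h1, h2⟩
            refine ⟨⟨?_, h1⟩, h2⟩
            rintro rfl
            exact h2 hρ
        rw [e]
        exact h
    · push Not at hF
      have e : T.filter (fun t => ρ t ≠ t) = T := Finset.filter_true_of_mem hF
      rw [e] at h
      exact h

/-- **Normal form theorem**: at most 49 forms for the states whose core is not reversed. -/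
theorem normal_form4 (m : ℕ) (T : Finset X) (ρ : Perm X) (hT : T.card = m) :
    ∃ N : Set (Perm X), N.Finite ∧ N.ncard ≤ 49 ∧
      ∀ a b, St T ρ a b → ¬ RRf ρ a b → ∃ n ≤ m * (m + 6), ∃ a' b', Walk CM n (a, b) (a', b') ∧ formPerm a' ∈ N := by
  have h := nfb4_filter T.card T ρ 49 rfl (by omega) (nfb4_noFix (fun f hf => (Finset.mem_filter.mp hf).2))
  rw [← hT]
  exact h

/-- **Normal form theorem** for reversed cores: one form for each core. -/
theorem normal_form5 : ∀ (m : ℕ) (T : Finset X) (ρ : Perm X), T.card = m →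
    ∃ F : Perm X → Perm X, ∀ a b, St T ρ a b → RRf ρ a b →
      ∃ n ≤ m * (m + 6), ∃ a' b', Walk CM n (a, b) (a', b') ∧
        formPerm a' = F (formPerm (a.filter (fun s => decide (ρ s ≠ s)))) := by
  intro m
  induction m with
  | zero =>
    intro T ρ hT
    refine ⟨fun _ => 1, fun a b h _ => ⟨0, by omega, a, b, Walk.refl _ _, ?_⟩⟩
    have h1 : a = [] := by
      have h2 := h.supp
      rw [Finset.card_eq_zero.mp hT] at h2
      exact List.toFinset_eq_empty_iff a |>.mp h2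
    rw [h1]
    rfl
  | succ m ih =>
    intro T ρ hT
    by_cases hF : ∃ f ∈ T, ρ f = f
    · obtain ⟨f, hf, hρ⟩ := hF
      by_cases hg : ∃ g ∈ T, g ≠ f
      · obtain ⟨g, hg, hgf⟩ := hg
        obtain ⟨F, hFF⟩ := ih (T.erase f) ρ (by rw [Finset.card_erase_of_mem hf, hT]; rfl)
        refine ⟨fun σ => swap f g * F σ, fun a b h hR => ?_⟩
        obtain ⟨R, R', h3, h4, h6, h5⟩ := NF4_fix (m := m) hf hg hgf hρ a b h
        obtain ⟨n1, hn1, a1, b1, hw1, ha1⟩ := hFF _ _ h3 (h4.mp hR)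
        obtain ⟨n, hn, a', b', hw, he⟩ := h5 n1 hn1 a1 b1 hw1
        refine ⟨n, hn, a', b', hw, ?_⟩
        rw [he, ha1, formPerm_eq_of_isRotated (h.nodup.filter _) (h6 hR)]
      · push Not at hg
        refine ⟨fun _ => 1, fun a b h _ => ⟨0, by omega, a, b, Walk.refl _ _, ?_⟩⟩
        ext s
        by_cases hs : s ∈ a
        · have h1 : formPerm a s ∈ T := by
            rw [← h.supp, List.mem_toFinset]; exact formPerm_apply_mem_of_mem hs
          have h2 : s ∈ T := by rw [← h.supp, List.mem_toFinset]; exact hs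
          rw [hg _ h1, hg _ h2]; rfl
        · rw [formPerm_apply_of_notMem hs]; rfl
    · push Not at hF
      refine ⟨fun σ => σ, fun a b h _ => ⟨0, by omega, a, b, Walk.refl _ _, ?_⟩⟩
      rw [filter_id hF (fun t ht => h.memA ht)]

end Pool.Agent.helper36.WE
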