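import Pool.Agent.helper51.NF2.Core
import Pool.Agent.helper36.WE.SegBound

/-! Short paths inside segments: a quadratic number of super moves. -/

namespace Pool.Agent.helper51.UG

set_option linter.unusedSectionVars false

open Equiv Equiv.Perm List Pool.Agent.helper36.WE Pool.Agent.helper32.ATT Relation

section

variable {X : Type} [DecidableEq X]

theorem walk_reach {α : Type*} {r : α → α → Prop} {n : ℕ} {a b : α} (h : Walk r n a b) : ReflTransGen r a b := by
  obtain ⟨f, f0, fn, hf⟩ := h
  have key : ∀ i ≤ n, ReflTransGen r a (f i) := by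
    intro i
    induction i with
    | zero => intro _; rw [f0]
    | succ i ih => intro hi; exact (ih (by omega)).tail (hf i (by omega))
  have := key n le_rfl
  rwa [fn] at this

theorem reach_symm {s t : List X × List X} (h : ReflTransGen Sup s t) : ReflTransGen Sup t s := by
  induction h with
  | refl => exact ReflTransGen.refl
  | tail _ hbc ih => exact (ReflTransGen.single hbc.symm).trans ih

/-- connected standard states with reversed cores have the same core. -/
theorem std_core {D : Finset X} {e q : X} {ρ : Perm X} {A B A' B' : List X} (h : Cls D e q ρ (e :: A) (B ++ [e]))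
    (hs : ReflTransGen Sup (e :: A, B ++ [e]) (e :: A', B' ++ [e])) (hR : RRf (ρ * Equiv.swap e q) A B) :
    A.filter (fun t => decide ((ρ * Equiv.swap e q) t ≠ t)) ~r
      A'.filter (fun t => decide ((ρ * Equiv.swap e q) t ≠ t)) := by
  obtain ⟨hst, -⟩ := h.st
  have h' : Cls D e q ρ (e :: A') (B' ++ [e]) := h.reach (s := (e :: A, B ++ [e])) hs
  obtain ⟨hst', -⟩ := h'.st
  by_cases hT : ∃ z, z ∈ D.erase e
  · obtain ⟨z, hz⟩ := hT
    obtain ⟨z', hz', -, hw⟩ := Sup_us_reach (s := (e :: A, B ++ [e])) h hs hz (Or.inl rfl)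
    unfold Up at hw
    obtain ⟨k1, k2, -, -⟩ := sg_e h
    obtain ⟨k3, k4, -, -⟩ := sg_e h'
    simp only at hw
    rw [k2, k1, k4, k3] at hw
    refine core_rigid _ (D.erase e) rfl A B A' B' z z' hst.nodup hst.nodupB hst'.nodup hst'.nodupB hst.supp ?_
      hst'.supp ?_ hz hw _ ?_ hR
    · rw [← hst.supp]; exact (List.toFinset_eq_of_perm _ _ hst.perm).symm
    · rw [← hst'.supp]; exact (List.toFinset_eq_of_perm _ _ hst'.perm).symm
    · intro t _
      rw [decide_eq_false_iff_not, not_not, ← hst.rho, Perm.mul_apply, Perm.inv_eq_iff_eq]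
  · have h1 : D.erase e = ∅ := by
      rw [Finset.eq_empty_iff_forall_notMem]
      intro z hz
      exact hT ⟨z, hz⟩
    have h2 : A = [] := (List.toFinset_eq_empty_iff A).mp (hst.supp.trans h1)
    have h3 : A' = [] := (List.toFinset_eq_empty_iff A').mp (hst'.supp.trans h1)
    rw [h2, h3]

/-- The distance of two connected pairs of words. -/
theorem cls_bound3 {D : Finset X} {e q : X} {ρ : Perm X} {s t : List X × List X}
    (h : Cls D e q ρ s.1 s.2) (ht : Relation.ReflTransGen Sup s t) :
    ∃ n ≤ 2750 * D.card ^ 2, Walk Sup n s t := by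
  set T := D.erase e with hT
  set ρ' := ρ * Equiv.swap e q with hρ'
  obtain ⟨N4, hN4, hNc4, hNw4⟩ := normal_form4 T.card T ρ' rfl
  obtain ⟨F, hF⟩ := normal_form5 T.card T ρ' rfl
  let N5 : Set (Perm X) := {σ | ∃ A0 B0, ReflTransGen Sup s (e :: A0, B0 ++ [e]) ∧ RRf ρ' A0 B0 ∧
    σ = F (formPerm (A0.filter (fun t => decide (ρ' t ≠ t))))}
  have hsub : N5.Subsingleton := by
    rintro σ ⟨A0, B0, h1, h2, rfl⟩ σ' ⟨A1, B1, h3, h4, rfl⟩
    have h5 : ReflTransGen Sup (e :: A0, B0 ++ [e]) (e :: A1, B1 ++ [e]) :=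
      (reach_symm h1).trans h3
    have h6 : Cls D e q ρ (e :: A0) (B0 ++ [e]) := h.reach h1
    have h7 := std_core h6 h5 h2
    rw [formPerm_eq_of_isRotated (h6.st.1.nodup.filter _) h7]
  let N : Set (Perm X) := N4 ∪ N5
  have hN : N.Finite := hN4.union hsub.finite
  have hNc : N.ncard ≤ 50 := (Set.ncard_union_le _ _).trans (by
    have h1 : N5.ncard ≤ 1 := by
      rcases hsub.eq_empty_or_singleton with h1 | ⟨x, h1⟩
      · rw [h1]; simp
      · rw [h1]; simp
    omega)
  have hNw : ∀ a b, ReflTransGen Sup s (e :: a, b ++ [e]) → St T ρ' a b → ∃ n ≤ T.card * (T.card + 6),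
      ∃ a' b', Walk CM n (a, b) (a', b') ∧ formPerm a' ∈ N := by
    intro a b hr hst
    by_cases hR : RRf ρ' a b
    · obtain ⟨n, hn, a', b', hw, h1⟩ := hF a b hst hR
      exact ⟨n, hn, a', b', hw, Or.inr ⟨a, b, hr, hR, h1⟩⟩
    · obtain ⟨n, hn, a', b', hw, h1⟩ := hNw4 a b hst hR
      exact ⟨n, hn, a', b', hw, Or.inl h1⟩
  have heD : e ∈ D := by
    rw [← h.supp, List.mem_toFinset]
    exact h.perm.symm.subset (List.mem_of_getLast? h.lastB)
  have hTD : D.card = T.card + 1 := by
    rw [hT, Finset.card_erase_of_mem heD]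
    have := Finset.card_pos.mpr ⟨e, heD⟩
    omega
  let Q : List X × List X → Perm X → Prop := fun v σ =>
    ∃ A B, v = (e :: A, B ++ [e]) ∧ St T ρ' A B ∧
      ((A = [] ∧ B = []) ∨ (A.getLast? = some q ∧ B.getLast? = some q)) ∧ σ = formPerm A
  let H : Set (List X × List X) := {v | ∃ σ ∈ N, Q v σ}
  obtain ⟨hH, hHc⟩ := ncard_le_of_rel H N hN Q (fun v hv => hv) (by
    rintro v v' σ ⟨A, B, rfl, h1, h2, h3⟩ ⟨A', B', rfl, h1', h2', h3'⟩
    have hTe : ∀ (l : List X), l.toFinset = T → l = [] → T = ∅ := by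
      rintro l h rfl; rw [← h]; rfl
    have hnil : ∀ (l : List X), l.toFinset = T → T = ∅ → l = [] := by
      intro l h h'
      exact (List.toFinset_eq_empty_iff l).mp (h.trans h')
    have hTB : ∀ {A B}, St T ρ' A B → B.toFinset = T := by
      intro A B h
      rw [← h.supp]; exact (List.toFinset_eq_of_perm _ _ h.perm).symm
    rcases h2 with ⟨rfl, rfl⟩ | ⟨h4, h5⟩
    · have h6 := hTe _ h1.supp rfl
      rw [hnil A' h1'.supp h6, hnil B' (hTB h1') h6]
    · have hA' : A'.getLast? = some q := by
        rcases h2' with ⟨h6, -⟩ | ⟨h6, -⟩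
        · have := hnil A h1.supp (hTe A' h1'.supp h6)
          rw [this] at h4
          simp at h4
        · exact h6
      have hB' : B'.getLast? = some q := by
        rcases h2' with ⟨h6, -⟩ | ⟨-, h6⟩
        · have := hnil A h1.supp (hTe A' h1'.supp h6)
          rw [this] at h4
          simp at h4
        · exact h6
      have hAA : A = A' := eq_of_formPerm (h3.symm.trans h3') h1.nodup h1'.nodup h4 hA'
      have hBB : B = B' := by
        refine eq_of_formPerm ?_ h1.nodupB h1'.nodupB h5 hB'
        have e1 := h1.rho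
        rw [← h1'.rho, hAA] at e1
        exact inv_injective (mul_right_cancel e1)
      rw [hAA, hBB])
  have hreachHub : ∀ v, Relation.ReflTransGen Sup s v →
      ∃ h ∈ H, ∃ n ≤ 5 * T.card ^ 2 + 32 * T.card + 3, Walk Sup n v h := by
    intro v hv
    have hc := h.reach hv
    obtain ⟨a, b⟩ := v
    simp only at hc
    cases a with
    | nil => have := hc.lastA; simp at this
    | cons x A =>
        have hx : x ∈ b := hc.perm.subset (by simp)
        obtain ⟨V, b3, rfl⟩ := List.append_of_mem hx
        have hlen : b3.length ≤ T.card + 1 := by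
          have h1 := List.toFinset_card_of_nodup hc.nodup
          have h2 := hc.perm.length_eq
          rw [hc.supp, hTD] at h1
          simp only [List.length_append, List.length_cons] at h1 h2
          omega
        obtain ⟨n1, hn1, A', B', hw1⟩ := standardize (T.card + 1) x A V b3 hc hlen
        have hc' := hc.walk (s := (x :: A, V ++ x :: b3)) hw1
        simp only at hc'
        obtain ⟨hst, hcase⟩ := hc'.st
        obtain ⟨n2, hn2, a2, b2, hw2, hfin⟩ := hNw _ _ (hv.trans (walk_reach hw1)) hst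
        have hst2 := hst.walk hw2
        rcases hcase with ⟨rfl, rfl⟩ | ⟨hqA, hqB⟩
        · -- no letters
          have hTe : T = ∅ := by rw [hT, ← hst.supp]; rfl
          have ha2 : a2 = [] := (List.toFinset_eq_empty_iff a2).mp (hst2.supp.trans hTe)
          rw [ha2] at hfin
          refine ⟨([e], [] ++ [e]), ⟨_, hfin, [], [], rfl, hst, Or.inl ⟨rfl, rfl⟩, rfl⟩, n1, ?_,
            hw1⟩
          nlinarith
        · have hqa2 : q ∈ a2 := by
            rw [← List.mem_toFinset, hst2.supp, ← hst.supp, List.mem_toFinset]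
            exact List.mem_of_getLast? hqA
          have hqb2 : q ∈ b2 := hst2.perm.subset hqa2
          obtain ⟨a3, ha3⟩ := exists_rot_last hqa2
          obtain ⟨b3', hb3⟩ := exists_rot_last hqb2
          have hw3 := lift_walk (e := e) n2 hw2 hst.nodup hqA ha3 hb3 List.getLast?_concat
          have hst3 : St T ρ' (a3 ++ [q]) (b3' ++ [q]) := hst2.rot ha3.symm hb3.symm
          refine ⟨(e :: (a3 ++ [q]), (b3' ++ [q]) ++ [e]), ⟨_, hfin, a3 ++ [q], b3' ++ [q], rfl,
            hst3, Or.inr ⟨List.getLast?_concat, List.getLast?_concat⟩, ?_⟩, n1 + (5 * n2 + 1), ?_,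
            hw1.append hw3⟩
          · exact (formPerm_eq_of_isRotated hst3.nodup ha3).symm
          · nlinarith
  obtain ⟨n, hn, hw⟩ := hub_walk (fun a b h => Sup.symm h) H hH 50 _
    (hHc.trans hNc) s hreachHub ht
  refine ⟨n, hn.trans ?_, hw⟩
  rw [hTD]
  have e1 : 2 * (5 * T.card ^ 2 + 32 * T.card + 3) + 1 ≤ 55 * (T.card + 1) ^ 2 := by nlinarith
  calc 50 * (2 * (5 * T.card ^ 2 + 32 * T.card + 3) + 1)
      ≤ 50 * (55 * (T.card + 1) ^ 2) := Nat.mul_le_mul_left _ e1
    _ = 2750 * (T.card + 1) ^ 2 := by ring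

/-- **Theorem.** Two connected pairs of duplicate free words of length `d` on the same letters
are joined by at most `2750 d^2` super moves. -/
theorem sup_bound3 {a b : List X} (hn : a.Nodup) (hp : a.Perm b) {s' : List X × List X}
    (h : Relation.ReflTransGen Sup (a, b) s') : ∃ n ≤ 2750 * a.length ^ 2, Walk Sup n (a, b) s' := by
  classical
  by_cases ha : a = []
  · subst ha
    have hb : b = [] := List.nil_perm.mp hp
    subst hb
    have h1 : s' = ([], []) := by
      rcases Relation.ReflTransGen.cases_head h with h | ⟨c, h, -⟩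
      · exact h.symm
      · exfalso
        rcases h with ⟨x, A, c1, c2, c3, h1, -⟩ | ⟨x, A, c1, c2, c3, h1, -⟩
        · simp at h1
        · simp at h1
    rw [h1]
    exact ⟨0, by simp, Walk.refl _ _⟩
  have hlen : 0 < a.length := List.length_pos_iff.mpr ha
  have hex : ∃ k, 0 < k ∧ k ≤ a.length ∧ (a.take k).Perm (b.take k) := by
    refine ⟨a.length, hlen, le_rfl, ?_⟩
    rw [List.take_length, hp.length_eq, List.take_length]
    exact hp
  set k := Nat.find hex with hk
  obtain ⟨hk0, hka, hkp⟩ := Nat.find_spec hex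
  rw [← hk] at hk0 hka hkp
  have hmin : ∀ j, 0 < j → j < k → ¬ (a.take j).Perm (b.take j) := by
    intro j hj hjk hjp
    exact Nat.find_min hex hjk ⟨hj, by omega, hjp⟩
  set a0 := a.take k with ha0
  set a1 := a.drop k with ha1
  set b0 := b.take k with hb0
  set b1 := b.drop k with hb1
  have ea : a = a0 ++ a1 := (List.take_append_drop _ _).symm
  have eb : b = b0 ++ b1 := (List.take_append_drop _ _).symm
  have hla0 : a0.length = k := by rw [ha0, List.length_take]; omega
  have ha0ne : a0 ≠ [] := by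
    intro h'
    rw [h'] at hla0
    simp at hla0
    omega
  have hb0ne : b0 ≠ [] := by
    intro h'
    rw [h'] at hkp
    exact ha0ne (List.perm_nil.mp hkp)
  obtain ⟨q, hq⟩ : ∃ q, a0.getLast? = some q := by
    rw [List.getLast?_eq_getLast_of_ne_nil ha0ne]; exact ⟨_, rfl⟩
  obtain ⟨e, he⟩ : ∃ e, b0.getLast? = some e := by
    rw [List.getLast?_eq_getLast_of_ne_nil hb0ne]; exact ⟨_, rfl⟩
  have hnb : b.Nodup := hp.nodup_iff.mp hn
  have hn0 : a0.Nodup := by
    rw [ea] at hn
    exact (List.nodup_append.mp hn).1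
  have hcls : Cls a0.toFinset e q (rho a0 b0) (a0, b0).1 (a0, b0).2 := by
    refine ⟨hn0, hkp, rfl, he, hq, ?_, rfl⟩
    intro j hj hja hjp
    simp only at hja hjp
    rw [hla0] at hja
    apply hmin j hj hja
    rw [ha0, hb0, List.take_take, List.take_take, min_eq_left hja.le] at hjp
    exact hjp
  -- moves stay in the prefix
  have hreach : ∃ a0' b0', s' = (a0' ++ a1, b0' ++ b1) ∧
      Relation.ReflTransGen Sup (a0, b0) (a0', b0') ∧ a0'.Perm b0' ∧ a0' ≠ [] ∧
      (a0' ++ a1).Nodup ∧ (b0' ++ b1).Nodup := by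
    rw [ea, eb] at h
    induction h with
    | refl =>
        exact ⟨a0, b0, rfl, Relation.ReflTransGen.refl, hkp, ha0ne, by rw [← ea]; exact hn,
          by rw [← eb]; exact hnb⟩
    | tail _ hbc ih =>
        obtain ⟨a0', b0', rfl, h1, h2, h3, h4, h5⟩ := ih
        obtain ⟨a2, b2, h6, h7, h8, h9⟩ := sup_prefix h4 h5 h2 h3 hbc
        have h10 := sup_perm hbc
        subst h6
        simp only at h10
        exact ⟨a2, b2, rfl, h1.tail h9, h7, h8, h10.1.nodup_iff.mp h4, h10.2.nodup_iff.mp h5⟩
  obtain ⟨a0', b0', rfl, h1, -⟩ := hreach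
  obtain ⟨n, hn', f, f0, fn, hf⟩ := cls_bound3 hcls h1
  refine ⟨n, ?_, fun i => ((f i).1 ++ a1, (f i).2 ++ b1), ?_, ?_, ?_⟩
  · refine hn'.trans ?_
    rw [List.toFinset_card_of_nodup hn0, hla0]
    exact Nat.mul_le_mul_left _ (Nat.pow_le_pow_left hka 2)
  · simp only [f0]
    rw [← ea, ← eb]
  · simp only [fn]
  · intro i hi
    exact sup_append (hf i hi)

end

variable {X A : Type} [DecidableEq X] [DecidableEq A]

attribute [local instance] lawfulBEq_sum

/-- Inside a segment there are short paths. -/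
lemma seg_bound_left3 {D : Finset X} {s s1 t : Eqn X A} (hstep : DStepL D s s1)
    (hc : ∀ x ∈ D, s.1.count (Sum.inl x) = 1 ∧ s.2.count (Sum.inl x) = 1)
    (h : Relation.ReflTransGen (DStep D) s t) :
    ∃ n ≤ size s * (2750 * D.card ^ 2 + 2), Walk Step n s t := by
  rcases seg_init hstep hc with ⟨x, U, b, V, rfl, hx, hb0, hb, hU, hV⟩ |
    ⟨TL, TR, p, c, hTL, hTR, hp, hseg⟩
  · obtain ⟨c, hcb, rfl⟩ := special_reach D x U b V hb0 hb hU hV t h
    obtain ⟨u, v, rfl, rfl⟩ := exists_split_of_rot hcb.symm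
    have hux : Sum.inl x ∉ u := notMem_of_tok (fun t ht => hb t (by simp [ht])) hx
    have hvx : Sum.inl x ∉ v := notMem_of_tok (fun t ht => hb t (by simp [ht])) hx
    have h1 := walk_rotate x U hU u (v ++ Sum.inl x :: V) hux
    have h2 : ins u x (v ++ Sum.inl x :: V) = (v ++ u) ++ Sum.inl x :: V := by
      rw [ins_append, ins_of_notMem _ _ hvx, ins_cons, if_pos rfl, ins_of_notMem _ _ hV]
      simp
    rw [h2, ← List.append_assoc] at h1
    refine ⟨u.length, ?_, h1⟩
    simp only [size, List.length_append]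
    nlinarith [Nat.zero_le (D.card ^ 2)]
  · -- the position of `t`
    have ht : ∃ p' c', Seg TL TR t p' c' ∧ PairD D p' ∧ Relation.ReflTransGen Sup p p' := by
      induction h with
      | refl => exact ⟨p, c, hseg, hp, Relation.ReflTransGen.refl⟩
      | tail _ hbc ih =>
          obtain ⟨p', c', h1, h2, h3⟩ := ih
          obtain ⟨p'', c'', h4, h5, h6⟩ := seg_step hTL hTR h2 h1 hbc
          exact ⟨p'', c'', h4, h5, h3.trans h6⟩
    obtain ⟨p', c', hseg', hp', hpp'⟩ := ht
    have hcD : PairD D c := by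
      rcases hseg.sup with h1 | h1
      · rw [h1]; exact hp
      · exact hp.sup h1
    have hcp' : Relation.ReflTransGen Sup c p' := by
      rcases hseg.sup with h1 | h1
      · rw [h1]; exact hpp'
      · exact hpp'.head h1.symm
    have hs1 : size (real TL TR p) = size s := hseg.size.symm
    have hsc : size (real TL TR c) = size s := by
      rcases hseg.sup with h1 | h1
      · rw [h1]; exact hs1
      · rw [real_size h1]; exact hs1
    have hsp' : size (real TL TR p') = size s := by
      have : ∀ q, Relation.ReflTransGen Sup p q → size (real TL TR q) = size (real TL TR p) := by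
        intro q hq
        induction hq with
        | refl => rfl
        | tail _ hbc ih => rw [real_size hbc, ih]
      rw [this p' hpp', hs1]
    obtain ⟨n1, hn1, w1⟩ := hseg.into hTL hTR hp
    obtain ⟨n3, hn3, w3⟩ := hseg'.out hTL hTR hp'
    have hpermc : c.1.Perm c.2 :=
      (List.perm_ext_iff_of_nodup hcD.nodupA hcD.nodupB).mpr
        (fun x => (hcD.suppA x).trans (hcD.suppB x).symm)
    obtain ⟨n2, hn2, w2⟩ := sup_bound3 (a := c.1) (b := c.2) hcD.nodupA hpermc hcp'
    obtain ⟨n2', hn2', w2'⟩ := real_walk hTL hTR n2 hcD w2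
    have hlen : c.1.length = D.card := by
      rw [← List.toFinset_card_of_nodup hcD.nodupA]
      congr 1
      ext x
      rw [List.mem_toFinset]
      exact hcD.suppA x
    rw [hlen] at hn2
    rw [hsc] at hn2'
    rw [hseg'.size, hsp'] at hn3
    refine ⟨n1 + n2' + n3, ?_, (w1.append w2').append w3⟩
    have h5 : n2 * size s ≤ 2750 * D.card ^ 2 * size s := Nat.mul_le_mul_right _ hn2
    have h6 : size s * (2750 * D.card ^ 2 + 2) = 2750 * D.card ^ 2 * size s + 2 * size s := by ring
    omega

theorem seg_bound3 {D : Finset X} {s t : Eqn X A}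
    (hc : ∀ x ∈ D, s.1.count (Sum.inl x) = 1 ∧ s.2.count (Sum.inl x) = 1)
    (h : Relation.ReflTransGen (DStep D) s t) :
    ∃ n ≤ size s * (2750 * D.card ^ 2 + 2), Walk Step n s t := by
  rcases Relation.ReflTransGen.cases_head h with h0 | ⟨s1, h1, -⟩
  · subst h0
    exact ⟨0, Nat.zero_le _, Walk.refl _ _⟩
  · rcases h1 with h1 | h1
    · exact seg_bound_left3 h1 hc h
    · obtain ⟨n, hn, hw⟩ := seg_bound_left3 h1 (fun x hx => ⟨(hc x hx).2, (hc x hx).1⟩)
        (reach_swap h)
      rw [size_swap] at hn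
      refine ⟨n, hn, ?_⟩
      have := walk_swap hw
      simpa using this

end Pool.Agent.helper51.UG
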