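import Pool.Agent.helper51.NF2.SU

/-! Connected standard states with reversed cores have the same core. -/

namespace Pool.Agent.helper51.UG

set_option linter.unusedSectionVars false

open Equiv Equiv.Perm List Pool.Agent.helper36.WE Pool.Agent.helper32.ATT Relation

variable {X : Type} [DecidableEq X]

theorem del_reach {T : Finset X} {f : X} (hf : f ∈ T) {v v' : Perm X × Perm X × X} (hs : ReflTransGen (US T) v v')
    (hv : UT T v) {w : Perm X × Perm X × X} (hw : Del T f v w) :
    ∃ w', Del T f v' w' ∧ ReflTransGen (US (T.erase f)) w w' := by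
  have key : UT T v' ∧ ∃ w', Del T f v' w' ∧ ReflTransGen (US (T.erase f)) w w' := by
    induction hs with
    | refl => exact ⟨hv, w, hw, ReflTransGen.refl⟩
    | tail _ hbc ih =>
      obtain ⟨h1, w1, h2, h3⟩ := ih
      obtain ⟨w2, h4, h5⟩ := hbc.del hf h1 h2
      exact ⟨hbc.ut h1, w2, h4, h3.trans h5⟩
  exact key.2

theorem del_fp {L : List X} (hn : L.Nodup) {f : X} (hf : f ∈ L) :
    Equiv.swap f (formPerm L f) * formPerm L = formPerm (L.filter (fun s => decide (s ≠ f))) := by
  have h1 := (cyc_self hn).del f
  ext t
  by_cases ht : t ∈ L.filter (fun s => decide (s ≠ f))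
  · exact h1.2 t ht
  · rw [formPerm_apply_of_notMem ht, Perm.mul_apply]
    by_cases htf : t = f
    · rw [htf, swap_apply_right]
    · have htL : t ∉ L := by
        intro h'
        exact ht (List.mem_filter.mpr ⟨h', decide_eq_true htf⟩)
      rw [formPerm_apply_of_notMem htL, swap_apply_of_ne_of_ne htf]
      intro h'
      apply htL
      rw [h']
      exact formPerm_apply_mem_of_mem hf

theorem rot_of_fp {L L' : List X} (hn : L.Nodup) (hn' : L'.Nodup) (h : formPerm L = formPerm L') {t : X} (ht : t ∈ L)
    (ht' : t ∈ L') : L ~r L' := by
  have h1 := cyc_self hn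
  rw [h] at h1
  exact h1.rot_of_mem (cyc_self hn') ht ht'

theorem filter_all {T : Finset X} {P : X → Bool} (hP : ∀ t ∈ T, P t = true) {L : List X} (hL : L.toFinset = T) :
    L.filter P = L := by
  rw [List.filter_eq_self]
  intro t ht
  exact hP t (by rw [← hL, List.mem_toFinset]; exact ht)

/-- **The core is rigid.** -/
theorem core_rigid : ∀ (m : ℕ) (T : Finset X), T.card = m → ∀ (A B A' B' : List X) (z z' : X), A.Nodup → B.Nodup →
    A'.Nodup → B'.Nodup → A.toFinset = T → B.toFinset = T → A'.toFinset = T → B'.toFinset = T → z ∈ T →
    ReflTransGen (US T) (formPerm A, formPerm B, z) (formPerm A', formPerm B', z') →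
    ∀ P : X → Bool, (∀ t ∈ T, P t = false ↔ formPerm A t = formPerm B t) →
    (B.filter P) ~r (A.filter P).reverse → (A.filter P) ~r (A'.filter P) := by
  intro m
  induction m with
  | zero =>
    intro T hT A B A' B' z z' _ _ _ _ hA _ hA' _ hz
    rw [Finset.card_eq_zero] at hT
    rw [hT] at hz
    simp at hz
  | succ m ih =>
    intro T hT A B A' B' z z' nA nB nA' nB' hA hB hA' hB' hz hs P hP hR
    have mA : ∀ {t}, t ∈ T → t ∈ A := fun ht => by rw [← List.mem_toFinset, hA]; exact ht
    have mB : ∀ {t}, t ∈ T → t ∈ B := fun ht => by rw [← List.mem_toFinset, hB]; exact ht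
    have mA' : ∀ {t}, t ∈ T → t ∈ A' := fun ht => by rw [← List.mem_toFinset, hA']; exact ht
    have mB' : ∀ {t}, t ∈ T → t ∈ B' := fun ht => by rw [← List.mem_toFinset, hB']; exact ht
    have hUT : UT T (formPerm A, formPerm B, z) := by
      refine ⟨hz, fun t ht => ?_⟩
      show formPerm A t ∈ T
      rw [← hA, List.mem_toFinset]
      exact formPerm_apply_mem_of_mem (mA ht)
    by_cases hF : ∃ f ∈ T, P f = false
    · obtain ⟨f, hf, hPf⟩ := hF
      have hfe := (hP f hf).mp hPf
      by_cases hm : m = 0
      · -- one letter
        have h1 : ∀ L : List X, L.toFinset = T → L.filter P = [] := by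
          intro L hL
          rw [List.filter_eq_nil_iff]
          intro t ht
          have h2 : t ∈ T := by rw [← hL, List.mem_toFinset]; exact ht
          rw [hm] at hT
          obtain ⟨u, hu⟩ := Finset.card_eq_one.mp hT
          rw [hu, Finset.mem_singleton] at h2 hf
          rw [h2, ← hf, hPf]
          simp
        rw [h1 A hA, h1 A' hA']
      · have hfA : formPerm A f ≠ f := by
          intro h'
          obtain ⟨M, hM⟩ := exists_rot_cons (mA hf)
          have h1 := (cyc_self nA).rot hM
          cases M with
          | nil =>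
            have h2 := hM.perm.length_eq
            have h3 := List.toFinset_card_of_nodup nA
            rw [hA, hT] at h3
            simp at h2
            omega
          | cons g M =>
            have h2 := h1.head
            rw [h'] at h2
            have h3 := h1.1
            rw [← h2] at h3
            simp at h3
        have hgT : formPerm A f ∈ T := hUT.2 f hf
        have hgE : formPerm A f ∈ T.erase f := Finset.mem_erase.mpr ⟨hfA, hgT⟩
        set z1 := (if z = f then formPerm A f else z) with hz1
        have hz1E : z1 ∈ T.erase f := by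
          rw [hz1]
          by_cases hzf : z = f
          · rw [if_pos hzf]; exact hgE
          · rw [if_neg hzf]; exact Finset.mem_erase.mpr ⟨hzf, hz⟩
        have hDel : Del T f (formPerm A, formPerm B, z)
            (Equiv.swap f (formPerm A f) * formPerm A, Equiv.swap f (formPerm A f) * formPerm B, z1) :=
          ⟨hfe, rfl, rfl, hz1E, Or.inl rfl⟩
        obtain ⟨⟨w1, w2, w3⟩, ⟨g1, g2, g3, g4, -⟩, h3⟩ := del_reach hf hs hUT hDel
        simp only at g1 g2 g3 g4
        rw [del_fp nA (mA hf), hfe, del_fp nB (mB hf), g2, g3, del_fp nA' (mA' hf), g1, del_fp nB' (mB' hf)] at h3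
        have hfil : ∀ L : List X, L.toFinset = T → (L.filter (fun s => decide (s ≠ f))).toFinset = T.erase f := by
          intro L hL
          ext t
          rw [List.mem_toFinset, List.mem_filter, Finset.mem_erase, ← hL, List.mem_toFinset, decide_eq_true_iff]
          exact and_comm
        have hff : ∀ L : List X, (L.filter (fun s => decide (s ≠ f))).filter P = L.filter P := by
          intro L
          rw [List.filter_filter]
          apply List.filter_congr
          intro t _
          by_cases htf : t = f
          · rw [htf, hPf]; simp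
          · simp [htf]
        have h5 := ih (T.erase f) (by rw [Finset.card_erase_of_mem hf, hT]; rfl) _ _ _ _ z1 w3 (nA.filter _)
          (nB.filter _) (nA'.filter _) (nB'.filter _) (hfil A hA) (hfil B hB) (hfil A' hA') (hfil B' hB') hz1E h3 P
          (by
            intro t ht
            rw [hP t (Finset.mem_erase.mp ht).2, ← del_fp nA (mA hf), ← del_fp nB (mB hf), hfe, Perm.mul_apply,
              Perm.mul_apply]
            exact (Equiv.injective _).eq_iff.symm) (by rw [hff, hff]; exact hR)
        rw [hff, hff] at h5
        exact h5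
    · have hF' : ∀ t ∈ T, P t = true := by
        intro t ht
        by_contra h'
        exact hF ⟨t, ht, by simpa using h'⟩
      rw [filter_all hF' hA, filter_all hF' hB] at hR
      rw [filter_all hF' hA, filter_all hF' hA']
      have h1 : formPerm B = (formPerm A)⁻¹ := by
        rw [formPerm_eq_of_isRotated nB hR, formPerm_reverse]
      rw [h1] at hs
      have h2 := rigid ⟨A, hA, cyc_self nA⟩ hz hs ⟨A', hA', cyc_self nA'⟩
      exact (rot_of_fp nA' nA h2 (mA' hz) (mA hz)).symm

end Pool.Agent.helper51.UG
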