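import Pool.Agent.helper36.WE.NF

/-! Fewer normal forms: statements of the permutation part. -/

namespace Pool.Agent.helper36.WE

open Equiv Equiv.Perm List

universe u

/-- there are `k` non trivial cycles of `ρ` with an element in `T`. -/
def CC {X : Type} (T : Finset X) (ρ : Perm X) (k : ℕ) : Prop :=
  ∃ L : List X, L.length = k ∧ (∀ t ∈ L, t ∈ T ∧ ρ t ≠ t) ∧ L.Pairwise (fun s t => ¬ ρ.SameCycle s t)

def CC_rev_stmt : Prop := ∀ (X : Type) [DecidableEq X] (T : Finset X) (ρ : Perm X), CC T ρ 3 → RevSet T ρ = ∅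

def CC_choice_stmt : Prop := ∀ (X : Type) [DecidableEq X] (T : Finset X) (ρ : Perm X), 21 ≤ T.card →
  (∀ t ∈ T, ρ t ∈ T) → (∀ t ∈ T, ρ t ≠ t) → ∃ p ∈ T, ∃ z ∈ T, z ≠ p ∧ z ≠ ρ p ∧
    (∀ k ≤ 2, CC T ρ k → CC (T.erase z) (swap (ρ p) z * ρ * swap p z) (k + 1)) ∧
    (CC T ρ 3 → CC (T.erase z) (swap (ρ p) z * ρ * swap p z) 3)

end Pool.Agent.helper36.WE
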