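import Pool.Agent.helper51.NF2.Defs

/-! The normal form theorem with `486 (m + 1)` forms. -/

namespace Pool.Agent.helper36.WE

set_option linter.unusedSectionVars false
set_option linter.unusedVariables false

open Equiv Equiv.Perm List

variable {X : Type} [DecidableEq X]

/-- the step of the induction, with a fixed point. -/
theorem NF2_fix {m : ℕ} {T : Finset X} {ρ : Perm X} {f g : X} (hf : f ∈ T) (hg : g ∈ T) (hgf : g ≠ f)
    (hρ : ρ f = f) {N : Set (Perm X)}
    (hNw : ∀ a b, St (T.erase f) ρ a b → ∃ n ≤ m * (m + 6), ∃ a' b', Walk CM n (a, b) (a', b') ∧ formPerm a' ∈ N)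
    (a b : List X) (h : St T ρ a b) :
    ∃ n ≤ (m + 1) * (m + 1 + 6), ∃ a' b', Walk CM n (a, b) (a', b') ∧
      formPerm a' ∈ (fun σ : Perm X => swap f g * σ) '' N := by
  obtain ⟨n0, hn0, a', b', R, R', hw, ha', hb'⟩ := place_before h hf hg hgf.symm hρ
  have h1 : St T ρ (f :: g :: R) (f :: g :: R') := (h.walk hw).rot ha' hb'
  have hfR : f ∉ g :: R := (List.nodup_cons.mp h1.nodup).1
  have hfR' : f ∉ g :: R' := (List.nodup_cons.mp h1.nodupB).1
  have hgR : g ∉ R := (List.nodup_cons.mp (List.nodup_cons.mp h1.nodup).2).1
  have hgR' : g ∉ R' := (List.nodup_cons.mp (List.nodup_cons.mp h1.nodupB).2).1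
  have h2 : St (T.erase f) ρ (g :: R) (g :: R') := by
    refine ⟨(List.nodup_cons.mp h1.nodup).2, h1.perm.cons_inv, ?_, ?_⟩
    · rw [← h1.supp, List.toFinset_cons (a := f), Finset.erase_insert]
      rw [List.mem_toFinset]; exact hfR
    · rw [← h1.rho, formPerm_cons_cons, formPerm_cons_cons]
      group
  obtain ⟨n, hn, a1, b1, hw1, ha1⟩ := hNw _ _ h2
  have h3 := h2.walk hw1
  have hw2 := walk_flatMap (φ := insBefore f g) (γ := insBefore f g) (by
    intro s
    by_cases hs : s = g
    · exact ⟨f, [g], [g], by simp [insBefore, hs], by simp [insBefore, hs]⟩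
    · exact ⟨s, [], [], by simp [insBefore, hs], by simp [insBefore, hs]⟩) hw1
  have e1 : (g :: R).flatMap (insBefore f g) = f :: g :: R := by
    rw [List.flatMap_cons, flatMap_insBefore_of_notMem hgR, insBefore, if_pos rfl]; rfl
  have e2 : (g :: R').flatMap (insBefore f g) = f :: g :: R' := by
    rw [List.flatMap_cons, flatMap_insBefore_of_notMem hgR', insBefore, if_pos rfl]; rfl
  rw [e1, e2] at hw2
  obtain ⟨a2, b2, hw3, ha2, hb2⟩ := walk_rot ha'.symm hb'.symm hw2
  refine ⟨n0 + n, by nlinarith, a2, b2, hw.append hw3, ?_⟩
  have h4 : St T ρ a2 b2 := (h.walk hw).walk hw3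
  rw [formPerm_eq_of_isRotated h4.nodup ha2, formPerm_insBefore h3.nodup]
  · exact ⟨_, ha1, rfl⟩
  · rw [← List.mem_toFinset, h3.supp, Finset.mem_erase]; exact ⟨hgf, hg⟩
  · rw [← List.mem_toFinset, h3.supp, Finset.mem_erase]; simp

/-- the step of the induction, without fixed points. -/
theorem NF2_nofix {m : ℕ} {T : Finset X} {ρ : Perm X} (hT : T.card = m + 1) (hF : ∀ f ∈ T, ρ f ≠ f) {p z : X}
    (hp : p ∈ T) (hz : z ∈ T) (hzp : z ≠ p) (hzr : z ≠ ρ p) {N : Set (Perm X)}
    (hNw : ∀ a b, St (T.erase z) (swap (ρ p) z * ρ * swap p z) a b →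
      ∃ n ≤ m * (m + 6), ∃ a' b', Walk CM n (a, b) (a', b') ∧ formPerm a' ∈ N)
    (a b : List X) (h : St T ρ a b) :
    ∃ n ≤ (m + 1) * (m + 1 + 6), ∃ a' b', Walk CM n (a, b) (a', b') ∧
      formPerm a' ∈ RevSet T ρ ∪ (fun σ : Perm X => σ * swap p z) '' N := by
  have hr : ρ p ∈ T := h.rho_mem hp
  obtain ⟨ρ1, hρ1⟩ : ∃ ρ1 : Perm X, ρ1 = swap (ρ p) z * ρ * swap p z := ⟨_, rfl⟩
  rw [← hρ1] at hNw
  obtain ⟨r, hrdef⟩ : ∃ r, r = ρ p := ⟨_, rfl⟩
  rw [← hrdef] at hzr hr hρ1
  have hnf := h.noFix hF
  -- rotate
  have hpa : p ∈ a := by rw [← List.mem_toFinset, h.supp]; exact hp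
  have hrb : r ∈ b := by
    apply h.perm.subset
    rw [← List.mem_toFinset, h.supp]; exact hr
  obtain ⟨A, hA⟩ := exists_rot_cons hpa
  obtain ⟨B, hB⟩ := exists_rot_cons hrb
  have hA' : a ~r (A ++ [p]) := hA.trans (rot_of_eq (u := [p]) (v := A) rfl rfl)
  have hB' : b ~r (B ++ [r]) := hB.trans (rot_of_eq (u := [r]) (v := B) rfl rfl)
  have h1 : St T ρ (A ++ [p]) (B ++ [r]) := h.rot hA' hB'
  have hzA : z ∈ A := by
    have : z ∈ A ++ [p] := by rw [← List.mem_toFinset, h1.supp]; exact hz
    simpa [hzp] using this
  have hzB : z ∈ B := by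
    have : z ∈ B ++ [r] := by
      apply h1.perm.subset
      rw [← List.mem_toFinset, h1.supp]; exact hz
    simpa [hzr] using this
  cases A with
  | nil => simp at hzA
  | cons x A =>
      cases B with
      | nil => simp at hzB
      | cons x' B =>
          have hx : formPerm ((x :: A) ++ [p]) p = x := by
            rw [List.cons_append]
            exact formPerm_getLast (getLast_cc _ _ _)
          have hx' : formPerm ((x' :: B) ++ [r]) r = x' := by
            rw [List.cons_append]
            exact formPerm_getLast (getLast_cc _ _ _)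
          have hxx : x = x' := by
            have h2 : ρ p = r := hrdef.symm
            rw [← h1.rho, Perm.mul_apply, hx, Perm.inv_eq_iff_eq, hx'] at h2
            exact h2
          subst hxx
          -- reach a joined or reversed state
          have hreach : Reachable p r z (2 * (m + 1)) ((x :: A) ++ [p]) ((x :: B) ++ [r]) := by
            have hcut : CutState p r ((x :: A) ++ [p]) ((x :: B) ++ [r]) :=
              ⟨h1.nodup, h1.perm, getLast_cc _ _ _, getLast_cc _ _ _⟩
            by_cases hxz : x = z
            · subst hxz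
              exact ⟨0, by omega, _, _, Walk.refl _ _, Or.inr ⟨hcut, rfl, rfl⟩⟩
            · have hzA' : z ∈ A := by simpa [Ne.symm hxz] using hzA
              have hzB' : z ∈ B := by simpa [Ne.symm hxz] using hzB
              obtain ⟨a1, a2, rfl⟩ := List.append_of_mem hzA'
              obtain ⟨b1, b2, rfl⟩ := List.append_of_mem hzB'
              have e1 : (x :: (a1 ++ z :: a2)) ++ [p] = x :: (a1 ++ z :: (a2 ++ [p])) := by
                simp
              have e2 : (x :: (b1 ++ z :: b2)) ++ [r] = x :: (b1 ++ z :: (b2 ++ [r])) := by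
                simp
              have hlen1 := List.toFinset_card_of_nodup h1.nodup
              have hlen2 := h1.perm.length_eq
              rw [h1.supp, hT] at hlen1
              have hnf1 : NoFix ((x :: (a1 ++ z :: a2)) ++ [p])
                  ((x :: (b1 ++ z :: b2)) ++ [r]) := h1.noFix hF
              rw [e1, e2] at hcut hnf1 hlen2 ⊢
              rw [e1] at hlen1
              refine (join_lemma z (a1.length + b1.length) p r x a1 (a2 ++ [p]) b1
                (b2 ++ [r]) hcut (by simp) (by simp) hnf1 le_rfl).mono ?_
              simp only [List.length_cons, List.length_append] at hlen1 hlen2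
              omega
          obtain ⟨k, hk, a', b', hw, hend⟩ := hreach
          obtain ⟨a2, b2, hw2, ha2, hb2⟩ := walk_rot hA'.symm hB'.symm hw
          have h2 : St T ρ a2 b2 := h.walk hw2
          have h3 : St T ρ a' b' := h2.rot ha2 hb2
          rcases hend with ⟨_, hrev⟩ | ⟨hcut, hza, hzb⟩
          · -- reversed
            refine ⟨k, by nlinarith, a2, b2, hw2, Or.inl ⟨a', h3.nodup, h3.supp,
              formPerm_eq_of_isRotated h2.nodup ha2, ?_⟩⟩
            rw [formPerm_eq_of_isRotated h2.nodup ha2]
            have h4 := h3.rho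
            rw [formPerm_eq_of_isRotated h3.nodupB hrev, formPerm_reverse, inv_inv] at h4
            exact h4
          · -- joined
            obtain ⟨a4, ha4⟩ : ∃ a4, a' = z :: (a4 ++ [p]) := by
              cases a' with
              | nil => simp at hza
              | cons s a' =>
                  simp only [List.head?_cons, Option.some.injEq] at hza
                  subst hza
                  have h5 := hcut.lastA
                  rcases List.eq_nil_or_concat a' with h6 | ⟨u, v, h6⟩
                  · subst h6
                    simp at h5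
                    exact absurd h5 hzp
                  · rw [List.concat_eq_append] at h6
                    rw [h6, getLast_cc, Option.some.injEq] at h5
                    subst h5
                    exact ⟨u, by rw [h6]⟩
            obtain ⟨b4, hb4⟩ : ∃ b4, b' = z :: (b4 ++ [r]) := by
              cases b' with
              | nil => simp at hzb
              | cons s b' =>
                  simp only [List.head?_cons, Option.some.injEq] at hzb
                  subst hzb
                  have h5 := hcut.lastB
                  rcases List.eq_nil_or_concat b' with h6 | ⟨u, v, h6⟩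
                  · subst h6
                    simp at h5
                    exact absurd h5 hzr
                  · rw [List.concat_eq_append] at h6
                    rw [h6, getLast_cc, Option.some.injEq] at h5
                    subst h5
                    exact ⟨u, by rw [h6]⟩
            subst ha4 hb4
            have r1 : (z :: (a4 ++ [p])) ~r (p :: z :: a4) :=
              rot_of_eq (u := z :: a4) (v := [p]) (by simp) (by simp)
            have r2 : (z :: (b4 ++ [r])) ~r (r :: z :: b4) :=
              rot_of_eq (u := z :: b4) (v := [r]) (by simp) (by simp)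
            have h4 : St T ρ (p :: z :: a4) (r :: z :: b4) := h3.rot r1 r2
            have n1 : (p :: a4).Nodup := by
              have := h4.nodup
              simp only [List.nodup_cons, List.mem_cons, not_or] at this ⊢
              exact ⟨this.1.2, this.2.2⟩
            have n2 : (r :: b4).Nodup := by
              have := h4.nodupB
              simp only [List.nodup_cons, List.mem_cons, not_or] at this ⊢
              exact ⟨this.1.2, this.2.2⟩
            have z1 : z ∉ p :: a4 := by
              have := h4.nodup
              simp only [List.nodup_cons, List.mem_cons, not_or] at this ⊢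
              exact ⟨hzp, this.2.1⟩
            have z2 : z ∉ r :: b4 := by
              have := h4.nodupB
              simp only [List.nodup_cons, List.mem_cons, not_or] at this ⊢
              exact ⟨hzr, this.2.1⟩
            have h5 : St (T.erase z) ρ1 (p :: a4) (r :: b4) := by
              refine ⟨n1, ?_, ?_, ?_⟩
              · have q1 : (z :: p :: a4).Perm (p :: z :: a4) := List.Perm.swap _ _ _
                have q2 : (r :: z :: b4).Perm (z :: r :: b4) := List.Perm.swap _ _ _
                exact (q1.trans (h4.perm.trans q2)).cons_inv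
              · rw [← h4.supp]
                ext s
                simp only [List.mem_toFinset, Finset.mem_erase, List.mem_cons]
                constructor
                · intro hs
                  refine ⟨?_, ?_⟩
                  · rintro rfl
                    exact z1 (by simpa using hs)
                  · rcases hs with hs | hs
                    · exact Or.inl hs
                    · exact Or.inr (Or.inr hs)
                · rintro ⟨hs1, hs | hs | hs⟩
                  · exact Or.inl hs
                  · exact absurd hs hs1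
                  · exact Or.inr hs
              · have q1 := formPerm_cons_insert p z a4 h4.nodup
                have q2 := formPerm_cons_insert r z b4 h4.nodupB
                have q3 := h4.rho
                rw [q1, q2] at q3
                rw [hρ1, ← q3]
                simp only [mul_inv_rev, swap_inv, mul_assoc, swap_mul_self, mul_one]
                rw [← mul_assoc (swap r z) (swap r z), swap_mul_self, one_mul]
            obtain ⟨n, hn, a5, b5, hw5, ha5⟩ := hNw _ _ h5
            have h6 := h5.walk hw5
            have hw6 := walk_flatMap (φ := insAfter p z) (γ := insAfter r z) (by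
              intro s
              by_cases hs : s = p
              · by_cases hs' : s = r
                · exact ⟨s, [z], [z], by simp [insAfter, hs], by simp [insAfter, hs']⟩
                · refine ⟨s, [z], [], by simp [insAfter, hs], by simp [insAfter, hs']⟩
              · by_cases hs' : s = r
                · exact ⟨s, [], [z], by simp [insAfter, hs], by simp [insAfter, hs']⟩
                · refine ⟨s, [], [], by simp [insAfter, hs], by simp [insAfter, hs']⟩) hw5
            have e1 : (p :: a4).flatMap (insAfter p z) = p :: z :: a4 := by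
              rw [List.flatMap_cons, flatMap_insAfter_of_notMem (List.nodup_cons.mp n1).1,
                insAfter, if_pos rfl]
              rfl
            have e2 : (r :: b4).flatMap (insAfter r z) = r :: z :: b4 := by
              rw [List.flatMap_cons, flatMap_insAfter_of_notMem (List.nodup_cons.mp n2).1,
                insAfter, if_pos rfl]
              rfl
            rw [e1, e2] at hw6
            obtain ⟨a6, b6, hw7, ha6, hb6⟩ := walk_rot (r1.symm.trans ha2.symm)
              (r2.symm.trans hb2.symm) hw6
            refine ⟨k + n, by nlinarith, a6, b6, hw2.append hw7, Or.inr ⟨_, ha5, ?_⟩⟩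
            have h7 : St T ρ a6 b6 := h2.walk hw7
            rw [formPerm_eq_of_isRotated h7.nodup ha6, formPerm_insAfter h6.nodup]
            · rw [← List.mem_toFinset, h6.supp, Finset.mem_erase]; exact ⟨hzp.symm, hp⟩
            · rw [← List.mem_toFinset, h6.supp, Finset.mem_erase]; simp


/-- **Normal form theorem** with `486 (m + 1)` forms. -/
theorem NF2_main (hrev : CC_rev_stmt) (hch : CC_choice_stmt) : ∀ (m : ℕ) (T : Finset X) (ρ : Perm X), T.card = m →
    ∃ N : Set (Perm X), N.Finite ∧ (N.ncard ≤ 2 * (m + 1) + 484) ∧ (CC T ρ 2 → N.ncard ≤ (m + 1) + 484) ∧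
      (CC T ρ 3 → N.ncard ≤ 484) ∧ ∀ a b, St T ρ a b →
      ∃ n ≤ m * (m + 6), ∃ a' b', Walk CM n (a, b) (a', b') ∧ formPerm a' ∈ N := by
  intro m
  induction m with
  | zero =>
    intro T ρ hT
    obtain ⟨N, h1, h2, h3⟩ := normal_form 0 T ρ hT
    exact ⟨N, h1, by omega, fun _ => by omega, fun _ => by omega, h3⟩
  | succ m ih =>
    intro T ρ hT
    by_cases hm : m + 1 < 21
    · obtain ⟨N, h1, h2, h3⟩ := normal_form (m + 1) T ρ hT
      have h4 : (m + 1 + 1) ^ 2 ≤ 484 := by
        have : m + 1 + 1 ≤ 22 := by omega
        calc (m + 1 + 1) ^ 2 ≤ 22 ^ 2 := Nat.pow_le_pow_left this 2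
          _ = 484 := by norm_num
      exact ⟨N, h1, by omega, fun _ => by omega, fun _ => by omega, h3⟩
    by_cases hF : ∃ f ∈ T, ρ f = f
    · obtain ⟨f, hf, hρ⟩ := hF
      obtain ⟨g, hg, hgf⟩ : ∃ g ∈ T, g ≠ f := by
        have h1 : 1 < T.card := by omega
        obtain ⟨x, hx, y, hy, hxy⟩ := Finset.one_lt_card.mp h1
        by_cases h : x = f
        · exact ⟨y, hy, fun h2 => hxy (h.trans h2.symm)⟩
        · exact ⟨x, hx, h⟩
      obtain ⟨N, hN, c1, c2, c3, hNw⟩ := ih (T.erase f) ρ (by rw [Finset.card_erase_of_mem hf, hT]; rfl)
      have hcc : ∀ k, CC T ρ k → CC (T.erase f) ρ k := by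
        rintro k ⟨L, h1, h2, h3⟩
        refine ⟨L, h1, fun t ht => ⟨Finset.mem_erase.mpr ⟨?_, (h2 t ht).1⟩, (h2 t ht).2⟩, h3⟩
        rintro rfl
        exact (h2 _ ht).2 hρ
      have hc := Set.ncard_image_le hN (f := fun σ : Perm X => swap f g * σ)
      refine ⟨(fun σ : Perm X => swap f g * σ) '' N, hN.image _, by omega, fun h => ?_, fun h => ?_,
        NF2_fix hf hg hgf hρ hNw⟩
      · have := c2 (hcc 2 h)
        omega
      · have := c3 (hcc 3 h)
        omega
    · push Not at hF
      by_cases hS : ∃ a b, St T ρ a b
      swap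
      · exact ⟨∅, Set.finite_empty, by simp, by simp, by simp, fun a b h => absurd ⟨a, b, h⟩ hS⟩
      obtain ⟨a0, b0, h0⟩ := hS
      obtain ⟨p, hp, z, hz, hzp, hzr, k1, k2⟩ := hch X T ρ (by omega) (fun t ht => h0.rho_mem ht) hF
      obtain ⟨N, hN, c1, c2, c3, hNw⟩ := ih (T.erase z) (swap (ρ p) z * ρ * swap p z)
        (by rw [Finset.card_erase_of_mem hz, hT]; rfl)
      obtain ⟨hRf, hRc⟩ := revSet_card T ρ hp
      have hc := Set.ncard_image_le hN (f := fun σ : Perm X => σ * swap p z)
      have hu := Set.ncard_union_le (RevSet T ρ) ((fun σ : Perm X => σ * swap p z) '' N)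
      have h1 : CC T ρ 1 := ⟨[p], rfl, by simpa using ⟨hp, hF p hp⟩, by simp⟩
      rw [hT] at hRc
      refine ⟨RevSet T ρ ∪ (fun σ : Perm X => σ * swap p z) '' N, hRf.union (hN.image _), ?_, fun h => ?_,
        fun h => ?_, NF2_nofix hT hF hp hz hzp hzr hNw⟩
      · have := c2 (k1 1 (by norm_num) h1)
        omega
      · have := c3 (k1 2 le_rfl h)
        omega
      · have h2 := c3 (k2 h)
        rw [hrev X T ρ h, Set.empty_union]
        omega

/-- **Normal form theorem** with `486 (m + 1)` forms. -/
theorem normal_form_of (hrev : CC_rev_stmt) (hch : CC_choice_stmt) : ∃ C0 : ℕ, ∀ (X : Type) [DecidableEq X] (m : ℕ)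
    (T : Finset X) (ρ : Perm X), T.card = m →
    ∃ N : Set (Perm X), N.Finite ∧ N.ncard ≤ C0 * (m + 1) ∧ ∀ a b, St T ρ a b →
      ∃ n ≤ m * (m + 6), ∃ a' b', Walk CM n (a, b) (a', b') ∧ formPerm a' ∈ N := by
  refine ⟨486, fun X _ m T ρ hT => ?_⟩
  obtain ⟨N, hN, c1, -, -, hNw⟩ := NF2_main hrev hch m T ρ hT
  exact ⟨N, hN, by omega, hNw⟩

end Pool.Agent.helper36.WE
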