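import Pool.Agent.helper51.NF2.UG

/-! Rigidity of the reversed pairs. -/

namespace Pool.Agent.helper51.UG

set_option linter.unusedSectionVars false

open Equiv Equiv.Perm List Pool.Agent.helper36.WE Pool.Agent.helper32.ATT Relation

variable {X : Type} [DecidableEq X]

theorem fp_append (x y : X) (P Q : List X) (hn : ((x :: P) ++ (y :: Q)).Nodup) :
    formPerm ((x :: P) ++ (y :: Q)) = swap x y * (formPerm (x :: P) * formPerm (y :: Q)) := by
  rw [formPerm_append2 x y P Q hn]
  try simp only [mul_assoc]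

/-- two cycles are joined. -/
theorem Cyc.join {γ : Perm X} {x y : X} {P Q : List X} (h1 : Cyc γ (x :: P)) (h2 : Cyc γ (y :: Q))
    (hn : ((x :: P) ++ (y :: Q)).Nodup) : Cyc (swap x y * γ) ((x :: P) ++ (y :: Q)) := by
  refine ⟨hn, fun t ht => ?_⟩
  rw [fp_append x y P Q hn, Perm.mul_apply, Perm.mul_apply, Perm.mul_apply]
  congr 1
  have hd := (List.nodup_append.mp hn).2.2
  rcases List.mem_append.mp ht with ht | ht
  · have h3 : t ∉ y :: Q := fun h => hd t ht t h rfl
    rw [formPerm_apply_of_notMem h3, h1.2 t ht]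
  · have h3 : formPerm (y :: Q) t ∈ y :: Q := formPerm_apply_mem_of_mem ht
    have h4 : formPerm (y :: Q) t ∉ x :: P := fun h => hd _ h _ h3 rfl
    rw [formPerm_apply_of_notMem h4, h2.2 t ht]

/-- a cycle is split. -/
theorem Cyc.split {γ : Perm X} {x y : X} {P Q : List X} (h : Cyc γ ((x :: P) ++ (y :: Q))) :
    Cyc (swap x y * γ) (x :: P) ∧ Cyc (swap x y * γ) (y :: Q) := by
  have hn := h.1
  have hd := (List.nodup_append.mp hn).2.2
  refine ⟨⟨(List.nodup_append.mp hn).1, fun t ht => ?_⟩, ⟨(List.nodup_append.mp hn).2.1, fun t ht => ?_⟩⟩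
  · rw [Perm.mul_apply, h.2 t (List.mem_append_left _ ht), fp_append x y P Q hn, ← Perm.mul_apply, ← mul_assoc,
      swap_mul_self, one_mul, Perm.mul_apply]
    have h3 : t ∉ y :: Q := fun h => hd t ht t h rfl
    rw [formPerm_apply_of_notMem h3]
  · rw [Perm.mul_apply, h.2 t (List.mem_append_right _ ht), fp_append x y P Q hn, ← Perm.mul_apply, ← mul_assoc,
      swap_mul_self, one_mul, Perm.mul_apply]
    have h3 : formPerm (y :: Q) t ∈ y :: Q := formPerm_apply_mem_of_mem ht
    have h4 : formPerm (y :: Q) t ∉ x :: P := fun h => hd _ h _ h3 rfl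
    rw [formPerm_apply_of_notMem h4]

/-- other cycles are not touched. -/
theorem Cyc.keep {γ : Perm X} {x y : X} {L : List X} (h : Cyc γ L) (hx : x ∉ L) (hy : y ∉ L) :
    Cyc (swap x y * γ) L := by
  refine ⟨h.1, fun t ht => ?_⟩
  have h1 := h.mem ht
  have h2 : γ t ≠ x := fun h' => hx (h' ▸ h1)
  have h3 : γ t ≠ y := fun h' => hy (h' ▸ h1)
  rw [Perm.mul_apply, swap_apply_of_ne_of_ne h2 h3, h.2 t ht]

/-- the inverse has the reversed cycle. -/
theorem Cyc.inv {γ : Perm X} {L : List X} (h : Cyc γ L) : Cyc γ⁻¹ L.reverse := by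
  refine ⟨List.nodup_reverse.mpr h.1, fun t ht => ?_⟩
  rw [List.mem_reverse] at ht
  rw [formPerm_reverse, Perm.inv_eq_iff_eq]
  have h1 : (formPerm L)⁻¹ t ∈ L := by
    have h2 : (formPerm L)⁻¹ t = formPerm L.reverse t := by rw [formPerm_reverse]
    rw [h2]
    have := formPerm_apply_mem_of_mem (List.mem_reverse.mpr ht)
    rwa [List.mem_reverse] at this
  rw [h.2 _ h1, ← Perm.mul_apply, mul_inv_cancel]
  rfl

/-- the states over the reversed pair `(c, c⁻¹)`. -/
inductive RS (c : Perm X) (T : Finset X) : Perm X → Perm X → X → X → List X → List X → List X → Prop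
  | base (x y : X) (E Q : List X) (h : Cyc c ((x :: E) ++ (y :: Q))) (hT : ((x :: E) ++ (y :: Q)).toFinset = T) :
      RS c T (swap x y * c) (swap x y * c⁻¹) x y E [] Q.reverse
  | push (α β : Perm X) (x y x' y' : X) (P Q E2 R D : List X) (h : RS c T α β x y (P ++ x' :: Q ++ y' :: E2) R D) :
      RS c T (swap x' y' * swap x y' * α) (swap x' y' * swap x y' * β) x' y' Q (x :: P ++ y' :: E2 ++ R)
        (P.reverse ++ y :: E2.reverse ++ x :: D)

theorem RS.push_aux {β : Perm X} {x y x' y' : X} {P Q E2 D : List X}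
    (k2 : Cyc β (y :: (P ++ x' :: Q ++ y' :: E2).reverse)) (k3 : Cyc β (x :: D))
    (k4 : ((y :: (P ++ x' :: Q ++ y' :: E2).reverse) ++ (x :: D)).Nodup) :
    Cyc (swap x' y' * swap x y' * β) (y' :: Q.reverse) ∧
    Cyc (swap x' y' * swap x y' * β) (x' :: (P.reverse ++ y :: E2.reverse ++ x :: D)) ∧
    ((y' :: Q.reverse) ++ (x' :: (P.reverse ++ y :: E2.reverse ++ x :: D))).Nodup := by
  have hrot : (y :: (P ++ x' :: Q ++ y' :: E2).reverse) ~r (y' :: (Q.reverse ++ x' :: P.reverse ++ y :: E2.reverse)) :=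
    rot_of_eq (u := y :: E2.reverse) (v := y' :: (Q.reverse ++ x' :: P.reverse)) (by simp) (by simp)
  have h2 := k2.rot hrot
  have hn : ((y' :: (Q.reverse ++ x' :: P.reverse ++ y :: E2.reverse)) ++ (x :: D)).Nodup :=
    (hrot.perm.append_right (x :: D)).nodup_iff.mp k4
  have h4 := h2.join k3 hn
  have e2 : (y' :: (Q.reverse ++ x' :: P.reverse ++ y :: E2.reverse)) ++ (x :: D) =
      (y' :: Q.reverse) ++ (x' :: (P.reverse ++ y :: E2.reverse ++ x :: D)) := by simp
  rw [e2] at h4 hn
  have h5 := h4.split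
  rw [← mul_assoc, Equiv.swap_comm y' x', Equiv.swap_comm y' x] at h5
  exact ⟨h5.1, h5.2, hn⟩

theorem RS.inv {c : Perm X} {T : Finset X} {α β : Perm X} {x y : X} {E R D : List X} (h : RS c T α β x y E R D) :
    Cyc α (x :: (E ++ R)) ∧ Cyc β (y :: E.reverse) ∧ Cyc β (x :: D) ∧ ((y :: E.reverse) ++ (x :: D)).Nodup ∧
      (∀ t ∈ T, t ∈ x :: D ∨ t ∈ y :: E) ∧ ∃ w ∈ T, w ∉ x :: (E ++ R) := by
  induction h with
  | base x y E Q h hT =>
    have hn := h.1
    have h1 := h.split
    have h2 : Cyc c⁻¹ ((y :: E.reverse) ++ (x :: Q.reverse)) := by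
      have h3 := h.inv
      refine h3.rot ?_
      refine rot_of_eq (u := Q.reverse) (v := y :: E.reverse ++ [x]) ?_ ?_
      · simp
      · simp
    have h3 := h2.split
    rw [Equiv.swap_comm y x] at h3
    refine ⟨by simpa using h1.1, h3.1, h3.2, h2.1, ?_, y, ?_, ?_⟩
    · intro t ht
      rw [← hT, List.mem_toFinset] at ht
      simp only [List.mem_append, List.mem_cons, List.mem_reverse] at ht ⊢
      tauto
    · rw [← hT, List.mem_toFinset]
      simp
    · rw [List.append_nil]
      intro h'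
      exact (List.nodup_append.mp hn).2.2 y h' y (by simp) rfl
  | push α β x y x' y' P Q E2 R D h ih =>
    obtain ⟨k1, k2, k3, k4, k5, w, hw, hwn⟩ := ih
    refine ⟨?_, ?_, ?_, ?_, ?_, w, hw, ?_⟩
    · have e1 : x :: ((P ++ x' :: Q ++ y' :: E2) ++ R) = (x :: (P ++ x' :: Q)) ++ (y' :: (E2 ++ R)) := by simp
      rw [e1] at k1
      have h1 := k1.split
      have hrot : (x :: (P ++ x' :: Q)) ~r (x' :: (Q ++ x :: P)) :=
        rot_of_eq (u := x :: P) (v := x' :: Q) (by simp) (by simp)
      have h2 := h1.1.rot hrot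
      have hn : ((x' :: (Q ++ x :: P)) ++ (y' :: (E2 ++ R))).Nodup := by
        have h3 : ((x' :: (Q ++ x :: P)) ++ (y' :: (E2 ++ R))).Perm ((x :: (P ++ x' :: Q)) ++ (y' :: (E2 ++ R))) :=
          (hrot.perm.symm).append_right _
        exact h3.nodup_iff.mpr k1.1
      have h4 := h2.join h1.2 hn
      rw [← mul_assoc] at h4
      have e2 : (x' :: (Q ++ x :: P)) ++ (y' :: (E2 ++ R)) = x' :: (Q ++ (x :: P ++ y' :: E2 ++ R)) := by simp
      rw [e2] at h4
      exact h4
    · exact (RS.push_aux k2 k3 k4).1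
    · exact (RS.push_aux k2 k3 k4).2.1
    · exact (RS.push_aux k2 k3 k4).2.2
    · intro t ht
      rcases k5 t ht with h1 | h1
      · left
        simp only [List.mem_append, List.mem_cons] at h1 ⊢
        tauto
      · simp only [List.mem_append, List.mem_cons, List.mem_reverse] at h1 ⊢
        tauto
    · intro h1
      apply hwn
      simp only [List.mem_append, List.mem_cons] at h1 ⊢
      tauto

/-- equal splittings of a duplicate free word at a letter. -/
theorem split_uniq {y : X} {u w p q : List X} (h : u ++ y :: p = w ++ y :: q) (hn : (u ++ y :: p).Nodup) :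
    u = w ∧ p = q := by
  induction u generalizing w with
  | nil =>
    cases w with
    | nil => simpa using h
    | cons t w =>
      rw [List.nil_append, List.cons_append, List.cons.injEq] at h
      exfalso
      rw [List.nil_append, h.2, h.1] at hn
      simp at hn
  | cons t u ih =>
    cases w with
    | nil =>
      rw [List.nil_append, List.cons_append, List.cons.injEq] at h
      exfalso
      rw [h.1] at hn
      simp at hn
    | cons t' w =>
      rw [List.cons_append, List.cons_append, List.cons.injEq] at h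
      obtain ⟨e1, e2⟩ := ih h.2 (List.nodup_cons.mp hn).2
      exact ⟨by rw [h.1, e1], e2⟩

theorem Sg.mem {T : Finset X} {α : Perm X} {x w : X} {L : List X} (h : Sg T α) (h1 : Cyc α (x :: L)) (hx : x ∈ T)
    (hw : w ∈ T) : w ∈ x :: L := by
  obtain ⟨M, hM, hc⟩ := h
  have h2 : x ∈ M := by rw [← List.mem_toFinset, hM]; exact hx
  have h3 := hc.rot_of_mem h1 h2 (by simp)
  exact h3.mem_iff.mp (by rw [← List.mem_toFinset, hM]; exact hw)

/-- the states reached from a reversed pair. -/
def RC (c : Perm X) (T : Finset X) (v : Perm X × Perm X × X) : Prop :=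
  (v.1 = c ∧ v.2.1 = c⁻¹) ∨ ∃ y E R D, RS c T v.1 v.2.1 v.2.2 y E R D

theorem RS.x_mem {c : Perm X} {T : Finset X} {α β : Perm X} {x y : X} {E R D : List X} (h : RS c T α β x y E R D) :
    x ∈ T ∧ y ∈ T ∧ (∀ t ∈ E, t ∈ T) := by
  induction h with
  | base x y E Q h hT =>
    rw [← hT]
    refine ⟨by simp, by simp, fun t ht => by simp [ht]⟩
  | push α β x y x' y' P Q E2 R D h ih =>
    exact ⟨ih.2.2 _ (by simp), ih.2.2 _ (by simp), fun t ht => ih.2.2 t (by simp [ht])⟩

/-- **Closure.** -/
theorem RC.step {c : Perm X} {T : Finset X} (hc : Sg T c) {v v' : Perm X × Perm X × X} (hx : v.2.2 ∈ T) (h : RC c T v)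
    (hs : US T v v') : RC c T v' := by
  have hc' : Sg T c⁻¹ := by
    obtain ⟨L, h1, h2⟩ := hc
    refine ⟨L.reverse, ?_, h2.inv⟩
    rw [← h1]
    ext t
    simp
  rcases h with ⟨h1, h2⟩ | ⟨y, E, R, D, h⟩
  · cases hs with
    | mark α β x x' hα hβ hx' => exact Or.inl ⟨h1, h2⟩
    | opn α β x y hα hβ hx hy hxy =>
      simp only at h1 h2
      subst h1 h2
      obtain ⟨L, hL, hcL⟩ := hc
      obtain ⟨M, hM⟩ := exists_rot_cons (l := L) (s := x) (by rw [← List.mem_toFinset, hL]; exact hx)
      have h3 : y ∈ M := by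
        have h4 : y ∈ x :: M := hM.mem_iff.mp (by rw [← List.mem_toFinset, hL]; exact hy)
        rcases List.mem_cons.mp h4 with h5 | h5
        · exact absurd h5.symm hxy
        · exact h5
      obtain ⟨P, Q, rfl⟩ := List.append_of_mem h3
      have h5 : Cyc _ ((x :: P) ++ (y :: Q)) := hcL.rot hM
      refine Or.inr ⟨y, P, [], Q.reverse, RS.base x y P Q h5 ?_⟩
      rw [← hL]
      ext t
      rw [List.mem_toFinset, List.mem_toFinset]
      exact (hM.mem_iff (a := t)).symm
    | cls α β x y C D hx hy c1 c2 c3 c4 =>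
      simp only at h1 h2
      subst h1
      exact absurd (hc.mem c1 hx hy) c2
    | turn α β x x' y P Q R D hx hx' hy c1 c2 c3 =>
      simp only at h1 h2
      subst h2
      exact absurd (hc'.mem c2 hx hy) c3
  · have hi := h.inv
    cases hs with
    | mark α β x x' hα hβ hx' =>
      obtain ⟨w, hw, hwn⟩ := hi.2.2.2.2.2
      exact absurd (hα.mem hi.1 h.x_mem.1 hw) hwn
    | opn α β x y hα hβ hx hy hxy =>
      obtain ⟨w, hw, hwn⟩ := hi.2.2.2.2.2
      exact absurd (hα.mem hi.1 h.x_mem.1 hw) hwn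
    | cls α β x y1 C D1 hx hy c1 c2 c3 c4 =>
      simp only at h hi
      have e1 := c1.uniq hi.1
      have e2 := c3.uniq hi.2.2.1
      subst e1 e2
      have h3 := hi.2.2.2.2.1 y1 hy
      have h4 : y1 ∈ y :: E := by
        rcases h3 with h3 | h3
        · exact absurd h3 c4
        · exact h3
      have h5 : y1 = y := by
        rcases List.mem_cons.mp h4 with h5 | h5
        · exact h5
        · exact absurd (by simp [h5]) c2
      subst h5
      cases h with
      | base x y E Q h hT =>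
        left
        exact ⟨swap_sq _ _ _, swap_sq _ _ _⟩
      | push α β x y x' y' P Q E2 R D h =>
        exact absurd (by simp) c2
    | turn α β x0 x' y1 P Q R1 D1 hx hx' hy c1 c2 c3 =>
      simp only at h hi
      have e1 : P ++ x' :: Q ++ y1 :: R1 = E ++ R := by
        have := c1.uniq (L := P ++ x' :: Q ++ y1 :: R1) hi.1
        exact this
      have e2 := c2.uniq hi.2.2.1
      subst e2
      have h4 : y1 ∈ y :: E := by
        rcases hi.2.2.2.2.1 y1 hy with h3 | h3
        · exact absurd h3 c3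
        · exact h3
      have hnE : (E ++ R).Nodup := (List.nodup_cons.mp hi.1.1).2
      rcases List.mem_cons.mp h4 with h5 | h5
      · subst h5
        cases h with
        | base x y E Q h hT =>
          exfalso
          rw [List.append_nil] at e1
          apply (List.nodup_append.mp h.1).2.2 y1 _ y1 (by simp) rfl
          rw [← e1]
          simp
        | push α β x y _ _ P0 _ E2 R0 D h =>
          have e3 : (P ++ x' :: Q) ++ y1 :: R1 = (E ++ x :: P0) ++ y1 :: (E2 ++ R0) := by
            rw [e1]; simp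
          have hn3 : ((P ++ x' :: Q) ++ y1 :: R1).Nodup := by rw [e1]; exact hnE
          obtain ⟨e4, e5⟩ := split_uniq e3 hn3
          have tt : ∀ γ : Perm X, swap x' y1 * swap x0 y1 * (swap x0 y1 * swap x y1 * γ) =
              swap x' y1 * swap x y1 * γ := by
            intro γ
            rw [mul_assoc (swap x' y1), mul_assoc (swap x0 y1) (swap x y1), swap_sq, mul_assoc]
          have h6 : x' ∈ E ++ x :: P0 := by rw [← e4]; simp
          simp only [tt]
          rcases List.mem_append.mp h6 with h7 | h7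
          · obtain ⟨Qa, Qb, rfl⟩ := List.append_of_mem h7
            have h8 : RS c T α β x y ((P0 ++ x0 :: Qa) ++ x' :: Qb ++ y1 :: E2) R0 D := by
              have e6 : (P0 ++ x0 :: Qa) ++ x' :: Qb ++ y1 :: E2 = P0 ++ x0 :: (Qa ++ x' :: Qb) ++ y1 :: E2 := by simp
              rw [e6]; exact h
            exact Or.inr ⟨y1, Qb, _, _, RS.push α β x y x' y1 _ Qb E2 R0 D h8⟩
          · rcases List.mem_cons.mp h7 with h7 | h7
            · subst h7
              have h8 : RS c T (swap x' y1 * swap x' y1 * α) (swap x' y1 * swap x' y1 * β) x' y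
                  (P0 ++ x0 :: E ++ y1 :: E2) R0 D := by
                rw [swap_mul_self, one_mul, one_mul]
                exact h
              exact Or.inr ⟨y, _, _, _, h8⟩
            · obtain ⟨Pa, Pb, rfl⟩ := List.append_of_mem h7
              have h8 : RS c T α β x y (Pa ++ x' :: (Pb ++ x0 :: E) ++ y1 :: E2) R0 D := by
                have e6 : Pa ++ x' :: (Pb ++ x0 :: E) ++ y1 :: E2 = (Pa ++ x' :: Pb) ++ x0 :: E ++ y1 :: E2 := by simp
                rw [e6]; exact h
              exact Or.inr ⟨y1, _, _, _, RS.push α β x y x' y1 _ _ E2 R0 D h8⟩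
      · obtain ⟨E1, E2, rfl⟩ := List.append_of_mem h5
        have e3 : (P ++ x' :: Q) ++ y1 :: R1 = E1 ++ y1 :: (E2 ++ R) := by
          rw [e1]; simp
        have hn3 : ((P ++ x' :: Q) ++ y1 :: R1).Nodup := by rw [e1]; exact hnE
        obtain ⟨e4, e5⟩ := split_uniq e3 hn3
        subst e4
        exact Or.inr ⟨y1, Q, _, _, RS.push α β x0 y x' y1 P Q E2 R D1 h⟩

theorem RC.reach {c : Perm X} {T : Finset X} (hc : Sg T c) {v v' : Perm X × Perm X × X} (hx : UT T v) (h : RC c T v)
    (hs : ReflTransGen (US T) v v') : RC c T v' ∧ UT T v' := by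
  induction hs with
  | refl => exact ⟨h, hx⟩
  | tail _ hbc ih => exact ⟨ih.1.step hc ih.2.1 hbc, hbc.ut ih.2⟩

/-- **Rigidity.** -/
theorem rigid {c : Perm X} {T : Finset X} (hc : Sg T c) {z z' : X} {α β : Perm X} (hz : z ∈ T)
    (hs : ReflTransGen (US T) (c, c⁻¹, z) (α, β, z')) (hα : Sg T α) : α = c := by
  have hx : UT T (c, c⁻¹, z) := by
    refine ⟨hz, fun t ht => ?_⟩
    obtain ⟨L, hL, hcL⟩ := hc
    rw [← hL, List.mem_toFinset] at ht ⊢
    exact hcL.mem ht
  obtain ⟨h1, -⟩ := RC.reach hc hx (Or.inl ⟨rfl, rfl⟩) hs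
  rcases h1 with h1 | ⟨y, E, R, D, h1⟩
  · exact h1.1
  · exfalso
    have hi := h1.inv
    obtain ⟨w, hw, hwn⟩ := hi.2.2.2.2.2
    exact hwn (hα.mem hi.1 h1.x_mem.1 hw)

end Pool.Agent.helper51.UG
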