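import Pool.Agent.helper51.NF2.RS
import Pool.Agent.helper36.WE.Hub

/-! Super moves and the graph of marked pairs. -/

namespace Pool.Agent.helper51.UG

set_option linter.unusedSectionVars false

open Equiv Equiv.Perm List Pool.Agent.helper36.WE Pool.Agent.helper32.ATT Relation

variable {X : Type} [DecidableEq X]

/-- the permutation of the first word. -/
def al (e q : X) : List X → Perm X
  | [] => 1
  | x :: A => Equiv.swap e x * (formPerm (x :: A) * Equiv.swap e q)

theorem cyc_self {L : List X} (h : L.Nodup) : Cyc (formPerm L) L := ⟨h, fun _ _ => rfl⟩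

theorem last_mul {e q : X} {W : List X} (hn : (e :: W).Nodup) (hq : (e :: W).getLast? = some q) :
    formPerm (e :: W) * Equiv.swap e q = formPerm W := by
  cases W with
  | nil =>
    simp only [List.getLast?_singleton, Option.some.injEq] at hq
    subst hq
    rw [formPerm_singleton, Equiv.swap_self, one_mul]
    rfl
  | cons s W =>
    have he : e ∉ s :: W := (List.nodup_cons.mp hn).1
    rw [List.getLast?_cons_cons] at hq
    rw [formPerm_cons_cons, mul_assoc, Equiv.mul_swap_eq_swap_mul (formPerm (s :: W)), formPerm_apply_of_notMem he,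
      formPerm_getLast hq, ← mul_assoc, swap_mul_self, one_mul]

/-- the first word starts with `e`. -/
theorem al_e {e q : X} {A : List X} (hn : (e :: A).Nodup) (hq : (e :: A).getLast? = some q) :
    al e q (e :: A) = formPerm A := by
  have h1 : al e q (e :: A) = Equiv.swap e e * (formPerm (e :: A) * Equiv.swap e q) := rfl
  rw [h1, swap_ff, last_mul hn hq]

/-- the first word does not start with `e`. -/
theorem al_ne {e q x : X} {U W : List X} (hn : ((x :: U) ++ (e :: W)).Nodup)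
    (hq : ((x :: U) ++ (e :: W)).getLast? = some q) :
    al e q ((x :: U) ++ (e :: W)) = formPerm (x :: U) * formPerm W := by
  have hq' : (e :: W).getLast? = some q := by
    rw [← hq, List.getLast?_append]
    simp [List.getLast?_cons]
  have h1 : al e q ((x :: U) ++ (e :: W)) =
      Equiv.swap e x * (formPerm ((x :: U) ++ (e :: W)) * Equiv.swap e q) := rfl
  rw [h1, fp_append x e U W hn, Equiv.swap_comm e x, mul_assoc, mul_assoc (formPerm (x :: U)),
    last_mul (List.nodup_append.mp hn).2.1 hq', swap_sq]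

theorem cyc_al {e q x : X} {U W : List X} (hn : ((x :: U) ++ (e :: W)).Nodup)
    (hq : ((x :: U) ++ (e :: W)).getLast? = some q) : Cyc (al e q ((x :: U) ++ (e :: W))) (x :: U) := by
  refine ⟨(List.nodup_append.mp hn).1, fun t ht => ?_⟩
  rw [al_ne hn hq, Perm.mul_apply, formPerm_apply_of_notMem (l := W)]
  intro h
  exact (List.nodup_append.mp hn).2.2 t ht t (List.mem_cons_of_mem _ h) rfl

/-- a rotation of a prefix. -/
theorem fp_rot {x x' y : X} {P Q R : List X} (hn : ((x :: P ++ x' :: Q) ++ (y :: R)).Nodup) :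
    formPerm ((x' :: Q ++ x :: P) ++ (y :: R)) =
      Equiv.swap x' y * (Equiv.swap x y * formPerm ((x :: P ++ x' :: Q) ++ (y :: R))) := by
  have hrot : (x :: (P ++ x' :: Q)) ~r (x' :: (Q ++ x :: P)) :=
    rot_of_eq (u := x :: P) (v := x' :: Q) (by simp) (by simp)
  have e1 : (x :: P ++ x' :: Q) ++ (y :: R) = (x :: (P ++ x' :: Q)) ++ (y :: R) := by simp
  have e2 : (x' :: Q ++ x :: P) ++ (y :: R) = (x' :: (Q ++ x :: P)) ++ (y :: R) := by simp
  rw [e1] at hn
  have hn2 : ((x' :: (Q ++ x :: P)) ++ (y :: R)).Nodup := (hrot.perm.append_right _).nodup_iff.mp hn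
  rw [e1, e2, fp_append _ _ _ _ hn, fp_append _ _ _ _ hn2, swap_sq,
    formPerm_eq_of_isRotated (List.nodup_append.mp hn).1 hrot]

theorem al_rot {e q x x' y : X} {P Q R : List X} (hn : ((x :: P ++ x' :: Q) ++ (y :: R)).Nodup) :
    al e q ((x' :: Q ++ x :: P) ++ (y :: R)) =
      Equiv.swap e x' * (Equiv.swap x' y * (Equiv.swap x y * (Equiv.swap e x *
        al e q ((x :: P ++ x' :: Q) ++ (y :: R))))) := by
  have h1 : al e q ((x' :: Q ++ x :: P) ++ (y :: R)) =
    Equiv.swap e x' * (formPerm ((x' :: Q ++ x :: P) ++ (y :: R)) * Equiv.swap e q) := rfl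
  have h2 : al e q ((x :: P ++ x' :: Q) ++ (y :: R)) =
    Equiv.swap e x * (formPerm ((x :: P ++ x' :: Q) ++ (y :: R)) * Equiv.swap e q) := rfl
  rw [h1, h2, swap_sq, fp_rot hn]
  simp only [mul_assoc]

/-- the first word has head `e`, before. -/
theorem al_rot_e {e q x' y : X} {P Q R : List X} (hn : ((e :: P ++ x' :: Q) ++ (y :: R)).Nodup) :
    al e q ((x' :: Q ++ e :: P) ++ (y :: R)) = Equiv.swap x' y * al e q ((e :: P ++ x' :: Q) ++ (y :: R)) := by
  have hx : x' ≠ e := by
    rintro rfl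
    simp [List.nodup_append] at hn
  have hy : y ≠ e := by
    rintro rfl
    simp at hn
  have hxy : x' ≠ y := by
    rintro rfl
    simp [List.nodup_append] at hn
  rw [al_rot hn, swap_ff]
  -- swap e x' * swap x' y * swap e y = swap x' y
  have h1 : Equiv.swap x' y * Equiv.swap e y = Equiv.swap e x' * Equiv.swap x' y := by
    rw [Equiv.mul_swap_eq_swap_mul (Equiv.swap x' y), swap_apply_of_ne_of_ne (Ne.symm hx) (Ne.symm hy),
      swap_apply_right]
  rw [← mul_assoc (Equiv.swap x' y), h1, mul_assoc (Equiv.swap e x'), swap_sq]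

/-- generic position. -/
theorem al_rot_ne {e q x x' y : X} {P Q R : List X} (hn : ((x :: P ++ x' :: Q) ++ (y :: R)).Nodup) (hx : x ≠ e)
    (hx' : x' ≠ e) (hy : y ≠ e) :
    al e q ((x' :: Q ++ x :: P) ++ (y :: R)) =
      Equiv.swap x' y * Equiv.swap x y * al e q ((x :: P ++ x' :: Q) ++ (y :: R)) := by
  have hxx' : x ≠ x' := by
    rintro rfl
    simp at hn
  have hxy : x ≠ y := by
    rintro rfl
    simp at hn
  have hxy' : x' ≠ y := by
    rintro rfl
    simp [List.nodup_append] at hn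
  rw [al_rot hn]
  have h1 : Equiv.swap x y * Equiv.swap e x = Equiv.swap e y * Equiv.swap x y := by
    rw [Equiv.mul_swap_eq_swap_mul (Equiv.swap x y), swap_apply_of_ne_of_ne (Ne.symm hx) (Ne.symm hy),
      swap_apply_left]
  have h2 : Equiv.swap x' y * Equiv.swap e y = Equiv.swap e x' * Equiv.swap x' y := by
    rw [Equiv.mul_swap_eq_swap_mul (Equiv.swap x' y), swap_apply_of_ne_of_ne (Ne.symm hx') (Ne.symm hy),
      swap_apply_right]
  rw [← mul_assoc (Equiv.swap x y), h1, mul_assoc (Equiv.swap e y), ← mul_assoc (Equiv.swap x' y), h2,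
    mul_assoc (Equiv.swap e x'), swap_sq, mul_assoc]

/-- an opening move can be undone. -/
theorem US.opn_inv {T : Finset X} {α β : Perm X} {x y : X} (hα : Sg T α) (hβ : Sg T β) (hx : x ∈ T) (hy : y ∈ T)
    (hxy : x ≠ y) : US T (Equiv.swap x y * α, Equiv.swap x y * β, x) (α, β, x) := by
  have key : ∀ γ : Perm X, Sg T γ → ∃ C, Cyc (Equiv.swap x y * γ) (x :: C) ∧ y ∉ x :: C := by
    rintro γ ⟨L, hL, hc⟩
    obtain ⟨M, hM⟩ := exists_rot_cons (l := L) (s := x) (by rw [← List.mem_toFinset, hL]; exact hx)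
    have h3 : y ∈ M := by
      have h4 : y ∈ x :: M := hM.mem_iff.mp (by rw [← List.mem_toFinset, hL]; exact hy)
      rcases List.mem_cons.mp h4 with h5 | h5
      · exact absurd h5.symm hxy
      · exact h5
    obtain ⟨P, Q, rfl⟩ := List.append_of_mem h3
    have h5 : Cyc γ ((x :: P) ++ (y :: Q)) := hc.rot hM
    refine ⟨P, h5.split.1, fun h' => ?_⟩
    exact (List.nodup_append.mp h5.1).2.2 y h' y (by simp) rfl
  obtain ⟨C, c1, c2⟩ := key α hα
  obtain ⟨D, c3, c4⟩ := key β hβ
  have h := US.cls _ _ x y C D hx hy c1 c2 c3 c4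
  rw [swap_sq, swap_sq] at h
  exact h

/-- the permutation of the second word. -/
theorem be_eq {D : Finset X} {e q : X} {ρ : Perm X} {x y : X} {A B : List X} (h : Cls D e q ρ (x :: A) (y :: B)) :
    al e q (x :: A) * (ρ * Equiv.swap e q)⁻¹ = Equiv.swap e x * (Equiv.swap y x * formPerm (y :: B)) := by
  rw [mul_inv_eq_iff_eq_mul, ← h.rh]
  have g1 : rho (x :: A) (y :: B) = (formPerm (y :: B))⁻¹ * Equiv.swap y x * formPerm (x :: A) := rfl
  have g2 : al e q (x :: A) = Equiv.swap e x * (formPerm (x :: A) * Equiv.swap e q) := rfl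
  rw [g1, g2]
  simp only [mul_assoc, mul_inv_cancel_left, swap_sq]

theorem sg_e {D : Finset X} {e q : X} {ρ : Perm X} {A B : List X} (h : Cls D e q ρ (e :: A) (B ++ [e])) :
    al e q (e :: A) = formPerm A ∧ al e q (e :: A) * (ρ * Equiv.swap e q)⁻¹ = formPerm B ∧
    Sg (D.erase e) (formPerm A) ∧ Sg (D.erase e) (formPerm B) := by
  obtain ⟨hst, -⟩ := h.st
  have h1 : al e q (e :: A) = formPerm A := al_e h.nodup h.lastA
  refine ⟨h1, ?_, ⟨A, hst.supp, cyc_self hst.nodup⟩, ⟨B, ?_, cyc_self hst.nodupB⟩⟩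
  · rw [h1, ← hst.rho]
    simp
  · rw [← hst.supp]
    exact (List.toFinset_eq_of_perm _ _ hst.perm).symm

theorem last_split {D : Finset X} {e q : X} {ρ : Perm X} {a b : List X} (h : Cls D e q ρ a b) : ∃ B, b = B ++ [e] := by
  rcases List.eq_nil_or_concat b with h0 | ⟨B, e', h1⟩
  · have := h.lastB
    rw [h0] at this
    simp at this
  · have := h.lastB
    rw [h1, List.concat_eq_append, List.getLast?_concat, Option.some.injEq] at this
    subst this
    exact ⟨B, by rw [h1, List.concat_eq_append]⟩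

theorem memT {D : Finset X} {e q : X} {ρ : Perm X} {a b : List X} (h : Cls D e q ρ a b) {t : X} (ht : t ∈ a)
    (hte : t ≠ e) : t ∈ D.erase e := by
  rw [Finset.mem_erase, ← h.supp, List.mem_toFinset]
  exact ⟨hte, ht⟩

theorem sg_e' {D : Finset X} {e q : X} {ρ : Perm X} {A b : List X} (h : Cls D e q ρ (e :: A) b) :
    Sg (D.erase e) (al e q (e :: A)) ∧ Sg (D.erase e) (al e q (e :: A) * (ρ * Equiv.swap e q)⁻¹) := by
  obtain ⟨B, rfl⟩ := last_split h
  obtain ⟨h1, h2, h3, h4⟩ := sg_e h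
  rw [h2, h1]
  exact ⟨h3, h4⟩

theorem be_cyc {D : Finset X} {e q : X} {ρ : Perm X} {x y : X} {A B : List X} (h : Cls D e q ρ (x :: A) (y :: B))
    (hx : x ≠ e) (hxy : x ≠ y) :
    ∃ C, Cyc (al e q (x :: A) * (ρ * Equiv.swap e q)⁻¹) (x :: C) ∧ y ∉ x :: C := by
  have h1 : x ∈ B := by
    have h2 : x ∈ y :: B := h.perm.subset (by simp)
    rcases List.mem_cons.mp h2 with h3 | h3
    · exact absurd h3 hxy
    · exact h3
  obtain ⟨V, W, rfl⟩ := List.append_of_mem h1
  obtain ⟨W', rfl⟩ : ∃ W', W = W' ++ [e] := by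
    have h2 := h.lastB
    have h3 : (y :: (V ++ x :: W)).getLast? = (x :: W).getLast? := by
      rw [← List.cons_append, List.getLast?_append]
      simp [List.getLast?_cons]
    rw [h3] at h2
    rcases List.eq_nil_or_concat W with h0 | ⟨B, e', h1⟩
    · rw [h0, List.getLast?_singleton, Option.some.injEq] at h2
      exact absurd h2 hx
    · rw [h1, List.concat_eq_append, ← List.cons_append, List.getLast?_concat, Option.some.injEq] at h2
      subst h2
      exact ⟨B, by rw [h1, List.concat_eq_append]⟩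
  have e1 : y :: (V ++ x :: (W' ++ [e])) = (y :: V) ++ (x :: (W' ++ [e])) := by simp
  have k := cyc_self h.nodupB
  rw [be_eq h]
  rw [e1] at k ⊢
  have k1 := k.split.2
  have e2 : x :: (W' ++ [e]) = (x :: W') ++ (e :: []) := by simp
  have k2 := k1
  rw [e2] at k2
  have k3 := k2.split.1
  rw [Equiv.swap_comm x e] at k3
  refine ⟨W', k3, fun h' => ?_⟩
  exact (List.nodup_append.mp k.1).2.2 y (by simp) y (by
    rw [e2]
    exact List.mem_append_left _ h') rfl

/-- from a word with head `e`. -/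
theorem mvB {D : Finset X} {e q : X} {ρ : Perm X} {x' y : X} {P Q R B : List X}
    (h : Cls D e q ρ ((e :: P ++ x' :: Q) ++ (y :: R)) (y :: B)) {z : X} (hz : z ∈ D.erase e) :
    ReflTransGen (US (D.erase e))
      (al e q ((e :: P ++ x' :: Q) ++ (y :: R)),
        al e q ((e :: P ++ x' :: Q) ++ (y :: R)) * (ρ * Equiv.swap e q)⁻¹, z)
      (al e q ((x' :: Q ++ e :: P) ++ (y :: R)),
        al e q ((x' :: Q ++ e :: P) ++ (y :: R)) * (ρ * Equiv.swap e q)⁻¹, x') := by
  have hn := h.nodup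
  have hx : x' ≠ e := by
    rintro rfl
    simp [List.nodup_append] at hn
  have hy : y ≠ e := by
    rintro rfl
    simp at hn
  have hxy : x' ≠ y := by
    rintro rfl
    simp [List.nodup_append] at hn
  have e1 : (e :: P ++ x' :: Q) ++ (y :: R) = e :: (P ++ x' :: Q ++ y :: R) := by simp
  have hs : Sg (D.erase e) (al e q ((e :: P ++ x' :: Q) ++ (y :: R))) ∧
      Sg (D.erase e) (al e q ((e :: P ++ x' :: Q) ++ (y :: R)) * (ρ * Equiv.swap e q)⁻¹) := by
    rw [e1] at h ⊢
    exact sg_e' h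
  have hx'T := memT h (t := x') (by simp) hx
  have hyT := memT h (t := y) (by simp) hy
  rw [al_rot_e hn, mul_assoc (Equiv.swap x' y)]
  exact (ReflTransGen.single (US.mark _ _ z x' hs.1 hs.2 hx'T)).tail (US.opn _ _ x' y hs.1 hs.2 hx'T hyT hxy)

/-- to a word with head `e`. -/
theorem mvC {D : Finset X} {e q : X} {ρ : Perm X} {x y : X} {P Q R B : List X}
    (h : Cls D e q ρ ((x :: P ++ e :: Q) ++ (y :: R)) (y :: B)) :
    Cls D e q ρ ((e :: Q ++ x :: P) ++ (y :: R)) (y :: B) ∧
    ReflTransGen (US (D.erase e))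
      (al e q ((x :: P ++ e :: Q) ++ (y :: R)),
        al e q ((x :: P ++ e :: Q) ++ (y :: R)) * (ρ * Equiv.swap e q)⁻¹, x)
      (al e q ((e :: Q ++ x :: P) ++ (y :: R)),
        al e q ((e :: Q ++ x :: P) ++ (y :: R)) * (ρ * Equiv.swap e q)⁻¹, x) := by
  have hsup : Sup ((x :: P ++ e :: Q) ++ (y :: R), y :: B) ((e :: Q ++ x :: P) ++ (y :: R), y :: B) :=
    supR_mk y B (x :: P) (e :: Q) R (by simp) (by simp)
  have h' : Cls D e q ρ ((e :: Q ++ x :: P) ++ (y :: R)) (y :: B) :=
    h.sup (s := ((x :: P ++ e :: Q) ++ (y :: R), y :: B)) hsup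
  have hn := h'.nodup
  refine ⟨h', ?_⟩
  have hx : x ≠ e := by
    rintro rfl
    simp [List.nodup_append] at hn
  have hy : y ≠ e := by
    rintro rfl
    simp at hn
  have hxy : x ≠ y := by
    rintro rfl
    simp [List.nodup_append] at hn
  have e1 : (e :: Q ++ x :: P) ++ (y :: R) = e :: (Q ++ x :: P ++ y :: R) := by simp
  have hs : Sg (D.erase e) (al e q ((e :: Q ++ x :: P) ++ (y :: R))) ∧
      Sg (D.erase e) (al e q ((e :: Q ++ x :: P) ++ (y :: R)) * (ρ * Equiv.swap e q)⁻¹) := by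
    rw [e1] at h' ⊢
    exact sg_e' h'
  have hxT := memT h (t := x) (by simp) hx
  have hyT := memT h (t := y) (by simp) hy
  rw [al_rot_e hn, mul_assoc (Equiv.swap x y)]
  exact ReflTransGen.single (US.opn_inv hs.1 hs.2 hxT hyT hxy)

/-- `e` is behind. -/
theorem mvD {D : Finset X} {e q : X} {ρ : Perm X} {x x' y : X} {P Q R W B : List X}
    (h : Cls D e q ρ ((x :: P ++ x' :: Q) ++ (y :: (R ++ e :: W))) (y :: B)) :
    US (D.erase e)
      (al e q ((x :: P ++ x' :: Q) ++ (y :: (R ++ e :: W))),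
        al e q ((x :: P ++ x' :: Q) ++ (y :: (R ++ e :: W))) * (ρ * Equiv.swap e q)⁻¹, x)
      (al e q ((x' :: Q ++ x :: P) ++ (y :: (R ++ e :: W))),
        al e q ((x' :: Q ++ x :: P) ++ (y :: (R ++ e :: W))) * (ρ * Equiv.swap e q)⁻¹, x') := by
  have hn := h.nodup
  have hxe : x ≠ e := by
    rintro rfl
    simp at hn
  have hxe' : x' ≠ e := by
    rintro rfl
    simp [List.nodup_append] at hn
  have hye : y ≠ e := by
    rintro rfl
    simp [List.nodup_append] at hn
  have hxx' : x ≠ x' := by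
    rintro rfl
    simp at hn
  have hxy : x ≠ y := by
    rintro rfl
    simp at hn
  have hxT := memT h (t := x) (by simp) hxe
  have hxT' := memT h (t := x') (by simp) hxe'
  have hyT := memT h (t := y) (by simp) hye
  have c1 : Cyc (al e q ((x :: P ++ x' :: Q) ++ (y :: (R ++ e :: W)))) (x :: P ++ x' :: Q ++ y :: R) := by
    have e1 : (x :: P ++ x' :: Q) ++ (y :: (R ++ e :: W)) = (x :: (P ++ x' :: Q ++ y :: R)) ++ (e :: W) := by simp
    have h1 := h.nodup
    have h2 := h.lastA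
    rw [e1] at h1 h2 ⊢
    exact cyc_al h1 h2
  obtain ⟨C, c2, c3⟩ := be_cyc (x := x) (y := y) (A := P ++ x' :: Q ++ (y :: (R ++ e :: W))) (B := B)
    (by simpa using h) hxe hxy
  rw [al_rot_ne hn hxe hxe' hye, mul_assoc (Equiv.swap x' y * Equiv.swap x y)]
  refine US.turn _ _ x x' y P Q R C hxT hxT' hyT c1 ?_ c3
  have e2 : (x :: P ++ x' :: Q) ++ (y :: (R ++ e :: W)) = x :: (P ++ x' :: Q ++ (y :: (R ++ e :: W))) := by simp
  rw [e2]
  exact c2

/-- the marked pair of a pair of words. -/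
def Up (e q : X) (ρ : Perm X) (a : List X) (z : X) : Perm X × Perm X × X :=
  (al e q a, al e q a * (ρ * Equiv.swap e q)⁻¹, z)

/-- a right super move. -/
theorem R_us {D : Finset X} {e q : X} {ρ : Perm X} {x x' y : X} {P Q R B : List X}
    (h : Cls D e q ρ ((x :: P ++ x' :: Q) ++ (y :: R)) (y :: B)) {z : X} (hz : z ∈ D.erase e)
    (hzx : x = e ∨ x = z) : ∃ z' ∈ D.erase e, (x' = e ∨ x' = z') ∧
    ReflTransGen (US (D.erase e)) (Up e q ρ ((x :: P ++ x' :: Q) ++ (y :: R)) z)
      (Up e q ρ ((x' :: Q ++ x :: P) ++ (y :: R)) z') := by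
  have hn := h.nodup
  by_cases hx : x = e
  · subst hx
    have hx' : x' ≠ x := by
      rintro rfl
      simp [List.nodup_append] at hn
    exact ⟨x', memT h (by simp) hx', Or.inr rfl, mvB h hz⟩
  have hzx' : x = z := hzx.resolve_left hx
  subst hzx'
  by_cases hx' : x' = e
  · subst hx'
    exact ⟨x, hz, Or.inl rfl, (mvC h).2⟩
  have hxT' := memT h (t := x') (by simp) hx'
  have he : e ∈ (x :: P ++ x' :: Q) ++ (y :: R) := h.perm.symm.subset (List.mem_of_getLast? h.lastB)
  have hne : y ≠ e := by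
    rintro rfl
    obtain ⟨B', hB⟩ := last_split h
    cases B' with
    | nil =>
      have h1 := h.perm.length_eq
      rw [hB] at h1
      simp at h1
    | cons t B' =>
      have h1 := h.nodupB
      rw [List.cons_append, List.cons.injEq] at hB
      rw [hB.2] at h1
      simp at h1
  have hcase : e ∈ P ∨ e ∈ Q ∨ e ∈ R := by
    simp only [List.mem_append, List.mem_cons] at he
    rcases he with (he | he | he) | he
    · tauto
    · tauto
    · tauto
    · tauto
  rcases hcase with h1 | h1 | h1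
  · obtain ⟨P1, P2, rfl⟩ := List.append_of_mem h1
    have e1 : (x :: (P1 ++ e :: P2) ++ x' :: Q) ++ (y :: R) = (x :: P1 ++ e :: (P2 ++ x' :: Q)) ++ (y :: R) := by
      simp
    have e2 : (e :: (P2 ++ x' :: Q) ++ x :: P1) ++ (y :: R) = (e :: P2 ++ x' :: (Q ++ x :: P1)) ++ (y :: R) := by
      simp
    have e3 : (x' :: Q ++ x :: (P1 ++ e :: P2)) ++ (y :: R) = (x' :: (Q ++ x :: P1) ++ e :: P2) ++ (y :: R) := by
      simp
    rw [e1] at h ⊢
    obtain ⟨h2, h3⟩ := mvC h
    rw [e2] at h2 h3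
    rw [e3]
    exact ⟨x', hxT', Or.inr rfl, h3.trans (mvB h2 hz)⟩
  · obtain ⟨Q1, Q2, rfl⟩ := List.append_of_mem h1
    have e1 : (x :: P ++ x' :: (Q1 ++ e :: Q2)) ++ (y :: R) = (x :: (P ++ x' :: Q1) ++ e :: Q2) ++ (y :: R) := by
      simp
    have e2 : (e :: Q2 ++ x :: (P ++ x' :: Q1)) ++ (y :: R) = (e :: (Q2 ++ x :: P) ++ x' :: Q1) ++ (y :: R) := by
      simp
    have e3 : (x' :: (Q1 ++ e :: Q2) ++ x :: P) ++ (y :: R) = (x' :: Q1 ++ e :: (Q2 ++ x :: P)) ++ (y :: R) := by
      simp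
    rw [e1] at h ⊢
    obtain ⟨h2, h3⟩ := mvC h
    rw [e2] at h2 h3
    rw [e3]
    exact ⟨x', hxT', Or.inr rfl, h3.trans (mvB h2 hz)⟩
  · obtain ⟨R1, R2, rfl⟩ := List.append_of_mem h1
    exact ⟨x', hxT', Or.inr rfl, ReflTransGen.single (mvD h)⟩

/-- a super move. -/
theorem Sup_us {D : Finset X} {e q : X} {ρ : Perm X} {s s' : List X × List X} (h : Cls D e q ρ s.1 s.2)
    (hs : Sup s s') {z : X} (hz : z ∈ D.erase e) (hzx : s.1.head? = some e ∨ s.1.head? = some z) :
    ∃ z' ∈ D.erase e, (s'.1.head? = some e ∨ s'.1.head? = some z') ∧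
      ReflTransGen (US (D.erase e)) (Up e q ρ s.1 z) (Up e q ρ s'.1 z') := by
  rcases hs with ⟨x, A, b1, b2, b3, rfl, rfl⟩ | ⟨y, B, c1, c2, c3, h1, h2⟩
  · exact ⟨z, hz, hzx, ReflTransGen.refl⟩
  · obtain ⟨a, b⟩ := s
    obtain ⟨a', b'⟩ := s'
    simp only [Prod.swap_prod_mk, Prod.mk.injEq] at h1 h2
    obtain ⟨rfl, rfl⟩ := h1
    obtain ⟨rfl, rfl⟩ := h2
    simp only at h hzx ⊢
    cases c1 with
    | nil => exact ⟨z, hz, hzx, ReflTransGen.refl⟩
    | cons x P =>
      cases c2 with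
      | nil => exact ⟨z, hz, hzx, ReflTransGen.refl⟩
      | cons x' Q =>
        rw [← List.append_assoc] at h hzx ⊢
        rw [← List.append_assoc]
        simp only [List.cons_append, List.head?_cons, Option.some.injEq] at hzx ⊢
        have := R_us (x := x) (P := P) (x' := x') (Q := Q) (y := y) (R := c3) (by simpa using h) hz hzx
        simpa using this

theorem Sup_us_reach {D : Finset X} {e q : X} {ρ : Perm X} {s s' : List X × List X} (h : Cls D e q ρ s.1 s.2)
    (hs : ReflTransGen Sup s s') {z : X} (hz : z ∈ D.erase e) (hzx : s.1.head? = some e ∨ s.1.head? = some z) :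
    ∃ z' ∈ D.erase e, (s'.1.head? = some e ∨ s'.1.head? = some z') ∧
      ReflTransGen (US (D.erase e)) (Up e q ρ s.1 z) (Up e q ρ s'.1 z') := by
  induction hs with
  | refl => exact ⟨z, hz, hzx, ReflTransGen.refl⟩
  | tail hab hbc ih =>
    obtain ⟨z', hz', hzx', h1⟩ := ih
    obtain ⟨z2, hz2, hzx2, h2⟩ := Sup_us (h.reach hab) hbc hz' hzx'
    exact ⟨z2, hz2, hzx2, h1.trans h2⟩

end Pool.Agent.helper51.UG
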