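import Pool.Agent.helper51.NF2.NF4

/-! The graph of marked pairs of permutations, and deletion of letters with the same image. -/

namespace Pool.Agent.helper51.UG

set_option linter.unusedSectionVars false

open Equiv Equiv.Perm List Pool.Agent.helper36.WE Pool.Agent.helper32.ATT Relation

variable {X : Type} [DecidableEq X]

/-- `L` is a cycle of `α`. -/
def Cyc (α : Perm X) (L : List X) : Prop := L.Nodup ∧ ∀ t ∈ L, α t = formPerm L t

theorem Cyc.rot {α : Perm X} {L L' : List X} (h : Cyc α L) (hr : L ~r L') : Cyc α L' := by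
  refine ⟨hr.nodup_iff.mp h.1, fun t ht => ?_⟩
  rw [h.2 t (hr.mem_iff.mpr ht), formPerm_eq_of_isRotated h.1 hr]

theorem Cyc.mem {α : Perm X} {L : List X} (h : Cyc α L) {t : X} (ht : t ∈ L) : α t ∈ L := by
  rw [h.2 t ht]
  exact formPerm_apply_mem_of_mem ht

theorem Cyc.head {α : Perm X} {x y : X} {L : List X} (h : Cyc α (x :: y :: L)) : α x = y := by
  rw [h.2 x (by simp), formPerm_apply_head x y L h.1]

theorem Cyc.mem_pow {α : Perm X} {L : List X} (h : Cyc α L) {t : X} (ht : t ∈ L) (i : ℕ) :
    (α ^ i) t ∈ L ∧ (α ^ i) t = (formPerm L ^ i) t := by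
  induction i with
  | zero => exact ⟨ht, rfl⟩
  | succ i ih =>
    rw [pow_succ', pow_succ', Perm.mul_apply, Perm.mul_apply]
    refine ⟨h.mem ih.1, ?_⟩
    rw [h.2 _ ih.1, ih.2]

theorem Cyc.get {α : Perm X} {x : X} {L : List X} (h : Cyc α (x :: L)) {i : ℕ} (hi : i < (x :: L).length) :
    (α ^ i) x = (x :: L)[i] := by
  rw [(h.mem_pow (t := x) (by simp) i).2, formPerm_pow_apply_head x L h.1 i]
  congr 1
  exact Nat.mod_eq_of_lt hi

theorem Cyc.period {α : Perm X} {x : X} {L : List X} (h : Cyc α (x :: L)) :
    (α ^ (x :: L).length) x = x := by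
  rw [(h.mem_pow (t := x) (by simp) _).2, formPerm_pow_apply_head x L h.1 _]
  simp only [Nat.mod_self]
  rfl

theorem Cyc.uniq {α : Perm X} {x : X} {L L' : List X} (h : Cyc α (x :: L)) (h' : Cyc α (x :: L')) : L = L' := by
  have key : ∀ {L L' : List X}, Cyc α (x :: L) → Cyc α (x :: L') → ¬ (x :: L).length < (x :: L').length := by
    intro L L' h h' hlt
    have h1 := h'.get hlt
    rw [h.period] at h1
    have h2 : (x :: L')[0]'(by simp) = (x :: L')[(x :: L).length]'hlt := h1
    have h3 := (h'.1.getElem_inj_iff).mp h2
    simp at h3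
  have hlen : (x :: L).length = (x :: L').length := by
    have h1 := key h h'
    have h2 := key h' h
    omega
  have h3 : x :: L = x :: L' := by
    refine List.ext_getElem hlen ?_
    intro i hi hi'
    rw [← h.get hi, ← h'.get hi']
  exact (List.cons.inj h3).2

theorem Cyc.rot_of_mem {α : Perm X} {t : X} {L L' : List X} (h : Cyc α L) (h' : Cyc α L') (ht : t ∈ L) (ht' : t ∈ L') :
    L ~r L' := by
  obtain ⟨M, hM⟩ := exists_rot_cons ht
  obtain ⟨M', hM'⟩ := exists_rot_cons ht'
  have h1 := (h.rot hM).uniq (h'.rot hM')
  subst h1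
  exact hM.trans hM'.symm

/-- a single cycle on `T`. -/
def Sg (T : Finset X) (α : Perm X) : Prop := ∃ L : List X, L.toFinset = T ∧ Cyc α L

theorem filter_ne {f : X} {L : List X} (h : f ∉ L) : L.filter (fun s => decide (s ≠ f)) = L := by
  rw [List.filter_eq_self]
  intro t ht
  exact decide_eq_true (fun h' => h (h' ▸ ht))

/-- deletion of a letter from a cycle. -/
theorem Cyc.del {α : Perm X} {L : List X} (h : Cyc α L) (f : X) :
    Cyc (swap f (α f) * α) (L.filter (fun s => decide (s ≠ f))) := by
  by_cases hf : f ∈ L
  · obtain ⟨M, hM⟩ := exists_rot_cons hf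
    have h1 := h.rot hM
    have hfM : f ∉ M := (List.nodup_cons.mp h1.1).1
    have h2 : L.filter (fun s => decide (s ≠ f)) ~r M := by
      have h3 := rot_filter hM (fun s => decide (s ≠ f))
      rw [List.filter_cons_of_neg (by simp), filter_ne hfM] at h3
      exact h3
    refine Cyc.rot ?_ h2.symm
    refine ⟨(List.nodup_cons.mp h1.1).2, ?_⟩
    intro t ht
    cases M with
    | nil => simp at ht
    | cons g M =>
      rw [h1.head, Perm.mul_apply, h1.2 t (List.mem_cons_of_mem _ ht), formPerm_cons_cons, ← Perm.mul_apply,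
        ← mul_assoc, swap_mul_self, one_mul]
  · rw [filter_ne hf]
    refine ⟨h.1, fun t ht => ?_⟩
    rw [Perm.mul_apply, swap_apply_of_ne_of_ne ?_ ?_, h.2 t ht]
    · intro h1
      exact hf (h1 ▸ h.mem ht)
    · intro h1
      have : t = f := α.injective h1
      exact hf (this ▸ ht)

theorem Sg.del {T : Finset X} {α : Perm X} (h : Sg T α) (f : X) : Sg (T.erase f) (swap f (α f) * α) := by
  obtain ⟨L, h1, h2⟩ := h
  refine ⟨_, ?_, h2.del f⟩
  ext t
  rw [List.mem_toFinset, List.mem_filter, Finset.mem_erase, ← h1, List.mem_toFinset, decide_eq_true_iff]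
  exact and_comm

/-- one step in the graph of the marked pairs of permutations. -/
inductive US (T : Finset X) : Perm X × Perm X × X → Perm X × Perm X × X → Prop
  | mark (α β : Perm X) (x x' : X) (hα : Sg T α) (hβ : Sg T β) (hx' : x' ∈ T) : US T (α, β, x) (α, β, x')
  | opn (α β : Perm X) (x y : X) (hα : Sg T α) (hβ : Sg T β) (hx : x ∈ T) (hy : y ∈ T) (hxy : x ≠ y) :
      US T (α, β, x) (swap x y * α, swap x y * β, x)
  | cls (α β : Perm X) (x y : X) (C D : List X) (hx : x ∈ T) (hy : y ∈ T) (h1 : Cyc α (x :: C)) (h2 : y ∉ x :: C)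
      (h3 : Cyc β (x :: D)) (h4 : y ∉ x :: D) : US T (α, β, x) (swap x y * α, swap x y * β, x)
  | turn (α β : Perm X) (x x' y : X) (P Q R D : List X) (hx : x ∈ T) (hx' : x' ∈ T) (hy : y ∈ T)
      (h1 : Cyc α (x :: P ++ x' :: Q ++ y :: R)) (h2 : Cyc β (x :: D)) (h3 : y ∉ x :: D) :
      US T (α, β, x) (swap x' y * swap x y * α, swap x' y * swap x y * β, x')

/-- `w` is `v` after deletion of `f`. -/
def Del (T : Finset X) (f : X) (v w : Perm X × Perm X × X) : Prop :=
  v.1 f = v.2.1 f ∧ w.1 = swap f (v.1 f) * v.1 ∧ w.2.1 = swap f (v.1 f) * v.2.1 ∧ w.2.2 ∈ T.erase f ∧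
    (w.2.2 = (if v.2.2 = f then v.1 f else v.2.2) ∨ (Sg (T.erase f) w.1 ∧ Sg (T.erase f) w.2.1))

/-- states over `T`. -/
def UT (T : Finset X) (v : Perm X × Perm X × X) : Prop := v.2.2 ∈ T ∧ ∀ t ∈ T, v.1 t ∈ T

theorem swap_mem {T : Finset X} {x y t : X} (hx : x ∈ T) (hy : y ∈ T) (ht : t ∈ T) : swap x y t ∈ T := by
  by_cases h1 : t = x
  · rw [h1, swap_apply_left]; exact hy
  by_cases h2 : t = y
  · rw [h2, swap_apply_right]; exact hx
  rw [swap_apply_of_ne_of_ne h1 h2]
  exact ht

theorem US.ut {T : Finset X} {v v' : Perm X × Perm X × X} (h : US T v v') (hv : UT T v) : UT T v' := by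
  cases h with
  | mark α β x x' hα hβ hx' => exact ⟨hx', hv.2⟩
  | opn α β x y hα hβ hx hy hxy => exact ⟨hx, fun t ht => swap_mem hx hy (hv.2 t ht)⟩
  | cls α β x y C D hx hy h1 h2 h3 h4 => exact ⟨hx, fun t ht => swap_mem hx hy (hv.2 t ht)⟩
  | turn α β x x' y P Q R D hx hx' hy h1 h2 h3 =>
    exact ⟨hx', fun t ht => swap_mem hx' hy (swap_mem hx hy (hv.2 t ht))⟩

theorem del_comm (h : Perm X) {f g : X} (hf : h f = f) : swap f (h g) * h = h * swap f g := by
  rw [mul_swap_eq_swap_mul, hf]

/-- the mark can be moved to its place. -/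
theorem Del.fix {T : Finset X} {f : X} {v w : Perm X × Perm X × X} (h : Del T f v w)
    (hx : (if v.2.2 = f then v.1 f else v.2.2) ∈ T.erase f) :
    ReflTransGen (US (T.erase f)) w (w.1, w.2.1, if v.2.2 = f then v.1 f else v.2.2) := by
  obtain ⟨h1, h2, h3, h4, h5⟩ := h
  rcases h5 with h5 | ⟨h5, h6⟩
  · rw [← h5]
  · exact ReflTransGen.single (US.mark _ _ _ _ h5 h6 hx)

theorem swap3a {f g y : X} (h1 : y ≠ f) (h2 : y ≠ g) : swap f g * swap f y = swap g y * swap f g := by
  rw [mul_swap_eq_swap_mul, swap_apply_left, swap_apply_of_ne_of_ne h1 h2]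

theorem swap3b {f g x : X} (h1 : x ≠ f) (h2 : x ≠ g) : swap f g * swap x f = swap x g * swap f g := by
  rw [mul_swap_eq_swap_mul, swap_apply_left, swap_apply_of_ne_of_ne h1 h2]

theorem swap_ff (f : X) (γ : Perm X) : Equiv.swap f f * γ = γ := by
  rw [Equiv.swap_self]
  rfl

theorem swap_sq (x y : X) (α : Perm X) : swap x y * (swap x y * α) = α := by
  rw [← mul_assoc, swap_mul_self, one_mul]

theorem Cyc.ne {α : Perm X} {x y : X} {L : List X} (h : Cyc α (x :: L)) (hy : y ∉ x :: L) : α x ≠ y :=
  fun h' => hy (h' ▸ h.mem (by simp))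

theorem Cyc.notMem {α : Perm X} {y : X} {L : List X} (h : Cyc α L) (hy : y ∉ L) : α y ∉ L := by
  intro h'
  obtain ⟨M, hM⟩ := exists_rot_cons h'
  have h1 := h.rot hM
  -- the last letter of `αy :: M` is mapped to `αy`
  have h2 := h1.period
  rw [List.length_cons, pow_succ', Perm.mul_apply] at h2
  have h3 : (α ^ M.length) (α y) = y := α.injective h2
  have h4 := (h1.mem_pow (t := α y) (by simp) M.length).1
  rw [h3] at h4
  exact hy (hM.mem_iff.mpr h4)

theorem filter_cons_ne {f x : X} {L : List X} (h : x ≠ f) :
    (x :: L).filter (fun s => decide (s ≠ f)) = x :: L.filter (fun s => decide (s ≠ f)) :=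
  List.filter_cons_of_pos (by simpa using h)

theorem notMem_filter {f y : X} {L : List X} (h : y ∉ L) : y ∉ L.filter (fun s => decide (s ≠ f)) :=
  fun h' => h (List.mem_filter.mp h').1

/-- **Deletion of a letter.** -/
theorem US.del {T : Finset X} {f : X} (hf : f ∈ T) {v v' : Perm X × Perm X × X} (h : US T v v') (hv : UT T v)
    {w : Perm X × Perm X × X} (hw : Del T f v w) : ∃ w', Del T f v' w' ∧ ReflTransGen (US (T.erase f)) w w' := by
  obtain ⟨w1, w2, wx⟩ := w
  cases h with
  | mark α β x x' hα hβ hx' =>
    obtain ⟨h1, h2, h3, h4, -⟩ := hw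
    simp only at h1 h2 h3 h4
    refine ⟨(w1, w2, wx), ⟨h1, h2, h3, h4, Or.inr ⟨?_, ?_⟩⟩, ReflTransGen.refl⟩
    · show Sg _ w1
      rw [h2]
      exact hα.del f
    · show Sg _ w2
      rw [h3, h1]
      exact hβ.del f
  | opn α β x y hα hβ hx hy hxy =>
    obtain ⟨h1, h2, h3, h4, -⟩ := hw
    simp only at h1 h2 h3 h4
    have s1 : Sg (T.erase f) w1 := by rw [h2]; exact hα.del f
    have s2 : Sg (T.erase f) w2 := by rw [h3, h1]; exact hβ.del f
    obtain ⟨g, hg⟩ : ∃ g, g = α f := ⟨_, rfl⟩
    have hgβ : g = β f := hg.trans h1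
    rw [← hg] at h2 h3
    have hgT : g ∈ T := hg ▸ hv.2 f hf
    have hgf : g ≠ f := by
      intro h'
      obtain ⟨L, hL, hc⟩ := hα
      have hfL : f ∈ L := by rw [← List.mem_toFinset, hL]; exact hf
      obtain ⟨M, hM⟩ := exists_rot_cons hfL
      have hc' := hc.rot hM
      cases M with
      | nil =>
        have h5 := (Finset.mem_erase.mp h4)
        have h6 : wx ∈ L := by rw [← List.mem_toFinset, hL]; exact h5.2
        have h7 := hM.mem_iff.mp h6
        simp only [List.mem_singleton] at h7
        exact h5.1 h7
      | cons g' M =>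
        have h5 := hc'.head
        rw [← hg, h'] at h5
        have h6 := hc'.1
        rw [h5] at h6
        simp at h6
    by_cases hfx : f = x
    · subst hfx
      by_cases hgy : g = y
      · subst hgy
        refine ⟨(w1, w2, wx), ⟨?_, ?_, ?_, h4, Or.inr ⟨s1, s2⟩⟩, ReflTransGen.refl⟩
        · show (swap f g * α) f = (swap f g * β) f
          rw [Perm.mul_apply, Perm.mul_apply, ← hg, ← hgβ]
        · show w1 = swap f ((swap f g * α) f) * (swap f g * α)
          rw [Perm.mul_apply, ← hg, swap_apply_right, swap_ff, h2]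
        · show w2 = swap f ((swap f g * α) f) * (swap f g * β)
          rw [Perm.mul_apply, ← hg, swap_apply_right, swap_ff, h3]
      · have e1 : (swap f y * α) f = g := by
          rw [Perm.mul_apply, ← hg, swap_apply_of_ne_of_ne hgf hgy]
        have e2 : (swap f y * β) f = g := by
          rw [Perm.mul_apply, ← hgβ, swap_apply_of_ne_of_ne hgf hgy]
        have hgE : g ∈ T.erase f := Finset.mem_erase.mpr ⟨hgf, hgT⟩
        refine ⟨(swap g y * w1, swap g y * w2, g), ⟨?_, ?_, ?_, hgE, Or.inl ?_⟩,
          (ReflTransGen.single (US.mark w1 w2 wx g s1 s2 hgE)).tail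
            (US.opn w1 w2 g y s1 s2 hgE (Finset.mem_erase.mpr ⟨Ne.symm hxy, hy⟩) hgy)⟩
        · show (swap f y * α) f = (swap f y * β) f
          rw [e1, e2]
        · show swap g y * w1 = swap f ((swap f y * α) f) * (swap f y * α)
          rw [e1, h2, ← mul_assoc, ← mul_assoc, swap3a (Ne.symm hxy) (Ne.symm hgy)]
        · show swap g y * w2 = swap f ((swap f y * α) f) * (swap f y * β)
          rw [e1, h3, ← mul_assoc, ← mul_assoc, swap3a (Ne.symm hxy) (Ne.symm hgy)]
        · show g = if f = f then (swap f y * α) f else f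
          rw [if_pos rfl, e1]
    by_cases hfy : f = y
    · subst hfy
      have hxE : x ∈ T.erase f := Finset.mem_erase.mpr ⟨hxy, hx⟩
      by_cases hgx : g = x
      · subst hgx
        refine ⟨(w1, w2, g), ⟨?_, ?_, ?_, hxE, Or.inr ⟨s1, s2⟩⟩, ReflTransGen.single (US.mark w1 w2 wx g s1 s2 hxE)⟩
        · show (swap g f * α) f = (swap g f * β) f
          rw [Perm.mul_apply, Perm.mul_apply, ← hg, ← hgβ]
        · show w1 = swap f ((swap g f * α) f) * (swap g f * α)
          rw [Perm.mul_apply, ← hg, swap_apply_left, swap_ff, h2, Equiv.swap_comm]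
        · show w2 = swap f ((swap g f * α) f) * (swap g f * β)
          rw [Perm.mul_apply, ← hg, swap_apply_left, swap_ff, h3, Equiv.swap_comm]
      · have e1 : (swap x f * α) f = g := by
          rw [Perm.mul_apply, ← hg, swap_apply_of_ne_of_ne hgx hgf]
        have e2 : (swap x f * β) f = g := by
          rw [Perm.mul_apply, ← hgβ, swap_apply_of_ne_of_ne hgx hgf]
        refine ⟨(swap x g * w1, swap x g * w2, x), ⟨?_, ?_, ?_, hxE, Or.inl ?_⟩,
          (ReflTransGen.single (US.mark w1 w2 wx x s1 s2 hxE)).tail
            (US.opn w1 w2 x g s1 s2 hxE (Finset.mem_erase.mpr ⟨hgf, hgT⟩) (Ne.symm hgx))⟩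
        · show (swap x f * α) f = (swap x f * β) f
          rw [e1, e2]
        · show swap x g * w1 = swap f ((swap x f * α) f) * (swap x f * α)
          rw [e1, h2, ← mul_assoc, ← mul_assoc, swap3b hxy (Ne.symm hgx)]
        · show swap x g * w2 = swap f ((swap x f * α) f) * (swap x f * β)
          rw [e1, h3, ← mul_assoc, ← mul_assoc, swap3b hxy (Ne.symm hgx)]
        · show x = if x = f then (swap x f * α) f else x
          rw [if_neg hxy]
    · have hxE : x ∈ T.erase f := Finset.mem_erase.mpr ⟨Ne.symm hfx, hx⟩
      have hyE : y ∈ T.erase f := Finset.mem_erase.mpr ⟨Ne.symm hfy, hy⟩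
      have hsf : swap x y f = f := swap_apply_of_ne_of_ne hfx hfy
      refine ⟨(swap x y * w1, swap x y * w2, x), ⟨?_, ?_, ?_, hxE, Or.inl ?_⟩,
          (ReflTransGen.single (US.mark w1 w2 wx x s1 s2 hxE)).tail (US.opn w1 w2 x y s1 s2 hxE hyE hxy)⟩
      · show (swap x y * α) f = (swap x y * β) f
        rw [Perm.mul_apply, Perm.mul_apply, ← hg, ← hgβ]
      · show swap x y * w1 = swap f ((swap x y * α) f) * (swap x y * α)
        rw [Perm.mul_apply, ← hg, ← mul_assoc, del_comm _ hsf, h2, mul_assoc]
      · show swap x y * w2 = swap f ((swap x y * α) f) * (swap x y * β)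
        rw [Perm.mul_apply, ← hg, ← mul_assoc, del_comm _ hsf, h3, mul_assoc]
      · show x = if x = f then (swap x y * α) f else x
        rw [if_neg (Ne.symm hfx)]
  | cls α β x y C D hx hy c1 c2 c3 c4 =>
    have hw' := hw
    obtain ⟨h1, h2, h3, h4, h5⟩ := hw
    simp only at h1 h2 h3 h4 h5
    obtain ⟨g, hg⟩ : ∃ g, g = α f := ⟨_, rfl⟩
    have hgβ : g = β f := hg.trans h1
    rw [← hg] at h2 h3
    have hgT : g ∈ T := hg ▸ hv.2 f hf
    have hxy : x ≠ y := fun h => c2 (by rw [h]; simp)
    by_cases hfx : f = x
    · subst hfx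
      have hyE : y ∈ T.erase f := Finset.mem_erase.mpr ⟨Ne.symm hxy, hy⟩
      have hgy : g ≠ y := hg ▸ c1.ne c2
      by_cases hgf : g = f
      · have h6 : Sg (T.erase f) w1 ∧ Sg (T.erase f) w2 := by
          rcases h5 with h5 | h5
          · rw [if_pos rfl, ← hg, hgf] at h5
            rw [h5] at h4
            exact absurd rfl (Finset.mem_erase.mp h4).1
          · exact h5
        have e1 : (swap f y * α) f = y := by rw [Perm.mul_apply, ← hg, hgf, swap_apply_left]
        have e2 : (swap f y * β) f = y := by rw [Perm.mul_apply, ← hgβ, hgf, swap_apply_left]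
        refine ⟨(w1, w2, y), ⟨?_, ?_, ?_, hyE, Or.inr h6⟩, ReflTransGen.single (US.mark w1 w2 wx y h6.1 h6.2 hyE)⟩
        · show (swap f y * α) f = (swap f y * β) f
          rw [e1, e2]
        · show w1 = swap f ((swap f y * α) f) * (swap f y * α)
          rw [e1, swap_sq, h2, hgf, swap_ff]
        · show w2 = swap f ((swap f y * α) f) * (swap f y * β)
          rw [e1, swap_sq, h3, hgf, swap_ff]
      · have hgE : g ∈ T.erase f := Finset.mem_erase.mpr ⟨hgf, hgT⟩
        have hm := hw'.fix (by
          show (if f = f then α f else f) ∈ T.erase f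
          rw [if_pos rfl, ← hg]; exact hgE)
        have hm' : ReflTransGen (US (T.erase f)) (w1, w2, wx) (w1, w2, g) := by
          have e : (if f = f then α f else f) = g := by rw [if_pos rfl, hg]
          have h6 : ReflTransGen (US (T.erase f)) (w1, w2, wx) (w1, w2, if f = f then α f else f) := hm
          rw [e] at h6
          exact h6
        have e1 : (swap f y * α) f = g := by rw [Perm.mul_apply, ← hg, swap_apply_of_ne_of_ne hgf hgy]
        have e2 : (swap f y * β) f = g := by rw [Perm.mul_apply, ← hgβ, swap_apply_of_ne_of_ne hgf hgy]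
        -- the cycles of `g`
        have cy : ∀ (γ : Perm X) (E : List X), γ f = g → Cyc γ (f :: E) → y ∉ f :: E →
            ∃ E', Cyc (swap f g * γ) (g :: E') ∧ y ∉ g :: E' := by
          intro γ E hγ hc hyE
          cases E with
          | nil =>
            exfalso
            have h6 := hc.mem (t := f) (by simp)
            rw [hγ] at h6
            exact hgf (by simpa using h6)
          | cons g' E =>
            have h6 := hc.head
            rw [hγ] at h6
            subst h6
            have h7 := hc.del f
            rw [hγ, List.filter_cons_of_neg (by simp), filter_ne (List.nodup_cons.mp hc.1).1] at h7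
            exact ⟨E, h7, fun h => hyE (List.mem_cons_of_mem _ h)⟩
        obtain ⟨C', k1, k2⟩ := cy α C hg.symm c1 c2
        obtain ⟨D', k3, k4⟩ := cy β D hgβ.symm c3 c4
        rw [← h2] at k1
        rw [← h3] at k3
        refine ⟨(swap g y * w1, swap g y * w2, g), ⟨?_, ?_, ?_, hgE, Or.inl ?_⟩,
          hm'.tail (US.cls w1 w2 g y C' D' hgE hyE k1 k2 k3 k4)⟩
        · show (swap f y * α) f = (swap f y * β) f
          rw [e1, e2]
        · show swap g y * w1 = swap f ((swap f y * α) f) * (swap f y * α)
          rw [e1, h2, ← mul_assoc, ← mul_assoc, swap3a (Ne.symm hxy) (Ne.symm hgy)]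
        · show swap g y * w2 = swap f ((swap f y * α) f) * (swap f y * β)
          rw [e1, h3, ← mul_assoc, ← mul_assoc, swap3a (Ne.symm hxy) (Ne.symm hgy)]
        · show g = if f = f then (swap f y * α) f else f
          rw [if_pos rfl, e1]
    have hxE : x ∈ T.erase f := Finset.mem_erase.mpr ⟨Ne.symm hfx, hx⟩
    have hm' : ReflTransGen (US (T.erase f)) (w1, w2, wx) (w1, w2, x) := by
      have e : (if x = f then α f else x) = x := if_neg (Ne.symm hfx)
      have h6 : ReflTransGen (US (T.erase f)) (w1, w2, wx) (w1, w2, if x = f then α f else x) :=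
        hw'.fix (by
          show (if x = f then α f else x) ∈ T.erase f
          rw [e]; exact hxE)
      rw [e] at h6
      exact h6
    by_cases hfy : f = y
    · subst hfy
      by_cases hgf : g = f
      · have e1 : (swap x f * α) f = x := by rw [Perm.mul_apply, ← hg, hgf, swap_apply_right]
        have e2 : (swap x f * β) f = x := by rw [Perm.mul_apply, ← hgβ, hgf, swap_apply_right]
        refine ⟨(w1, w2, x), ⟨?_, ?_, ?_, hxE, Or.inl ?_⟩, hm'⟩
        · show (swap x f * α) f = (swap x f * β) f
          rw [e1, e2]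
        · show w1 = swap f ((swap x f * α) f) * (swap x f * α)
          rw [e1, Equiv.swap_comm f x, swap_sq, h2, hgf, swap_ff]
        · show w2 = swap f ((swap x f * α) f) * (swap x f * β)
          rw [e1, Equiv.swap_comm f x, swap_sq, h3, hgf, swap_ff]
        · show x = if x = f then (swap x f * α) f else x
          rw [if_neg hxy]
      · have hgx : g ≠ x := by
          intro h'
          apply c1.notMem c2
          rw [← hg, h']
          simp
        have e1 : (swap x f * α) f = g := by rw [Perm.mul_apply, ← hg, swap_apply_of_ne_of_ne hgx hgf]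
        have e2 : (swap x f * β) f = g := by rw [Perm.mul_apply, ← hgβ, swap_apply_of_ne_of_ne hgx hgf]
        have k1 := c1.del f
        rw [filter_ne c2, ← hg, ← h2] at k1
        have k3 := c3.del f
        rw [filter_ne c4, ← hgβ, ← h3] at k3
        have k2 : g ∉ x :: C := hg ▸ c1.notMem c2
        have k4 : g ∉ x :: D := hgβ ▸ c3.notMem c4
        refine ⟨(swap x g * w1, swap x g * w2, x), ⟨?_, ?_, ?_, hxE, Or.inl ?_⟩,
          hm'.tail (US.cls w1 w2 x g C D hxE (Finset.mem_erase.mpr ⟨hgf, hgT⟩) k1 k2 k3 k4)⟩
        · show (swap x f * α) f = (swap x f * β) f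
          rw [e1, e2]
        · show swap x g * w1 = swap f ((swap x f * α) f) * (swap x f * α)
          rw [e1, h2, ← mul_assoc, ← mul_assoc, swap3b hxy (Ne.symm hgx)]
        · show swap x g * w2 = swap f ((swap x f * α) f) * (swap x f * β)
          rw [e1, h3, ← mul_assoc, ← mul_assoc, swap3b hxy (Ne.symm hgx)]
        · show x = if x = f then (swap x f * α) f else x
          rw [if_neg hxy]
    · have hyE : y ∈ T.erase f := Finset.mem_erase.mpr ⟨Ne.symm hfy, hy⟩
      have hsf : swap x y f = f := swap_apply_of_ne_of_ne hfx hfy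
      have k1 := c1.del f
      rw [filter_cons_ne (Ne.symm hfx), ← hg, ← h2] at k1
      have k3 := c3.del f
      rw [filter_cons_ne (Ne.symm hfx), ← hgβ, ← h3] at k3
      have k2 := notMem_filter (f := f) c2
      rw [filter_cons_ne (Ne.symm hfx)] at k2
      have k4 := notMem_filter (f := f) c4
      rw [filter_cons_ne (Ne.symm hfx)] at k4
      refine ⟨(swap x y * w1, swap x y * w2, x), ⟨?_, ?_, ?_, hxE, Or.inl ?_⟩,
          hm'.tail (US.cls w1 w2 x y _ _ hxE hyE k1 k2 k3 k4)⟩
      · show (swap x y * α) f = (swap x y * β) f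
        rw [Perm.mul_apply, Perm.mul_apply, ← hg, ← hgβ]
      · show swap x y * w1 = swap f ((swap x y * α) f) * (swap x y * α)
        rw [Perm.mul_apply, ← hg, ← mul_assoc, del_comm _ hsf, h2, mul_assoc]
      · show swap x y * w2 = swap f ((swap x y * α) f) * (swap x y * β)
        rw [Perm.mul_apply, ← hg, ← mul_assoc, del_comm _ hsf, h3, mul_assoc]
      · show x = if x = f then (swap x y * α) f else x
        rw [if_neg (Ne.symm hfx)]
  | turn α β x x' y P Q R D hx hx' hy c1 c2 c3 =>
    have hw' := hw
    obtain ⟨h1, h2, h3, h4, -⟩ := hw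
    simp only at h1 h2 h3 h4
    obtain ⟨g, hg⟩ : ∃ g, g = α f := ⟨_, rfl⟩
    have hgβ : g = β f := hg.trans h1
    rw [← hg] at h2 h3
    have hgT : g ∈ T := hg ▸ hv.2 f hf
    have hnd := c1.1
    have hxx' : x ≠ x' := by
      rintro rfl
      simp at hnd
    have hxy : x ≠ y := by
      rintro rfl
      simp at hnd
    have hx'y : x' ≠ y := by
      rintro rfl
      simp [List.nodup_append] at hnd
    have hfix : x ≠ f → ReflTransGen (US (T.erase f)) (w1, w2, wx) (w1, w2, x) := by
      intro hxf
      have e : (if x = f then α f else x) = x := if_neg hxf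
      have h6 : ReflTransGen (US (T.erase f)) (w1, w2, wx) (w1, w2, if x = f then α f else x) :=
        hw'.fix (by
          show (if x = f then α f else x) ∈ T.erase f
          rw [e]; exact Finset.mem_erase.mpr ⟨hxf, hx⟩)
      rw [e] at h6
      exact h6
    by_cases hfx : f = x
    · subst hfx
      have hyE : y ∈ T.erase f := Finset.mem_erase.mpr ⟨Ne.symm hxy, hy⟩
      have hx'E : x' ∈ T.erase f := Finset.mem_erase.mpr ⟨Ne.symm hxx', hx'⟩
      have hgf : g ≠ f := by
        intro h'
        cases P with
        | nil =>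
          have h6 : α f = x' := Cyc.head (L := Q ++ y :: R) (by simpa using c1)
          exact hxx' (by rw [← h6, ← hg, h'])
        | cons g' P =>
          have h6 : α f = g' := Cyc.head (L := P ++ x' :: Q ++ y :: R) (by simpa using c1)
          rw [← hg, h'] at h6
          rw [← h6] at hnd
          simp at hnd
      have hgy : g ≠ y := by
        rw [hgβ]
        exact c2.ne c3
      have hgE : g ∈ T.erase f := Finset.mem_erase.mpr ⟨hgf, hgT⟩
      have hm' : ReflTransGen (US (T.erase f)) (w1, w2, wx) (w1, w2, g) := by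
        have e : (if f = f then α f else f) = g := by rw [if_pos rfl, hg]
        have h6 : ReflTransGen (US (T.erase f)) (w1, w2, wx) (w1, w2, if f = f then α f else f) :=
          hw'.fix (by
            show (if f = f then α f else f) ∈ T.erase f
            rw [e]; exact hgE)
        rw [e] at h6
        exact h6
      cases P with
      | nil =>
        have hgx' : g = x' := by
          rw [hg]
          exact Cyc.head (L := Q ++ y :: R) (by simpa using c1)
        subst hgx'
        have e0 : ∀ γ : Perm X, γ f = g → (swap g y * swap f y * γ) f = y := by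
          intro γ h
          rw [Perm.mul_apply, Perm.mul_apply, h, swap_apply_of_ne_of_ne hgf hgy, swap_apply_left]
        have e3 : ∀ γ : Perm X, swap f y * (swap g y * swap f y * γ) = swap f g * γ := by
          intro γ
          rw [← mul_assoc, ← mul_assoc, mul_swap_eq_swap_mul (swap f y) g y, swap_apply_right,
            swap_apply_of_ne_of_ne hgf hgy, mul_assoc (swap g f), swap_mul_self, mul_one, Equiv.swap_comm g f]
        refine ⟨(w1, w2, g), ⟨?_, ?_, ?_, hgE, Or.inl ?_⟩, hm'⟩
        · show (swap g y * swap f y * α) f = (swap g y * swap f y * β) f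
          rw [e0 α hg.symm, e0 β hgβ.symm]
        · show w1 = swap f ((swap g y * swap f y * α) f) * (swap g y * swap f y * α)
          rw [e0 α hg.symm, e3, h2]
        · show w2 = swap f ((swap g y * swap f y * α) f) * (swap g y * swap f y * β)
          rw [e0 α hg.symm, e3, h3]
        · show g = if g = f then (swap g y * swap f y * α) f else g
          rw [if_neg hgf]
      | cons g' P =>
        have hgg : g = g' := by
          rw [hg]
          exact Cyc.head (L := P ++ x' :: Q ++ y :: R) (by simpa using c1)
        subst hgg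
        have hgx' : g ≠ x' := by
          rintro rfl
          simp at hnd
        have e0 : ∀ γ : Perm X, γ f = g → (swap x' y * swap f y * γ) f = g := by
          intro γ h
          rw [Perm.mul_apply, Perm.mul_apply, h, swap_apply_of_ne_of_ne hgf hgy, swap_apply_of_ne_of_ne hgx' hgy]
        have e3 : ∀ γ : Perm X, swap f g * (swap x' y * swap f y * γ) = swap x' y * swap g y * (swap f g * γ) := by
          intro γ
          rw [← mul_assoc, ← mul_assoc, mul_swap_eq_swap_mul (swap f g) x' y,
            swap_apply_of_ne_of_ne (Ne.symm hxx') (Ne.symm hgx'), swap_apply_of_ne_of_ne (Ne.symm hxy) (Ne.symm hgy),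
            mul_assoc (swap x' y), swap3a (Ne.symm hxy) (Ne.symm hgy)]
          simp only [mul_assoc]
        have k1 := c1.del f
        have e4 : (f :: (g :: P) ++ x' :: Q ++ y :: R).filter (fun s => decide (s ≠ f)) = g :: P ++ x' :: Q ++ y :: R := by
          rw [List.cons_append, List.cons_append, List.filter_cons_of_neg (by simp), filter_ne]
          intro h
          exact (List.nodup_cons.mp hnd).1 (by simpa using h)
        rw [e4, ← hg, ← h2] at k1
        cases D with
        | nil =>
          exfalso
          have h6 := c2.mem (t := f) (by simp)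
          rw [← hgβ] at h6
          exact hgf (by simpa using h6)
        | cons g'' D =>
          have h6 := c2.head
          rw [← hgβ] at h6
          subst h6
          have k2 := c2.del f
          rw [List.filter_cons_of_neg (by simp), filter_ne (List.nodup_cons.mp c2.1).1, ← hgβ, ← h3] at k2
          have k3 : y ∉ g :: D := fun h => c3 (List.mem_cons_of_mem _ h)
          refine ⟨(swap x' y * swap g y * w1, swap x' y * swap g y * w2, x'), ⟨?_, ?_, ?_, hx'E, Or.inl ?_⟩,
            hm'.tail (US.turn w1 w2 g x' y P Q R D hgE hx'E hyE k1 k2 k3)⟩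
          · show (swap x' y * swap f y * α) f = (swap x' y * swap f y * β) f
            rw [e0 α hg.symm, e0 β hgβ.symm]
          · show swap x' y * swap g y * w1 = swap f ((swap x' y * swap f y * α) f) * (swap x' y * swap f y * α)
            rw [e0 α hg.symm, e3, h2]
          · show swap x' y * swap g y * w2 = swap f ((swap x' y * swap f y * α) f) * (swap x' y * swap f y * β)
            rw [e0 α hg.symm, e3, h3]
          · show x' = if x' = f then (swap x' y * swap f y * α) f else x'
            rw [if_neg (Ne.symm hxx')]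
    have hxE : x ∈ T.erase f := Finset.mem_erase.mpr ⟨Ne.symm hfx, hx⟩
    have hm' := hfix (Ne.symm hfx)
    by_cases hfx' : f = x'
    · subst hfx'
      have hyE : y ∈ T.erase f := Finset.mem_erase.mpr ⟨Ne.symm hx'y, hy⟩
      have hrot : (x :: P ++ f :: Q ++ y :: R) ~r (f :: (Q ++ y :: R ++ x :: P)) :=
        rot_of_eq (u := x :: P) (v := f :: Q ++ y :: R) (by simp) (by simp)
      have c1' := c1.rot hrot
      cases Q with
      | nil =>
        have hgy : g = y := by
          rw [hg]
          exact Cyc.head (L := R ++ x :: P) (by simpa using c1')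
        subst hgy
        have e0 : ∀ γ : Perm X, γ f = g → (swap f g * swap x g * γ) f = x := by
          intro γ h
          rw [Perm.mul_apply, Perm.mul_apply, h, swap_apply_right, swap_apply_of_ne_of_ne hxx' hxy]
        have e3 : ∀ γ : Perm X, swap f x * (swap f g * swap x g * γ) = swap f g * γ := by
          intro γ
          rw [← mul_assoc, ← mul_assoc, mul_swap_eq_swap_mul (swap f x) f g, swap_apply_left,
            swap_apply_of_ne_of_ne (Ne.symm hx'y) (Ne.symm hxy), mul_assoc (swap x g),
            mul_swap_eq_swap_mul (swap f x) x g, swap_apply_right,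
            swap_apply_of_ne_of_ne (Ne.symm hx'y) (Ne.symm hxy)]
          -- swap x g * (swap f g * swap f x)
          rw [mul_swap_eq_swap_mul (swap f g) f x, swap_apply_left, swap_apply_of_ne_of_ne hxx' hxy,
            ← mul_assoc, Equiv.swap_comm g x, swap_mul_self, one_mul]
        refine ⟨(w1, w2, x), ⟨?_, ?_, ?_, hxE, Or.inl ?_⟩, hm'⟩
        · show (swap f g * swap x g * α) f = (swap f g * swap x g * β) f
          rw [e0 α hg.symm, e0 β hgβ.symm]
        · show w1 = swap f ((swap f g * swap x g * α) f) * (swap f g * swap x g * α)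
          rw [e0 α hg.symm, e3, h2]
        · show w2 = swap f ((swap f g * swap x g * α) f) * (swap f g * swap x g * β)
          rw [e0 α hg.symm, e3, h3]
        · show x = if f = f then (swap f g * swap x g * α) f else f
          rw [if_pos rfl, e0 α hg.symm]
      | cons g' Q =>
        have hgg : g = g' := by
          rw [hg]
          exact Cyc.head (L := Q ++ y :: R ++ x :: P) (by simpa using c1')
        subst hgg
        have hgf : g ≠ f := by
          rintro rfl
          simp [List.nodup_append] at hnd
        have hgy : g ≠ y := by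
          rintro rfl
          simp [List.nodup_append] at hnd
        have hgx : g ≠ x := by
          rintro rfl
          simp [List.nodup_append] at hnd
        have hgE : g ∈ T.erase f := Finset.mem_erase.mpr ⟨hgf, hgT⟩
        have e0 : ∀ γ : Perm X, γ f = g → (swap f y * swap x y * γ) f = g := by
          intro γ h
          rw [Perm.mul_apply, Perm.mul_apply, h, swap_apply_of_ne_of_ne hgx hgy, swap_apply_of_ne_of_ne hgf hgy]
        have e3 : ∀ γ : Perm X, swap f g * (swap f y * swap x y * γ) = swap g y * swap x y * (swap f g * γ) := by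
          intro γ
          rw [← mul_assoc, ← mul_assoc, swap3a (Ne.symm hx'y) (Ne.symm hgy), mul_assoc (swap g y),
            mul_swap_eq_swap_mul (swap f g) x y, swap_apply_of_ne_of_ne hxx' (Ne.symm hgx),
            swap_apply_of_ne_of_ne (Ne.symm hx'y) (Ne.symm hgy)]
          simp only [mul_assoc]
        have k1 := c1.del f
        have e4 : (x :: P ++ f :: (g :: Q) ++ y :: R).filter (fun s => decide (s ≠ f)) = x :: P ++ g :: Q ++ y :: R := by
          have n1 : f ∉ x :: P := by
            intro h
            rw [List.append_assoc] at hnd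
            exact (List.nodup_append.mp hnd).2.2 f h f (by simp) rfl
          have n2 : f ∉ (g :: Q) ++ y :: R := by
            intro h
            rw [List.append_assoc] at hnd
            exact (List.nodup_cons.mp (List.nodup_append.mp hnd).2.1).1 (by simpa using h)
          have e5 : x :: P ++ f :: (g :: Q) ++ y :: R = (x :: P) ++ (f :: ((g :: Q) ++ y :: R)) := by simp
          have e6 : (f :: ((g :: Q) ++ y :: R)).filter (fun s => decide (s ≠ f)) = (g :: Q) ++ y :: R := by
            rw [List.filter_cons_of_neg (by simp), filter_ne n2]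
          rw [e5, List.filter_append, filter_ne n1, e6]
          simp
        rw [e4, ← hg, ← h2] at k1
        have k2 : Cyc w2 ((x :: D).filter (fun s => decide (s ≠ f))) := by
          rw [h3, hgβ]
          exact c2.del f
        rw [filter_cons_ne (Ne.symm hfx)] at k2
        have k3 := notMem_filter (f := f) c3
        rw [filter_cons_ne (Ne.symm hfx)] at k3
        refine ⟨(swap g y * swap x y * w1, swap g y * swap x y * w2, g), ⟨?_, ?_, ?_, hgE, Or.inl ?_⟩,
          hm'.tail (US.turn w1 w2 x g y P Q R _ hxE hgE hyE k1 k2 k3)⟩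
        · show (swap f y * swap x y * α) f = (swap f y * swap x y * β) f
          rw [e0 α hg.symm, e0 β hgβ.symm]
        · show swap g y * swap x y * w1 = swap f ((swap f y * swap x y * α) f) * (swap f y * swap x y * α)
          rw [e0 α hg.symm, e3, h2]
        · show swap g y * swap x y * w2 = swap f ((swap f y * swap x y * α) f) * (swap f y * swap x y * β)
          rw [e0 α hg.symm, e3, h3]
        · show g = if f = f then (swap f y * swap x y * α) f else f
          rw [if_pos rfl, e0 α hg.symm]
    have hx'E : x' ∈ T.erase f := Finset.mem_erase.mpr ⟨Ne.symm hfx', hx'⟩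
    by_cases hfy : f = y
    · subst hfy
      have hrot : (x :: P ++ x' :: Q ++ f :: R) ~r (f :: (R ++ (x :: P ++ x' :: Q))) :=
        rot_of_eq (u := x :: P ++ x' :: Q) (v := f :: R) (by simp) (by simp)
      have c1' := c1.rot hrot
      have hgx : g ≠ x := by
        intro h'
        apply c2.notMem c3
        rw [← hgβ, h']
        simp
      cases R with
      | nil =>
        exfalso
        have h6 : g = x := by
          rw [hg]
          exact Cyc.head (L := P ++ x' :: Q) (by simpa using c1')
        exact hgx h6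
      | cons g' R =>
        have hgg : g = g' := by
          rw [hg]
          exact Cyc.head (L := R ++ (x :: P ++ x' :: Q)) (by simpa using c1')
        subst hgg
        have hgf : g ≠ f := by
          rintro rfl
          simp [List.nodup_append] at hnd
        have hgx' : g ≠ x' := by
          rintro rfl
          simp [List.nodup_append] at hnd
        have hgE : g ∈ T.erase f := Finset.mem_erase.mpr ⟨hgf, hgT⟩
        have e0 : ∀ γ : Perm X, γ f = g → (swap x' f * swap x f * γ) f = g := by
          intro γ h
          rw [Perm.mul_apply, Perm.mul_apply, h, swap_apply_of_ne_of_ne hgx hgf, swap_apply_of_ne_of_ne hgx' hgf]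
        have e3 : ∀ γ : Perm X, swap f g * (swap x' f * swap x f * γ) = swap x' g * swap x g * (swap f g * γ) := by
          intro γ
          rw [← mul_assoc, ← mul_assoc, swap3b (Ne.symm hfx') (Ne.symm hgx'), mul_assoc (swap x' g),
            swap3b hxy (Ne.symm hgx)]
          simp only [mul_assoc]
        have k1 := c1.del f
        have e4 : (x :: P ++ x' :: Q ++ f :: (g :: R)).filter (fun s => decide (s ≠ f)) = x :: P ++ x' :: Q ++ g :: R := by
          have n1 : f ∉ x :: P ++ x' :: Q := by
            intro h
            exact (List.nodup_append.mp hnd).2.2 f h f (by simp) rfl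
          have n2 : f ∉ g :: R := (List.nodup_cons.mp (List.nodup_append.mp hnd).2.1).1
          have e6 : (f :: (g :: R)).filter (fun s => decide (s ≠ f)) = g :: R := by
            rw [List.filter_cons_of_neg (by simp), filter_ne n2]
          rw [List.filter_append, filter_ne n1, e6]
        rw [e4, ← hg, ← h2] at k1
        have k2 := c2.del f
        rw [filter_ne c3, ← hgβ, ← h3] at k2
        have k3 : g ∉ x :: D := hgβ ▸ c2.notMem c3
        refine ⟨(swap x' g * swap x g * w1, swap x' g * swap x g * w2, x'), ⟨?_, ?_, ?_, hx'E, Or.inl ?_⟩,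
          hm'.tail (US.turn w1 w2 x x' g P Q R D hxE hx'E hgE k1 k2 k3)⟩
        · show (swap x' f * swap x f * α) f = (swap x' f * swap x f * β) f
          rw [e0 α hg.symm, e0 β hgβ.symm]
        · show swap x' g * swap x g * w1 = swap f ((swap x' f * swap x f * α) f) * (swap x' f * swap x f * α)
          rw [e0 α hg.symm, e3, h2]
        · show swap x' g * swap x g * w2 = swap f ((swap x' f * swap x f * α) f) * (swap x' f * swap x f * β)
          rw [e0 α hg.symm, e3, h3]
        · show x' = if x' = f then (swap x' f * swap x f * α) f else x'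
          rw [if_neg hx'y]
    · have hyE : y ∈ T.erase f := Finset.mem_erase.mpr ⟨Ne.symm hfy, hy⟩
      have hsf : (swap x' y * swap x y) f = f := by
        rw [Perm.mul_apply, swap_apply_of_ne_of_ne hfx hfy, swap_apply_of_ne_of_ne hfx' hfy]
      have k1 := c1.del f
      have e4 : (x :: P ++ x' :: Q ++ y :: R).filter (fun s => decide (s ≠ f)) =
          x :: P.filter (fun s => decide (s ≠ f)) ++ x' :: Q.filter (fun s => decide (s ≠ f)) ++
            y :: R.filter (fun s => decide (s ≠ f)) := by
        rw [List.filter_append, List.filter_append, filter_cons_ne (Ne.symm hfx), filter_cons_ne (Ne.symm hfx'),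
          filter_cons_ne (Ne.symm hfy)]
      rw [e4, ← hg, ← h2] at k1
      have k2 := c2.del f
      rw [filter_cons_ne (Ne.symm hfx), ← hgβ, ← h3] at k2
      have k3 := notMem_filter (f := f) c3
      rw [filter_cons_ne (Ne.symm hfx)] at k3
      refine ⟨(swap x' y * swap x y * w1, swap x' y * swap x y * w2, x'), ⟨?_, ?_, ?_, hx'E, Or.inl ?_⟩,
        hm'.tail (US.turn w1 w2 x x' y _ _ _ _ hxE hx'E hyE k1 k2 k3)⟩
      · show (swap x' y * swap x y) (α f) = (swap x' y * swap x y) (β f)
        rw [← hg, ← hgβ]
      · show swap x' y * swap x y * w1 =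
          swap f ((swap x' y * swap x y) (α f)) * ((swap x' y * swap x y) * α)
        rw [← hg, ← mul_assoc (swap f _), del_comm _ hsf, h2, mul_assoc (swap x' y * swap x y)]
      · show swap x' y * swap x y * w2 =
          swap f ((swap x' y * swap x y) (α f)) * ((swap x' y * swap x y) * β)
        rw [← hg, ← mul_assoc (swap f _), del_comm _ hsf, h3, mul_assoc (swap x' y * swap x y)]
      · show x' = if x' = f then (swap x' y * swap x y * α) f else x'
        rw [if_neg (Ne.symm hfx')]

end Pool.Agent.helper51.UG
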